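import Mathlib

/-!
An explicit model of the left and right multiplications on a Clifford algebra.
-/

namespace Pool.Agent.H93.Nine

open Finset

variable {n : ℕ}

/-- functions on the cube -/
abbrev WW (n : ℕ) : Type := (Fin n → Bool) → ℝ

/-- the Euclidean space -/
abbrev EE (n : ℕ) : Type := EuclideanSpace ℝ (Fin n)

/-- the sign of a bit -/
def sg (b : Bool) : ℝ := if b then -1 else 1

theorem sg_not (b : Bool) : sg (!b) = - sg b := by cases b <;> simp [sg]

theorem sg_mul_self (b : Bool) : sg b * sg b = 1 := by cases b <;> simp [sg]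

/-- change the bit `i` -/
def flp (i : Fin n) (x : Fin n → Bool) : Fin n → Bool := Function.update x i (!x i)

theorem flp_flp (i : Fin n) (x : Fin n → Bool) : flp i (flp i x) = x := by
  simp [flp]

theorem flp_comm (i j : Fin n) (x : Fin n → Bool) : flp i (flp j x) = flp j (flp i x) := by
  by_cases h : i = j
  · rw [h]
  · simp only [flp]
    rw [Function.update_of_ne h, Function.update_of_ne (Ne.symm h),
      Function.update_comm (Ne.symm h)]

/-- a product of signs -/
def sS (s : Finset (Fin n)) (x : Fin n → Bool) : ℝ := ∏ j ∈ s, sg (x j)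

theorem sS_flp (s : Finset (Fin n)) (j : Fin n) (x : Fin n → Bool) :
    sS s (flp j x) = if j ∈ s then - sS s x else sS s x := by
  have h : ∀ k, sg (flp j x k) = (if k = j then -1 else 1) * sg (x k) := by
    intro k
    by_cases hk : k = j
    · subst hk; simp [flp, sg_not]
    · simp [flp, hk]
  unfold sS
  simp_rw [h]
  rw [prod_mul_distrib, prod_ite_eq']
  split_ifs <;> simp

theorem sS_mul_self (s : Finset (Fin n)) (x : Fin n → Bool) : sS s x * sS s x = 1 := by
  unfold sS
  rw [← prod_mul_distrib]
  simp [sg_mul_self]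

theorem sS_zero (s : Finset (Fin n)) : sS s (fun _ => false) = 1 := by simp [sS, sg]

/-- signed flips -/
noncomputable def opS (s : Finset (Fin n)) (i : Fin n) : WW n →L[ℝ] WW n :=
  LinearMap.toContinuousLinearMap
    { toFun := fun f x => sS s x * f (flp i x)
      map_add' := fun f g => by ext x; simp [mul_add]
      map_smul' := fun c f => by ext x; simp [mul_left_comm] }

theorem opS_apply (s : Finset (Fin n)) (i : Fin n) (f : WW n) (x : Fin n → Bool) :
    opS s i f x = sS s x * f (flp i x) := rfl

/-- left multiplication by `e_i` -/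
noncomputable def opL (i : Fin n) : WW n →L[ℝ] WW n := opS (univ.filter (· < i)) i

/-- right multiplication by `e_i` -/
noncomputable def opR (i : Fin n) : WW n →L[ℝ] WW n := opS (univ.filter (i < ·)) i

/-- the parity operator -/
noncomputable def opG (n : ℕ) : WW n →L[ℝ] WW n :=
  LinearMap.toContinuousLinearMap
    { toFun := fun f x => sS univ x * f x
      map_add' := fun f g => by ext x; simp [mul_add]
      map_smul' := fun c f => by ext x; simp [mul_left_comm] }

theorem opG_apply (f : WW n) (x : Fin n → Bool) : opG n f x = sS univ x * f x := rfl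

theorem opS_mul_apply (s t : Finset (Fin n)) (i j : Fin n) (f : WW n) (x : Fin n → Bool) :
    (opS s i * opS t j) f x = sS s x * (if i ∈ t then - sS t x else sS t x) *
      f (flp j (flp i x)) := by
  change opS s i (opS t j f) x = _
  rw [opS_apply, opS_apply, sS_flp, mul_assoc]

theorem opL_sq (i : Fin n) : opL i * opL i = 1 := by
  ext f x
  rw [opL, opS_mul_apply, flp_flp]
  simp [sS_mul_self]

theorem opR_sq (i : Fin n) : opR i * opR i = 1 := by
  ext f x
  rw [opR, opS_mul_apply, flp_flp]
  simp [sS_mul_self]

theorem opL_anti {i j : Fin n} (h : i ≠ j) : opL i * opL j = - (opL j * opL i) := by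
  ext f x
  rw [neg_apply, Pi.neg_apply, opL, opL, opS_mul_apply, opS_mul_apply,
    flp_comm]
  simp only [mem_filter, mem_univ, true_and]
  rcases lt_or_gt_of_ne h with h | h
  · simp only [h, h.not_gt, if_true, if_false]; ring
  · simp only [h, h.not_gt, if_true, if_false]; ring

theorem opR_anti {i j : Fin n} (h : i ≠ j) : opR i * opR j = - (opR j * opR i) := by
  ext f x
  rw [neg_apply, Pi.neg_apply, opR, opR, opS_mul_apply, opS_mul_apply,
    flp_comm]
  simp only [mem_filter, mem_univ, true_and]
  rcases lt_or_gt_of_ne h with h | h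
  · simp only [h, h.not_gt, if_true, if_false]; ring
  · simp only [h, h.not_gt, if_true, if_false]; ring

theorem opL_opR (i j : Fin n) : opL i * opR j = opR j * opL i := by
  ext f x
  rw [opL, opR, opS_mul_apply, opS_mul_apply, flp_comm]
  simp only [mem_filter, mem_univ, true_and]
  split_ifs <;> ring

theorem opG_sq : opG n * opG n = 1 := by
  ext f x
  change opG n (opG n f) x = _
  rw [opG_apply, opG_apply, ← mul_assoc, sS_mul_self]; simp

theorem opG_opS (s : Finset (Fin n)) (i : Fin n) : opG n * opS s i = - (opS s i * opG n) := by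
  ext f x
  change opG n (opS s i f) x = - (opS s i (opG n f) x)
  rw [opG_apply, opS_apply, opS_apply, opG_apply, sS_flp]
  simp only [mem_univ, if_true]; ring

/-- left multiplication by a vector -/
noncomputable def lv (v : EE n) : WW n →L[ℝ] WW n := ∑ i, v i • opL i

theorem lv_add (u v : EE n) : lv (u + v) = lv u + lv v := by
  simp [lv, add_smul, sum_add_distrib]

theorem lv_smul (c : ℝ) (v : EE n) : lv (c • v) = c • lv v := by
  simp [lv, mul_smul, smul_sum]

theorem continuous_lv : Continuous (lv : EE n → WW n →L[ℝ] WW n) := by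
  unfold lv
  refine continuous_finsetSum _ fun i _ => ?_
  have h : Continuous fun v : EE n => v i := by fun_prop
  exact h.smul continuous_const

theorem lv_single (i : Fin n) : lv (EuclideanSpace.single i (1 : ℝ)) = opL i := by
  rw [lv, sum_eq_single i]
  · simp
  · intro j _ hj; simp [hj]
  · simp

theorem opL_mul_add (i j : Fin n) :
    opL i * opL j + opL j * opL i = (if i = j then (2 : ℝ) else 0) • (1 : WW n →L[ℝ] WW n) := by
  by_cases h : i = j
  · subst h
    rw [opL_sq, if_pos rfl, two_smul]
  · rw [opL_anti h, if_neg h, zero_smul, neg_add_cancel]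

theorem lv_mul (u v : EE n) :
    lv u * lv v + lv v * lv u = (2 * inner ℝ u v) • (1 : WW n →L[ℝ] WW n) := by
  have h1 : lv u * lv v = ∑ i, ∑ j, (u i * v j) • (opL i * opL j) := by
    rw [lv, lv, sum_mul_sum]
    refine sum_congr rfl fun i _ => sum_congr rfl fun j _ => ?_
    rw [smul_mul_smul_comm]
  have h2 : lv v * lv u = ∑ i, ∑ j, (u i * v j) • (opL j * opL i) := by
    rw [lv, lv, sum_mul_sum, sum_comm]
    refine sum_congr rfl fun i _ => sum_congr rfl fun j _ => ?_
    rw [smul_mul_smul_comm, mul_comm]
  rw [h1, h2, ← sum_add_distrib]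
  simp_rw [← sum_add_distrib, ← smul_add, opL_mul_add]
  have h3 : ∀ i : Fin n, ∑ j, (u i * v j) • (if i = j then (2 : ℝ) else 0) •
      (1 : WW n →L[ℝ] WW n) = (u i * v i * 2) • 1 := by
    intro i
    rw [sum_eq_single i]
    · simp [smul_smul]
    · intro j _ hj; simp [Ne.symm hj]
    · simp
  simp_rw [h3]
  rw [← sum_smul]
  congr 1
  rw [EuclideanSpace.inner_eq_star_dotProduct]
  simp only [dotProduct, mul_sum]
  refine sum_congr rfl fun i _ => ?_
  simp; ring

theorem lv_sq {v : EE n} (hv : ‖v‖ = 1) : lv v * lv v = 1 := by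
  have h := lv_mul v v
  rw [real_inner_self_eq_norm_sq, hv] at h
  have h2 : (2 : ℝ) • (lv v * lv v) = (2 : ℝ) • (1 : WW n →L[ℝ] WW n) := by
    rw [two_smul, h]; norm_num
  exact smul_right_injective _ (two_ne_zero' ℝ) h2

theorem lv_anti {u v : EE n} (h : inner ℝ u v = (0 : ℝ)) : lv u * lv v = - (lv v * lv u) := by
  have h1 := lv_mul u v
  rw [h, mul_zero, zero_smul] at h1
  exact eq_neg_of_add_eq_zero_left h1

theorem lv_opR (u : EE n) (j : Fin n) : lv u * opR j = opR j * lv u := by
  rw [lv, sum_mul, mul_sum]
  refine sum_congr rfl fun i _ => ?_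
  rw [smul_mul_assoc, mul_smul_comm, opL_opR]

theorem opG_lv (u : EE n) : opG n * lv u = - (lv u * opG n) := by
  rw [lv, sum_mul, mul_sum, ← sum_neg_distrib]
  refine sum_congr rfl fun i _ => ?_
  rw [mul_smul_comm, smul_mul_assoc, opL, opG_opS, smul_neg]

end Pool.Agent.H93.Nine
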