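import Mathlib
import Pool.Agent.Wtw.FD
import Pool.Agent.H93.Nine.Cliff

/-!
Coordinates: `R^(j+9)` as a product.
-/

namespace Pool.Agent.H93.Nine

open MeasureTheory Set Pool.Agent.Wtw
open scoped ENNReal

/-- the index set of `R^(j+9)` -/
abbrev JJ (j : ℕ) : Type := (Unit ⊕ Idx) ⊕ Fin j

/-- numbering of the coordinates -/
noncomputable def sig (j : ℕ) : JJ j ≃ Fin (j + 7 + 2) :=
  Fintype.equivFinOfCardEq (by simp [Fintype.card_sum, Fintype.card_prod]; omega)

/-- the product space -/
abbrev XX (j : ℕ) : Type := E9 × (Fin j → ℝ)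

/-- coordinates as a linear map -/
noncomputable def LX (j : ℕ) : EE (j + 7 + 2) ≃L[ℝ] XX j :=
  LinearEquiv.toContinuousLinearEquiv
    { toFun := fun x => ((x (sig j (.inl (.inl ()))), fun k => x (sig j (.inl (.inr k)))),
        fun i => x (sig j (.inr i)))
      map_add' := fun x y => rfl
      map_smul' := fun c x => rfl
      invFun := fun p => WithLp.toLp 2 fun i =>
        Sum.elim (Sum.elim (fun _ => p.1.1) p.1.2) p.2 ((sig j).symm i)
      left_inv := by
        intro x
        ext i
        obtain ⟨s, rfl⟩ := (sig j).surjective i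
        simp only [Equiv.symm_apply_apply]
        rcases s with (u | k) | i
        · rfl
        · rfl
        · rfl
      right_inv := by
        intro p
        simp }

theorem LX_apply (j : ℕ) (x : EE (j + 7 + 2)) :
    LX j x = ((x (sig j (.inl (.inl ()))), fun k => x (sig j (.inl (.inr k)))),
        fun i => x (sig j (.inr i))) := rfl

theorem measurePreserving_LX (j : ℕ) : MeasurePreserving (LX j) volume volume := by
  have h1 : MeasurePreserving (WithLp.ofLp : EE (j + 7 + 2) → Fin (j + 7 + 2) → ℝ) :=
    PiLp.volume_preserving_ofLp _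
  have h2 := (volume_measurePreserving_piCongrLeft (fun _ : Fin (j + 7 + 2) => ℝ) (sig j)).symm
  have h3 := volume_measurePreserving_sumPiEquivProdPi
    (X := fun _ : (Unit ⊕ Idx) ⊕ Fin j => ℝ)
  have h4 := volume_measurePreserving_sumPiEquivProdPi (X := fun _ : Unit ⊕ Idx => ℝ)
  have h5 := volume_preserving_funUnique Unit ℝ
  have h6 : MeasurePreserving (Prod.map (MeasurableEquiv.funUnique Unit ℝ)
      (id : (Idx → ℝ) → (Idx → ℝ))) (volume.prod volume) (volume.prod volume) :=
    h5.prod (MeasurePreserving.id _)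
  have h7 := h6.comp h4
  have h8 : MeasurePreserving (Prod.map (Prod.map (MeasurableEquiv.funUnique Unit ℝ)
      (id : (Idx → ℝ) → (Idx → ℝ)) ∘ (MeasurableEquiv.sumPiEquivProdPi fun _ : Unit ⊕ Idx => ℝ))
      (id : (Fin j → ℝ) → (Fin j → ℝ))) (volume.prod volume) (volume.prod volume) :=
    h7.prod (MeasurePreserving.id _)
  exact (h8.comp h3).comp (h2.comp h1)

/-- the space of the seven other coordinates -/
abbrev Z7 : Type := {k : Idx // ¬ k = (0, 0)} → ℝ

/-- insert the coordinate `(0,0)` -/
noncomputable def glue (t : ℝ) (y : Z7) : Z8 := fun k => if h : k = (0, 0) then t else y ⟨k, h⟩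

theorem glue_zero (t : ℝ) (y : Z7) : glue t y (0, 0) = t := by simp [glue]

theorem continuous_glue : Continuous fun p : ℝ × Z7 => glue p.1 p.2 := by
  refine continuous_pi fun k => ?_
  unfold glue
  by_cases h : k = (0, 0)
  · simp only [h, dite_true]; exact continuous_fst
  · simp only [h, dite_false]
    exact (continuous_apply _).comp continuous_snd

theorem measurePreserving_glue :
    MeasurePreserving (fun p : ℝ × Z7 => glue p.1 p.2) volume volume := by
  have h1 := (volume_preserving_funUnique {k : Idx // k = (0, 0)} ℝ).symm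
  have h2 := (volume_preserving_piEquivPiSubtypeProd (fun _ : Idx => ℝ)
    (fun k => k = (0, 0))).symm
  have h3 : MeasurePreserving (Prod.map (MeasurableEquiv.funUnique {k : Idx // k = (0, 0)} ℝ).symm
      (id : Z7 → Z7)) (volume.prod volume) (volume.prod volume) :=
    h1.prod (MeasurePreserving.id _)
  have h4 := h2.comp h3
  have e : (fun p : ℝ × Z7 => glue p.1 p.2) =
      (MeasurableEquiv.piEquivPiSubtypeProd (fun _ : Idx => ℝ) (fun k => k = (0, 0))).symm ∘
      (Prod.map (MeasurableEquiv.funUnique {k : Idx // k = (0, 0)} ℝ).symm (id : Z7 → Z7)) := by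
    funext p
    funext k
    rfl
  rw [e]
  exact h4

/-- the product decomposition used for the slices -/
noncomputable def MY (j : ℕ) (p : ℝ × (ℝ × (Z7 × (Fin j → ℝ)))) : XX j :=
  ((p.1, glue p.2.1 p.2.2.1), p.2.2.2)

theorem continuous_MY (j : ℕ) : Continuous (MY j) := by
  unfold MY
  refine Continuous.prodMk (Continuous.prodMk continuous_fst ?_) (by fun_prop)
  exact continuous_glue.comp (by fun_prop : Continuous fun p : ℝ × (ℝ × (Z7 × (Fin j → ℝ))) =>
    (p.2.1, p.2.2.1))

theorem measurePreserving_MY (j : ℕ) : MeasurePreserving (MY j) volume volume := by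
  have a1 : MeasurePreserving (Prod.map (id : ℝ → ℝ)
      (MeasurableEquiv.prodAssoc : (ℝ × Z7) × (Fin j → ℝ) ≃ᵐ ℝ × (Z7 × (Fin j → ℝ))).symm)
      (volume.prod volume) (volume.prod volume) :=
    (MeasurePreserving.id _).prod (measurePreserving_prodAssoc _ _ _).symm
  have a2 : MeasurePreserving (Prod.map (id : ℝ → ℝ)
      (Prod.map (fun p : ℝ × Z7 => glue p.1 p.2) (id : (Fin j → ℝ) → (Fin j → ℝ))))
      (volume.prod (volume.prod volume)) (volume.prod (volume.prod volume)) :=
    (MeasurePreserving.id _).prod (measurePreserving_glue.prod (MeasurePreserving.id _))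
  have a3 : MeasurePreserving
      (MeasurableEquiv.prodAssoc : (ℝ × Z8) × (Fin j → ℝ) ≃ᵐ ℝ × (Z8 × (Fin j → ℝ))).symm
      (volume.prod (volume.prod volume)) ((volume.prod volume).prod volume) :=
    (measurePreserving_prodAssoc _ _ _).symm
  exact (a3.comp a2).comp a1

end Pool.Agent.H93.Nine
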