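import Mathlib
import Pool.Agent.H93.Exo.Sob

/-!
Weak derivatives from line derivatives, uniqueness of weak derivatives.
-/

set_option linter.unusedSectionVars false

namespace Pool.Agent.H93.Nine

open MeasureTheory Metric Set Filter Topology Module Function Pool.Agent.H93.Exo
open scoped ENNReal ContDiff

variable {E : Type*} [NormedAddCommGroup E] [NormedSpace ℝ E] [FiniteDimensional ℝ E]
  [MeasureSpace E] [BorelSpace E] [(volume : Measure E).IsAddHaarMeasure]
  {F : Type*} [NormedAddCommGroup F] [NormedSpace ℝ F] [CompleteSpace F]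

/-- locally integrable, for functions with values in a normed space -/
def LI {E V : Type*} [NormedAddCommGroup E] [MeasureSpace E] [NormedAddCommGroup V]
    (u : E → V) : Prop := LocallyIntegrable u (volume : Measure E)

/-- almost everywhere strongly measurable, for functions with values in a normed space -/
def ASM {E V : Type*} [MeasureSpace E] [NormedAddCommGroup V]
    (u : E → V) : Prop := AEStronglyMeasurable u (volume : Measure E)

/-- integrable norm on balls -/
def FinB {E V : Type*} [NormedAddCommGroup E] [MeasureSpace E] [NormedAddCommGroup V]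
    (u : E → V) : Prop := ∀ R : ℝ, ∫⁻ x in closedBall (0 : E) R, ‖u x‖ₑ < (⊤ : ℝ≥0∞)

theorem LI.clm {V W : Type*} [NormedAddCommGroup V] [NormedSpace ℝ V] [NormedAddCommGroup W]
    [NormedSpace ℝ W] {u : E → V} (hu : LI u) (L : V →L[ℝ] W) : LI fun x => L (u x) := by
  unfold LI at hu ⊢
  rw [locallyIntegrable_iff] at hu ⊢
  intro C hC
  exact L.integrable_comp (hu C hC)

theorem LI.add {V : Type*} [NormedAddCommGroup V] {u w : E → V} (hu : LI u) (hw : LI w) :
    LI fun x => u x + w x := LocallyIntegrable.add hu hw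

theorem LI.sub {V : Type*} [NormedAddCommGroup V] {u w : E → V} (hu : LI u) (hw : LI w) :
    LI fun x => u x - w x := LocallyIntegrable.sub hu hw

theorem LI.const {V : Type*} [NormedAddCommGroup V] (c : V) : LI fun _ : E => c :=
  locallyIntegrable_const c

/-- if the line derivatives of `u` in the directions of a basis exist everywhere and are given by
a locally integrable `u'`, then `u'` is the weak derivative of `u` -/
theorem isWeakDeriv_of_line {u : E → F} {u' : E → E →L[ℝ] F} {ι : Type*} [Fintype ι]
    (b : Basis ι ℝ E) (h : ∀ x i, HasLineDerivAt ℝ u (u' x (b i)) x (b i))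
    (hu : LI u) (hu' : LI u') (Ω : Set E) :
    IsWeakDeriv Ω u u' := by
  unfold LI at hu hu'
  intro ψ hψ hc hs v
  rw [setIntegral_smul_of_tsupport volume ((tsupport_fderiv_apply_subset' ψ v).trans hs),
    setIntegral_smul_of_tsupport volume hs]
  have hψ1 : Continuous fun x => fderiv ℝ ψ x := hψ.continuous_fderiv (by simp)
  have i1 : ∀ w : E, Integrable (fun x => fderiv ℝ ψ x w • u x) volume := by
    intro w
    refine hu.integrable_smul_left_of_hasCompactSupport (hψ1.clm_apply continuous_const) ?_
    exact hc.of_isClosed_subset (isClosed_tsupport _) (tsupport_fderiv_apply_subset' ψ w)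
  have i2 : ∀ w : E, Integrable (fun x => ψ x • u' x w) volume := by
    intro w
    have h1 : Integrable (fun x => ψ x • u' x) volume :=
      hu'.integrable_smul_left_of_hasCompactSupport hψ.continuous hc
    have h2 := (ContinuousLinearMap.apply ℝ F w).integrable_comp h1
    exact h2
  have i3 : Integrable (fun x => ψ x • u x) volume :=
    hu.integrable_smul_left_of_hasCompactSupport hψ.continuous hc
  -- the basis directions
  have key : ∀ i, ∫ x, fderiv ℝ ψ x (b i) • u x = - ∫ x, ψ x • u' x (b i) := by
    intro i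
    have hψl : ∀ x, HasLineDerivAt ℝ ψ (fderiv ℝ ψ x (b i)) x (b i) := fun x =>
      ((hψ.differentiable (by simp)).differentiableAt.hasFDerivAt).hasLineDerivAt (b i)
    have := integral_bilinear_hasLineDerivAt_right_eq_neg_left_of_integrable
      (B := (ContinuousLinearMap.lsmul ℝ ℝ : ℝ →L[ℝ] F →L[ℝ] F)) (μ := (volume : Measure E))
      (f := ψ) (f' := fun x => fderiv ℝ ψ x (b i)) (g := u) (g' := fun x => u' x (b i))
      (v := b i) (i1 (b i)) (i2 (b i)) i3 (fun x _ => hψl x) (fun x _ => h x i)
    simp only [ContinuousLinearMap.lsmul_apply] at this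
    rw [this, neg_neg]
  -- the general direction
  have hv : v = ∑ i, b.repr v i • b i := (b.sum_repr v).symm
  have e1 : ∀ x, fderiv ℝ ψ x v • u x = ∑ i, b.repr v i • (fderiv ℝ ψ x (b i) • u x) := by
    intro x
    conv_lhs => rw [hv]
    rw [map_sum, Finset.sum_smul]
    refine Finset.sum_congr rfl fun i _ => ?_
    rw [map_smul, smul_eq_mul, mul_smul]
  have e2 : ∀ x, ψ x • u' x v = ∑ i, b.repr v i • (ψ x • u' x (b i)) := by
    intro x
    conv_lhs => rw [hv]
    rw [map_sum, Finset.smul_sum]
    refine Finset.sum_congr rfl fun i _ => ?_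
    rw [map_smul, smul_comm]
  simp_rw [e1, e2]
  have s1 : ∫ x, ∑ i, b.repr v i • (fderiv ℝ ψ x (b i) • u x) =
      ∑ i, ∫ x, b.repr v i • (fderiv ℝ ψ x (b i) • u x) :=
    integral_finsetSum _ fun i _ => (i1 (b i)).smul (b.repr v i)
  have s2 : ∫ x, ∑ i, b.repr v i • (ψ x • u' x (b i)) =
      ∑ i, ∫ x, b.repr v i • (ψ x • u' x (b i)) :=
    integral_finsetSum _ fun i _ => (i2 (b i)).smul (b.repr v i)
  rw [s1, s2, ← Finset.sum_neg_distrib]
  refine Finset.sum_congr rfl fun i _ => ?_
  rw [integral_smul, integral_smul, key, smul_neg]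

/-- uniqueness of the weak derivative -/
theorem isWeakDeriv_unique {Ω : Set E} (hΩ : IsOpen Ω) {u : E → F} {u1 u2 : E → E →L[ℝ] F}
    (hu1 : LocallyIntegrableOn u1 Ω) (hu2 : LocallyIntegrableOn u2 Ω)
    (h1 : IsWeakDeriv Ω u u1) (h2 : IsWeakDeriv Ω u u2) :
    u1 =ᵐ[volume.restrict Ω] u2 := by
  have hloc : LocallyIntegrableOn (fun x => u1 x - u2 x) Ω volume := hu1.sub hu2
  have key := hΩ.ae_eq_zero_of_integral_contDiff_smul_eq_zero (μ := volume) hloc ?_
  · filter_upwards [ae_restrict_mem hΩ.measurableSet, ae_restrict_of_ae key] with x hx hx'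
    exact sub_eq_zero.1 (hx' hx)
  intro ψ hψ hc hs
  have hi1 : Integrable (fun x => ψ x • u1 x) volume :=
    integrable_smul_of_locallyIntegrableOn volume hu1 hψ.continuous hc hs
  have hi2 : Integrable (fun x => ψ x • u2 x) volume :=
    integrable_smul_of_locallyIntegrableOn volume hu2 hψ.continuous hc hs
  have e1 : ∫ x, ψ x • (u1 x - u2 x) ∂volume =
      ∫ x, ψ x • u1 x ∂volume - ∫ x, ψ x • u2 x ∂volume := by
    simp_rw [smul_sub]
    exact integral_sub hi1 hi2
  rw [e1, sub_eq_zero]
  ext v
  rw [ContinuousLinearMap.integral_apply hi1, ContinuousLinearMap.integral_apply hi2]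
  have q1 := h1 ψ hψ hc hs v
  have q2 := h2 ψ hψ hc hs v
  rw [q2, setIntegral_smul_of_tsupport volume hs, setIntegral_smul_of_tsupport volume hs] at q1
  simpa using (neg_inj.1 q1).symm

theorem isWeakDeriv_congr {Ω : Set E} {u w : E → F} {u1 : E → E →L[ℝ] F}
    (h : IsWeakDeriv Ω u u1) (huw : u =ᵐ[volume.restrict Ω] w) : IsWeakDeriv Ω w u1 := by
  intro ψ hψ hc hs v
  rw [← h ψ hψ hc hs v]
  refine integral_congr_ae ?_
  filter_upwards [huw] with x hx
  rw [hx]

end Pool.Agent.H93.Nine
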