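import Mathlib
import Pool.Agent.Wtw.FD
import Pool.Agent.H93.Nine.WLine

/-!
The derivatives of the map as functions defined everywhere.
-/

namespace Pool.Agent.H93.Nine

open MeasureTheory Set Filter Topology Pool.Agent.Wtw Metric
open scoped ENNReal

variable {f : E9 → E9} {K : Set Z8}

/-- the singular set -/
def Sg (K : Set Z8) : Set E9 := {x | x.1 = 0 ∧ x.2 ∈ K}

open Classical in
/-- the first derivative -/
noncomputable def F1 (f : E9 → E9) (K : Set Z8) (x : E9) : E9 →L[ℝ] E9 :=
  if x ∈ Sg K then ContinuousLinearMap.id ℝ E9 else fderiv ℝ f x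

open Classical in
/-- the second derivative -/
noncomputable def F2 (f : E9 → E9) (K : Set Z8) (x : E9) : E9 →L[ℝ] E9 →L[ℝ] E9 :=
  if x ∈ Sg K then 0 else fderiv ℝ (fderiv ℝ f) x

theorem isClosed_Sg (hK : IsCompact K) : IsClosed (Sg K) := by
  have h1 : IsClosed {x : E9 | x.1 = 0} := isClosed_singleton.preimage continuous_fst
  have h2 : IsClosed {x : E9 | x.2 ∈ K} := hK.isClosed.preimage continuous_snd
  exact h1.inter h2

theorem volume_Sg (K : Set Z8) : volume (Sg K) = 0 := by
  have e : Sg K = ({0} : Set ℝ) ×ˢ K := by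
    ext x; rfl
  rw [e, Measure.volume_eq_prod, Measure.prod_prod, Real.volume_singleton, zero_mul]

theorem F1_of_notMem {x : E9} (hx : x ∉ Sg K) : F1 f K x = fderiv ℝ f x := if_neg hx

theorem F2_of_notMem {x : E9} (hx : x ∉ Sg K) : F2 f K x = fderiv ℝ (fderiv ℝ f) x := if_neg hx

theorem F1_of_mem {x : E9} (hx : x ∈ Sg K) : F1 f K x = ContinuousLinearMap.id ℝ E9 := if_pos hx

theorem F2_of_mem {x : E9} (hx : x ∈ Sg K) : F2 f K x = 0 := if_pos hx

theorem smooth_at (h : FData f K) {x : E9} (hx : x ∉ Sg K) : ContDiffAt ℝ 2 f x :=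
  h.smooth x.1 x.2 hx

theorem nhds_notMem (h : FData f K) {x : E9} (hx : x ∉ Sg K) : ∀ᶠ y in 𝓝 x, y ∉ Sg K :=
  (isClosed_Sg h.compact).isOpen_compl.mem_nhds hx

/-- `f` is the identity near the points with `u < 0` and `u > 1`. -/
theorem F1_of_neg (h : FData f K) {x : E9} (hx : x.1 < 0) :
    F1 f K x = ContinuousLinearMap.id ℝ E9 := by
  by_cases hS : x ∈ Sg K
  · exact F1_of_mem hS
  rw [F1_of_notMem hS]
  have h1 : f =ᶠ[𝓝 x] id := by
    have : ∀ᶠ y : E9 in 𝓝 x, y.1 < 0 := continuous_fst.continuousAt.eventually_lt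
      continuousAt_const hx
    filter_upwards [this] with y hy
    exact h.id_neg y.1 y.2 hy.le
  rw [h1.fderiv_eq, fderiv_id]

theorem F1_continuousAt (h : FData f K) {x : E9} (hx : x ∉ Sg K) :
    ContinuousAt (F1 f K) x := by
  have h1 : ContinuousAt (fderiv ℝ f) x :=
    ((smooth_at h hx).fderiv_right (m := 1) (by norm_num)).continuousAt
  refine h1.congr ?_
  filter_upwards [nhds_notMem h hx] with y hy
  exact (F1_of_notMem hy).symm

theorem F1_of_nonpos (h : FData f K) {x : E9} (hx : x.1 ≤ 0) :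
    F1 f K x = ContinuousLinearMap.id ℝ E9 := by
  rcases hx.lt_or_eq with hlt | heq
  · exact F1_of_neg h hlt
  by_cases hS : x ∈ Sg K
  · exact F1_of_mem hS
  have hc := F1_continuousAt h hS
  -- limit from the left
  have hlim : Tendsto (fun t : ℝ => F1 f K (x.1 + t, x.2)) (𝓝[<] 0) (𝓝 (F1 f K x)) := by
    have h1 : Tendsto (fun t : ℝ => ((x.1 + t, x.2) : E9)) (𝓝[<] 0) (𝓝 x) := by
      have : Tendsto (fun t : ℝ => ((x.1 + t, x.2) : E9)) (𝓝 0) (𝓝 ((x.1 + 0, x.2) : E9)) :=
        Continuous.tendsto (by fun_prop) 0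
      rw [add_zero] at this
      exact this.mono_left nhdsWithin_le_nhds
    exact hc.tendsto.comp h1
  have hconst : (fun t : ℝ => F1 f K (x.1 + t, x.2)) =ᶠ[𝓝[<] 0]
      fun _ => ContinuousLinearMap.id ℝ E9 := by
    filter_upwards [self_mem_nhdsWithin] with t ht
    refine F1_of_neg h ?_
    have : t < 0 := ht
    simp only
    linarith
  exact tendsto_nhds_unique hlim (tendsto_const_nhds.congr' hconst.symm)

theorem F1_of_gt (h : FData f K) {x : E9} (hx : 1 < x.1) :
    F1 f K x = ContinuousLinearMap.id ℝ E9 := by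
  have hS : x ∉ Sg K := fun hS => by
    have := hS.1
    linarith
  rw [F1_of_notMem hS]
  have h1 : f =ᶠ[𝓝 x] id := by
    have : ∀ᶠ y : E9 in 𝓝 x, 1 < y.1 := continuousAt_const.eventually_lt
      continuous_fst.continuousAt hx
    filter_upwards [this] with y hy
    exact h.id_one y.1 y.2 hy.le
  rw [h1.fderiv_eq, fderiv_id]

theorem F1_of_K (h : FData f K) {x : E9} (hx : x.2 ∈ K) :
    F1 f K x = ContinuousLinearMap.id ℝ E9 := by
  by_cases h0 : x.1 = 0
  · exact F1_of_mem ⟨h0, hx⟩
  · rw [F1_of_notMem fun hS => h0 hS.1]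
    exact (h.DK x.1 x.2 hx h0).fderiv

/-- the coordinate directions -/
def IsDir (e : E9) : Prop := e = (1, 0) ∨ ∃ k : Idx, e = (0, Pi.single k 1)

theorem line1_notMem (h : FData f K) {x : E9} (hx : x ∉ Sg K) (e : E9) :
    HasLineDerivAt ℝ f (F1 f K x e) x e := by
  rw [F1_of_notMem hx]
  exact (((smooth_at h hx).differentiableAt (by norm_num)).hasFDerivAt).hasLineDerivAt e

theorem line2_notMem (h : FData f K) {x : E9} (hx : x ∉ Sg K) (e : E9) :
    HasLineDerivAt ℝ (F1 f K) (F2 f K x e) x e := by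
  rw [F2_of_notMem hx]
  have h1 : DifferentiableAt ℝ (fderiv ℝ f) x :=
    ((smooth_at h hx).fderiv_right (m := 1) (by norm_num)).differentiableAt (by norm_num)
  have h2 : HasFDerivAt (F1 f K) (fderiv ℝ (fderiv ℝ f) x) x := by
    refine h1.hasFDerivAt.congr_of_eventuallyEq ?_
    filter_upwards [nhds_notMem h hx] with y hy
    exact F1_of_notMem hy
  exact h2.hasLineDerivAt e

/-- a line in a coordinate direction which meets the singular set: `F1` is the identity on it -/
theorem line_cases (h : FData f K) (x : E9) {e : E9} (he : IsDir e) :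
    (∀ t : ℝ, x + t • e ∉ Sg K) ∨
    ((∀ t : ℝ, f (x + t • e) = x + t • e) ∧
      ∀ t : ℝ, F1 f K (x + t • e) = ContinuousLinearMap.id ℝ E9) := by
  rcases he with rfl | ⟨k, rfl⟩
  · by_cases hK : x.2 ∈ K
    · right
      have h2 : ∀ t : ℝ, (x + t • ((1, 0) : E9)).2 ∈ K := fun t => by simpa using hK
      exact ⟨fun t => h.id_K _ _ (h2 t), fun t => F1_of_K h (h2 t)⟩
    · left
      intro t ht
      exact hK (by simpa using ht.2)
  · by_cases h0 : x.1 = 0
    · right
      have h2 : ∀ t : ℝ, (x + t • ((0, Pi.single k 1) : E9)).1 ≤ 0 := fun t => by simp [h0]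
      exact ⟨fun t => h.id_neg _ _ (h2 t), fun t => F1_of_nonpos h (h2 t)⟩
    · left
      intro t ht
      exact h0 (by simpa using ht.1)

theorem line1 (h : FData f K) (x : E9) {e : E9} (he : IsDir e) :
    HasLineDerivAt ℝ f (F1 f K x e) x e := by
  rcases line_cases h x he with h1 | ⟨h1, h2⟩
  · exact line1_notMem h (by simpa using h1 0) e
  · have e1 : F1 f K x = ContinuousLinearMap.id ℝ E9 := by simpa using h2 0
    rw [e1]
    unfold HasLineDerivAt
    simp only [h1]
    change HasDerivAt (fun t : ℝ => x + t • e) e 0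
    simpa using ((hasDerivAt_id (0 : ℝ)).smul_const e).const_add x

theorem line2 (h : FData f K) (x : E9) {e : E9} (he : IsDir e) :
    HasLineDerivAt ℝ (F1 f K) (F2 f K x e) x e := by
  by_cases hx : x ∈ Sg K
  · rcases line_cases h x he with h1 | ⟨h1, h2⟩
    · exact absurd hx (by simpa using h1 0)
    · rw [F2_of_mem hx]
      unfold HasLineDerivAt
      simp only [h2]
      exact hasDerivAt_const _ _
  · exact line2_notMem h hx e

theorem F2_line_zero (h : FData f K) (x : E9) {e : E9} (he : IsDir e)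
    (h2 : ∀ t : ℝ, F1 f K (x + t • e) = ContinuousLinearMap.id ℝ E9) : F2 f K x e = 0 := by
  have h3 := line2 h x he
  unfold HasLineDerivAt at h3
  simp only [h2] at h3
  exact h3.unique (hasDerivAt_const _ _)

theorem F2_continuousAt (h : FData f K) {x : E9} (hx : x ∉ Sg K) :
    ContinuousAt (F2 f K) x := by
  have h1 : ContinuousAt (fderiv ℝ (fderiv ℝ f)) x :=
    (((smooth_at h hx).fderiv_right (m := 1) (by norm_num)).fderiv_right
      (m := 0) (by norm_num)).continuousAt
  refine h1.congr ?_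
  filter_upwards [nhds_notMem h hx] with y hy
  exact (F2_of_notMem hy).symm

/-- the second derivative is continuous along the coordinate lines -/
theorem continuous_line (h : FData f K) (x : E9) {e : E9} (he : IsDir e) :
    Continuous fun t : ℝ => F2 f K (x + t • e) e := by
  rcases line_cases h x he with h1 | ⟨h1, h2⟩
  · rw [continuous_iff_continuousAt]
    intro t
    have h3 : ContinuousAt (fun s : ℝ => F2 f K (x + s • e)) t := by
      refine ContinuousAt.comp (g := F2 f K) (f := fun s : ℝ => x + s • e)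
        (F2_continuousAt h (h1 t)) ?_
      fun_prop
    exact h3.clm_apply continuousAt_const
  · have h3 : ∀ t : ℝ, F2 f K (x + t • e) e = 0 := by
      intro t
      refine F2_line_zero h _ he fun s => ?_
      rw [add_assoc, ← add_smul]
      exact h2 (t + s)
    simp only [h3]
    exact continuous_const

theorem aestronglyMeasurable_F1 (h : FData f K) : AEStronglyMeasurable (F1 f K) volume := by
  have hU : IsOpen (Sg K)ᶜ := (isClosed_Sg h.compact).isOpen_compl
  have h1 : ContinuousOn (F1 f K) (Sg K)ᶜ := fun x hx =>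
    (F1_continuousAt h hx).continuousWithinAt
  have h2 := h1.aestronglyMeasurable (μ := volume) hU.measurableSet
  have h3 : (volume : Measure E9).restrict (Sg K)ᶜ = volume := by
    rw [Measure.restrict_eq_self_of_ae_mem]
    rw [ae_iff]
    simpa using volume_Sg K
  rwa [h3] at h2

theorem aestronglyMeasurable_F2 (h : FData f K) : AEStronglyMeasurable (F2 f K) volume := by
  have hU : IsOpen (Sg K)ᶜ := (isClosed_Sg h.compact).isOpen_compl
  have h1 : ContinuousOn (F2 f K) (Sg K)ᶜ := fun x hx =>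
    (F2_continuousAt h hx).continuousWithinAt
  have h2 := h1.aestronglyMeasurable (μ := volume) hU.measurableSet
  have h3 : (volume : Measure E9).restrict (Sg K)ᶜ = volume := by
    rw [Measure.restrict_eq_self_of_ae_mem]
    rw [ae_iff]
    simpa using volume_Sg K
  rwa [h3] at h2

theorem lintegral_F1 (h : FData f K) (R : ℝ) :
    ∫⁻ x in closedBall (0 : E9) R, ‖F1 f K x‖ₑ < ∞ := by
  refine lt_of_le_of_lt (le_of_eq (lintegral_congr_ae ?_)) (h.int1 R)
  refine ae_restrict_of_ae ?_
  have : ∀ᵐ x : E9, x ∉ Sg K := by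
    rw [ae_iff]; simpa using volume_Sg K
  filter_upwards [this] with x hx
  rw [F1_of_notMem hx]

theorem lintegral_F2 (h : FData f K) (R : ℝ) :
    ∫⁻ x in closedBall (0 : E9) R, ‖F2 f K x‖ₑ < ∞ := by
  refine lt_of_le_of_lt (le_of_eq (lintegral_congr_ae ?_)) (h.int2 R)
  refine ae_restrict_of_ae ?_
  have : ∀ᵐ x : E9, x ∉ Sg K := by
    rw [ae_iff]; simpa using volume_Sg K
  filter_upwards [this] with x hx
  rw [F2_of_notMem hx]

theorem asm_F1 (h : FData f K) : ASM (F1 f K) := aestronglyMeasurable_F1 h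

theorem asm_F2 (h : FData f K) : ASM (F2 f K) := aestronglyMeasurable_F2 h

theorem finB_F1 (h : FData f K) : FinB (F1 f K) := lintegral_F1 h

theorem finB_F2 (h : FData f K) : FinB (F2 f K) := lintegral_F2 h

end Pool.Agent.H93.Nine
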