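import Mathlib
import Pool.Agent.H93.Nine.Emb
import Pool.Agent.H93.Nine.Loc
import Pool.Agent.H93.Nine.WLine

/-!
The map on `R^(j+9)` and its weak derivatives.
-/

namespace Pool.Agent.H93.Nine

open MeasureTheory Set Filter Topology Pool.Agent.Wtw Metric Pool.Agent.H93.Exo
open scoped ENNReal

variable {f : E9 → E9} {K : Set Z8} {j : ℕ}

/-- projection to the nine coordinates -/
noncomputable def pi9 (j : ℕ) : EE (j + 7 + 2) →L[ℝ] E9 :=
  (ContinuousLinearMap.fst ℝ E9 (Fin j → ℝ)).comp (LX j : EE (j + 7 + 2) →L[ℝ] XX j)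

/-- embedding of the nine coordinates -/
noncomputable def io9 (j : ℕ) : E9 →L[ℝ] EE (j + 7 + 2) :=
  ((LX j).symm : XX j →L[ℝ] EE (j + 7 + 2)).comp (ContinuousLinearMap.inl ℝ E9 (Fin j → ℝ))

theorem pi9_apply (x : EE (j + 7 + 2)) : pi9 j x = (LX j x).1 := rfl

theorem pi9_io9 (z : E9) : pi9 j (io9 j z) = z := by
  rw [pi9_apply]
  change (LX j ((LX j).symm (z, 0))).1 = z
  rw [ContinuousLinearEquiv.apply_symm_apply]

/-- the map -/
noncomputable def G0 (f : E9 → E9) (j : ℕ) (x : EE (j + 7 + 2)) : EE (j + 7 + 2) :=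
  x + io9 j (f (pi9 j x) - pi9 j x)

/-- conjugation -/
noncomputable def QQ (j : ℕ) : (E9 →L[ℝ] E9) →L[ℝ] (EE (j + 7 + 2) →L[ℝ] EE (j + 7 + 2)) :=
  ((ContinuousLinearMap.compL ℝ (EE (j + 7 + 2)) E9 (EE (j + 7 + 2))) (io9 j)).comp
    ((ContinuousLinearMap.compL ℝ (EE (j + 7 + 2)) E9 E9).flip (pi9 j))

theorem QQ_apply (B : E9 →L[ℝ] E9) (v : EE (j + 7 + 2)) : QQ j B v = io9 j (B (pi9 j v)) := rfl

/-- the first derivative -/
noncomputable def G1 (f : E9 → E9) (K : Set Z8) (j : ℕ) (x : EE (j + 7 + 2)) :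
    EE (j + 7 + 2) →L[ℝ] EE (j + 7 + 2) :=
  ContinuousLinearMap.id ℝ (EE (j + 7 + 2)) +
    QQ j (F1 f K (pi9 j x) - ContinuousLinearMap.id ℝ E9)

/-- the second derivative -/
noncomputable def G2 (f : E9 → E9) (K : Set Z8) (j : ℕ) (x : EE (j + 7 + 2)) :
    EE (j + 7 + 2) →L[ℝ] EE (j + 7 + 2) →L[ℝ] EE (j + 7 + 2) :=
  (QQ j).comp ((F2 f K (pi9 j x)).comp (pi9 j))

theorem G2_apply (x v : EE (j + 7 + 2)) : G2 f K j x v = QQ j (F2 f K (pi9 j x) (pi9 j v)) := rfl

theorem G0_eq (x : EE (j + 7 + 2)) :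
    G0 f j x = (LX j).symm (f (LX j x).1, (LX j x).2) := by
  unfold G0
  apply (LX j).injective
  rw [map_add, ContinuousLinearEquiv.apply_symm_apply]
  change LX j x + LX j ((LX j).symm (f (LX j x).1 - (LX j x).1, 0)) = _
  rw [ContinuousLinearEquiv.apply_symm_apply]
  refine Prod.ext ?_ ?_
  · simp
  · simp

theorem isHomeomorph_G0 (h : FData f K) (j : ℕ) : IsHomeomorph (G0 f j) := by
  have h1 : IsHomeomorph (Prod.map f (id : (Fin j → ℝ) → (Fin j → ℝ))) :=
    h.homeo.prodMap IsHomeomorph.id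
  have h2 : IsHomeomorph (LX j) := (LX j).toHomeomorph.isHomeomorph
  have h3 : IsHomeomorph (LX j).symm := (LX j).symm.toHomeomorph.isHomeomorph
  have h4 := (h3.comp h1).comp h2
  have e : G0 f j = (⇑(LX j).symm ∘ Prod.map f (id : (Fin j → ℝ) → (Fin j → ℝ))) ∘ ⇑(LX j) := by
    funext x
    rw [G0_eq]
    rfl
  rw [e]
  exact h4

theorem isHomeoOn_of_isHomeomorph {E : Type*} [NormedAddCommGroup E] [NormedSpace ℝ E]
    {g : E → E} (hg : IsHomeomorph g) {Ω : Set E} (hΩ : IsOpen Ω) : IsHomeoOn Ω g := by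
  refine ⟨hg.continuous.continuousOn, hg.injective.injOn, hg.isOpenMap _ hΩ, ?_⟩
  have e : EqOn (Function.invFunOn g Ω) (hg.homeomorph g).symm (g '' Ω) := by
    rintro _ ⟨x, hx, rfl⟩
    have h1 : Function.invFunOn g Ω (g x) = x := by
      have h2 := Function.invFunOn_eq (f := g) (s := Ω) (b := g x) ⟨x, hx, rfl⟩
      exact hg.injective h2
    rw [h1]
    have h3 := (hg.homeomorph g).symm_apply_apply x
    exact h3.symm
  exact ((hg.homeomorph g).symm.continuous.continuousOn).congr e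

theorem lineG1 (h : FData f K) (x : EE (j + 7 + 2)) {v : EE (j + 7 + 2)}
    (hv : IsDir (pi9 j v) ∨ pi9 j v = 0) : HasLineDerivAt ℝ (G0 f j) (G1 f K j x v) x v := by
  have e : ∀ t : ℝ, pi9 j (x + t • v) = pi9 j x + t • pi9 j v := fun t => by
    rw [map_add, map_smul]
  have hf : HasDerivAt (fun t : ℝ => f (pi9 j x + t • pi9 j v))
      (F1 f K (pi9 j x) (pi9 j v)) 0 := by
    rcases hv with hv | hv
    · exact line1 h (pi9 j x) hv
    · rw [hv]
      simp only [smul_zero, add_zero, map_zero]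
      exact hasDerivAt_const _ _
  have hl : HasDerivAt (fun t : ℝ => pi9 j x + t • pi9 j v) (pi9 j v) 0 := by
    simpa using ((hasDerivAt_id (0 : ℝ)).smul_const (pi9 j v)).const_add (pi9 j x)
  have hx : HasDerivAt (fun t : ℝ => x + t • v) v 0 := by
    simpa using ((hasDerivAt_id (0 : ℝ)).smul_const v).const_add x
  have h2 := (io9 j).hasFDerivAt.comp_hasDerivAt (0 : ℝ) (hf.sub hl)
  have h3 := hx.add h2
  unfold HasLineDerivAt
  have e2 : (fun t : ℝ => G0 f j (x + t • v)) = fun t : ℝ =>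
      (x + t • v) + io9 j (f (pi9 j x + t • pi9 j v) - (pi9 j x + t • pi9 j v)) := by
    funext t
    rw [G0, e]
  rw [e2]
  exact h3

theorem lineG2 (h : FData f K) (x : EE (j + 7 + 2)) {v : EE (j + 7 + 2)}
    (hv : IsDir (pi9 j v) ∨ pi9 j v = 0) :
    HasLineDerivAt ℝ (G1 f K j) (G2 f K j x v) x v := by
  have e : ∀ t : ℝ, pi9 j (x + t • v) = pi9 j x + t • pi9 j v := fun t => by
    rw [map_add, map_smul]
  have hf : HasDerivAt (fun t : ℝ => F1 f K (pi9 j x + t • pi9 j v))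
      (F2 f K (pi9 j x) (pi9 j v)) 0 := by
    rcases hv with hv | hv
    · exact line2 h (pi9 j x) hv
    · rw [hv]
      simp only [smul_zero, add_zero, map_zero]
      exact hasDerivAt_const _ _
  have h2 := (QQ j).hasFDerivAt.comp_hasDerivAt (0 : ℝ)
    (hf.sub_const (ContinuousLinearMap.id ℝ E9))
  have h3 := h2.const_add (ContinuousLinearMap.id ℝ (EE (j + 7 + 2)))
  unfold HasLineDerivAt
  have e2 : (fun t : ℝ => G1 f K j (x + t • v)) = fun t : ℝ =>
      ContinuousLinearMap.id ℝ (EE (j + 7 + 2)) +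
        QQ j (F1 f K (pi9 j x + t • pi9 j v) - ContinuousLinearMap.id ℝ E9) := by
    funext t
    rw [G1, e]
  rw [e2]
  exact h3

theorem continuous_lineG2 (h : FData f K) (x : EE (j + 7 + 2)) {v : EE (j + 7 + 2)}
    (hv : IsDir (pi9 j v)) : Continuous fun t : ℝ => G2 f K j (x + t • v) v := by
  have e2 : (fun t : ℝ => G2 f K j (x + t • v) v) = fun t : ℝ =>
      QQ j (F2 f K (pi9 j x + t • pi9 j v) (pi9 j v)) := by
    funext t
    rw [G2_apply, map_add, map_smul]
  rw [e2]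
  exact (QQ j).continuous.comp (continuous_line h (pi9 j x) hv)

/-- local integrability of functions of the nine coordinates -/
theorem li_comp_pi9 {V : Type*} [NormedAddCommGroup V] {u : E9 → V}
    (hu : ASM u) (hint : FinB u) (j : ℕ) :
    LI (fun x : EE (j + 7 + 2) => u (pi9 j x)) := by
  unfold ASM at hu
  unfold FinB at hint
  unfold LI
  have hq : Measure.QuasiMeasurePreserving (pi9 j) volume volume := by
    have h1 : Measure.QuasiMeasurePreserving (Prod.fst : XX j → E9) volume volume :=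
      Measure.quasiMeasurePreserving_fst
    exact h1.comp (measurePreserving_LX j).quasiMeasurePreserving
  rw [locallyIntegrable_iff]
  intro C hC
  refine ⟨(hu.comp_quasiMeasurePreserving hq).restrict, ?_⟩
  rw [HasFiniteIntegral]
  obtain ⟨R, hR⟩ := (hC.image (LX j).continuous).isBounded.subset_closedBall 0
  have hsub : C ⊆ (LX j) ⁻¹' (closedBall 0 R) := fun x hx => hR (mem_image_of_mem _ hx)
  refine (lintegral_mono_set hsub).trans_lt ?_
  have e1 : ∫⁻ x in (LX j) ⁻¹' (closedBall 0 R), ‖u (pi9 j x)‖ₑ =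
      ∫⁻ p in closedBall (0 : XX j) R, ‖u p.1‖ₑ := by
    have hemb : MeasurableEmbedding (LX j) := (LX j).toHomeomorph.measurableEmbedding
    have := (measurePreserving_LX j).setLIntegral_comp_preimage_emb hemb
      (fun p : XX j => ‖u p.1‖ₑ) (closedBall 0 R)
    exact this
  rw [e1, ← Prod.mk_zero_zero, ← closedBall_prod_same, Measure.volume_eq_prod,
    ← Measure.prod_restrict]
  have hm : AEMeasurable (fun p : XX j => ‖u p.1‖ₑ)
      (((volume : Measure E9).restrict (closedBall 0 R)).prod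
        ((volume : Measure (Fin j → ℝ)).restrict (closedBall 0 R))) := by
    have h1 : AEStronglyMeasurable (fun p : XX j => u p.1)
        (((volume : Measure E9).restrict (closedBall 0 R)).prod
          ((volume : Measure (Fin j → ℝ)).restrict (closedBall 0 R))) :=
      hu.restrict.comp_quasiMeasurePreserving Measure.quasiMeasurePreserving_fst
    exact h1.enorm
  rw [lintegral_prod _ hm]
  simp only [lintegral_const]
  rw [lintegral_mul_const'' _ hu.restrict.enorm]
  refine ENNReal.mul_lt_top (hint R) ?_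
  rw [Measure.restrict_apply_univ]
  exact measure_closedBall_lt_top

theorem li_G1 (h : FData f K) (j : ℕ) : LI (G1 f K j) := by
  have h1 := li_comp_pi9 (asm_F1 h) (finB_F1 h) j
  have h2 := (h1.sub (LI.const (ContinuousLinearMap.id ℝ E9))).clm (QQ j)
  exact (LI.const (ContinuousLinearMap.id ℝ (EE (j + 7 + 2)))).add h2

theorem li_conj {n : ℕ} {X Y V W : Type*} [NormedAddCommGroup X] [NormedSpace ℝ X]
    [NormedAddCommGroup Y] [NormedSpace ℝ Y] [NormedAddCommGroup V] [NormedSpace ℝ V]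
    [NormedAddCommGroup W] [NormedSpace ℝ W] {u : EE n → X →L[ℝ] V} (hu : LI u)
    (Q : V →L[ℝ] W) (p : Y →L[ℝ] X) : LI fun x => Q.comp ((u x).comp p) :=
  hu.clm ((ContinuousLinearMap.compL ℝ Y V W Q).comp
    ((ContinuousLinearMap.compL ℝ Y X V).flip p))

theorem li_G2 (h : FData f K) (j : ℕ) : LI (G2 f K j) :=
  li_conj (li_comp_pi9 (asm_F2 h) (finB_F2 h) j) (QQ j) (pi9 j)

theorem li_G0 (h : FData f K) (j : ℕ) : LI (G0 f j) :=
  (isHomeomorph_G0 h j).continuous.locallyIntegrable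

/-- the basis vectors are coordinate directions -/
theorem pi9_single (i : Fin (j + 7 + 2)) :
    IsDir (pi9 j (EuclideanSpace.single i (1 : ℝ))) ∨
      pi9 j (EuclideanSpace.single i (1 : ℝ)) = 0 := by
  obtain ⟨s, rfl⟩ := (sig j).surjective i
  rcases s with (u | k) | i
  · left; left
    rw [pi9_apply, LX_apply]
    refine Prod.ext ?_ ?_
    · simp
    · funext k'; simp
  · left; right
    refine ⟨k, ?_⟩
    rw [pi9_apply, LX_apply]
    refine Prod.ext ?_ ?_
    · simp
    · funext k'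
      by_cases hk : k' = k
      · subst hk; simp
      · simp [hk]
  · right
    rw [pi9_apply, LX_apply]
    refine Prod.ext ?_ ?_
    · simp
    · funext k'; simp

theorem isWeakDeriv_G0 (h : FData f K) (j : ℕ) (Ω : Set (EE (j + 7 + 2))) :
    IsWeakDeriv Ω (G0 f j) (G1 f K j) := by
  refine isWeakDeriv_of_line (EuclideanSpace.basisFun (Fin (j + 7 + 2)) ℝ).toBasis
    (fun x i => ?_) (li_G0 h j) (li_G1 h j) Ω
  rw [OrthonormalBasis.coe_toBasis, EuclideanSpace.basisFun_apply]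
  exact lineG1 h x (pi9_single i)

theorem isWeakDeriv_G1 (h : FData f K) (j : ℕ) (Ω : Set (EE (j + 7 + 2))) :
    IsWeakDeriv Ω (G1 f K j) (G2 f K j) := by
  refine isWeakDeriv_of_line (EuclideanSpace.basisFun (Fin (j + 7 + 2)) ℝ).toBasis
    (fun x i => ?_) (li_G1 h j) (li_G2 h j) Ω
  rw [OrthonormalBasis.coe_toBasis, EuclideanSpace.basisFun_apply]
  exact lineG2 h x (pi9_single i)

theorem inLq_one {V : Type*} [NormedAddCommGroup V] [NormedSpace ℝ V] {n : ℕ} {u : EE n → V}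
    (hu : LI u) {Ω : Set (EE n)} (hb : Bornology.IsBounded Ω) :
    InLq 1 Ω u := by
  unfold LI at hu
  unfold InLq
  rw [ENNReal.ofReal_one, memLp_one_iff_integrable]
  have h1 : IntegrableOn u (closure Ω) volume :=
    hu.integrableOn_isCompact hb.isCompact_closure
  exact h1.mono_set subset_closure

theorem isJet_G (h : FData f K) (j : ℕ) {Ω : Set (EE (j + 7 + 2))}
    (hb : Bornology.IsBounded Ω) : IsJet 1 Ω (G0 f j) (G1 f K j) (G2 f K j) :=
  ⟨⟨inLq_one (li_G0 h j) hb, inLq_one (li_G1 h j) hb, inLq_one (li_G2 h j) hb⟩,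
    isWeakDeriv_G0 h j Ω, isWeakDeriv_G1 h j Ω⟩

theorem isW2Homeo_G (h : FData f K) (j : ℕ) {Ω : Set (EE (j + 7 + 2))} (hΩ : IsOpen Ω)
    (hb : Bornology.IsBounded Ω) : IsW2Homeo 1 Ω (G0 f j) :=
  ⟨isHomeoOn_of_isHomeomorph (isHomeomorph_G0 h j) hΩ, G1 f K j, G2 f K j, isJet_G h j hb⟩

end Pool.Agent.H93.Nine
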