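import Mathlib

/-!
The supremum on an interval is controlled by the integrals of the function and its derivative.
-/

namespace Pool.Agent.H93.Nine

open MeasureTheory Set Filter Topology
open scoped ENNReal

variable {V : Type*} [NormedAddCommGroup V] [NormedSpace ℝ V] [CompleteSpace V]

theorem enorm_sub_le_lintegral {h h' : ℝ → V} {a b : ℝ}
    (hd : ∀ t ∈ Icc a b, HasDerivAt h (h' t) t) (hc : ContinuousOn h' (Icc a b)) {s t : ℝ}
    (hs : s ∈ Icc a b) (ht : t ∈ Icc a b) : ‖h t - h s‖ₑ ≤ ∫⁻ x in Icc a b, ‖h' x‖ₑ := by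
  have hsub : uIcc s t ⊆ Icc a b := (convex_Icc a b).ordConnected.uIcc_subset hs ht
  have e : ∫ x in s..t, h' x = h t - h s :=
    intervalIntegral.integral_eq_sub_of_hasDerivAt (fun x hx => hd x (hsub hx))
      ((hc.mono hsub).intervalIntegrable)
  rw [← e, intervalIntegral.intervalIntegral_eq_integral_uIoc]
  have h1 : ‖(if s ≤ t then (1 : ℝ) else -1) • ∫ x in uIoc s t, h' x‖ₑ =
      ‖∫ x in uIoc s t, h' x‖ₑ := by
    rw [enorm_smul]
    split_ifs <;> simp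
  rw [h1]
  refine (enorm_integral_le_lintegral_enorm _).trans ?_
  exact lintegral_mono_set (uIoc_subset_uIcc.trans hsub)

theorem sup_bound {h h' : ℝ → V} {a b : ℝ}
    (hd : ∀ t ∈ Icc a b, HasDerivAt h (h' t) t) (hc : ContinuousOn h' (Icc a b)) {t : ℝ}
    (ht : t ∈ Icc a b) :
    ENNReal.ofReal (b - a) * ‖h t‖ₑ ≤
      (∫⁻ s in Icc a b, ‖h s‖ₑ) + ENNReal.ofReal (b - a) * ∫⁻ s in Icc a b, ‖h' s‖ₑ := by
  set J := ∫⁻ x in Icc a b, ‖h' x‖ₑ with hJ
  have h1 : ∀ s ∈ Icc a b, ‖h t‖ₑ ≤ ‖h s‖ₑ + J := by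
    intro s hs
    have h2 : ‖h t‖ₑ ≤ ‖h s‖ₑ + ‖h t - h s‖ₑ := by
      have h3 : h t = h s + (h t - h s) := by abel
      conv_lhs => rw [h3]
      exact enorm_add_le _ _
    exact h2.trans (add_le_add le_rfl (enorm_sub_le_lintegral hd hc hs ht))
  have h4 : ∫⁻ _ in Icc a b, ‖h t‖ₑ ≤ ∫⁻ s in Icc a b, (‖h s‖ₑ + J) :=
    setLIntegral_mono' measurableSet_Icc h1
  rw [setLIntegral_const, Real.volume_Icc, mul_comm] at h4
  refine h4.trans ?_
  rw [lintegral_add_right _ measurable_const, setLIntegral_const, Real.volume_Icc, mul_comm J]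

end Pool.Agent.H93.Nine
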