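import Mathlib
import Pool.Agent.H93.Nine.JetG
import Pool.Agent.H93.Nine.SupB

/-!
Uniform convergence of the derivatives on good lines.
-/

namespace Pool.Agent.H93.Nine

open MeasureTheory Set Filter Topology Pool.Agent.Wtw Metric Pool.Agent.H93.Exo
open scoped ENNReal ContDiff

/-- the norm as an extended number -/
noncomputable def en {V : Type*} [NormedAddCommGroup V] (v : V) : ℝ≥0∞ := ‖v‖ₑ

variable {f : E9 → E9} {K : Set Z8} {j : ℕ}

/-- the error density -/
noncomputable def phi (f : E9 → E9) (K : Set Z8) (j : ℕ)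
    (g : EE (j + 7 + 2) → EE (j + 7 + 2)) (x : EE (j + 7 + 2)) : ℝ≥0∞ :=
  en (fderiv ℝ g x - G1 f K j x) + en (fderiv ℝ (fderiv ℝ g) x - G2 f K j x)

theorem enorm_apply_le {V W : Type*} [NormedAddCommGroup V] [NormedSpace ℝ V]
    [NormedAddCommGroup W] [NormedSpace ℝ W] (A : V →L[ℝ] W) (v : V) :
    en (A v) ≤ en v * en A := by
  unfold en
  rw [mul_comm]
  have h := A.le_opNorm v
  rw [← ofReal_norm, ← ofReal_norm, ← ofReal_norm, ← ENNReal.ofReal_mul (norm_nonneg _)]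
  exact ENNReal.ofReal_le_ofReal h

theorem line_sup (h : FData f K) {Ω : Set (EE (j + 7 + 2))} (hΩ : IsOpen Ω)
    {g : EE (j + 7 + 2) → EE (j + 7 + 2)} (hg : ContDiffOn ℝ ∞ g Ω) (p e : EE (j + 7 + 2))
    (he : IsDir (pi9 j e)) {s0 s1 : ℝ} (hin : ∀ t ∈ Icc s0 s1, p + t • e ∈ Ω) {t : ℝ}
    (ht : t ∈ Icc s0 s1) :
    ENNReal.ofReal (s1 - s0) * en (fderiv ℝ g (p + t • e) - G1 f K j (p + t • e)) ≤
      (1 + ENNReal.ofReal (s1 - s0) * en e) * ∫⁻ s in Icc s0 s1, phi f K j g (p + s • e) := by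
  set hh : ℝ → EE (j + 7 + 2) →L[ℝ] EE (j + 7 + 2) := fun s =>
    fderiv ℝ g (p + s • e) - G1 f K j (p + s • e) with hhh
  set hh' : ℝ → EE (j + 7 + 2) →L[ℝ] EE (j + 7 + 2) := fun s =>
    fderiv ℝ (fderiv ℝ g) (p + s • e) e - G2 f K j (p + s • e) e with hhh'
  have hline : ∀ s : ℝ, HasDerivAt (fun s : ℝ => p + s • e) e s := fun s => by
    simpa using ((hasDerivAt_id s).smul_const e).const_add p
  have hlc : Continuous fun s : ℝ => p + s • e := by fun_prop
  have hg1 : ContDiffOn ℝ ∞ (fderiv ℝ g) Ω := hg.fderiv_of_isOpen hΩ (by simp)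
  have hg2 : ContDiffOn ℝ ∞ (fderiv ℝ (fderiv ℝ g)) Ω := hg1.fderiv_of_isOpen hΩ (by simp)
  have hd : ∀ s ∈ Icc s0 s1, HasDerivAt hh (hh' s) s := by
    intro s hs
    have hx : p + s • e ∈ Ω := hin s hs
    have h1 : HasFDerivAt (fderiv ℝ g) (fderiv ℝ (fderiv ℝ g) (p + s • e)) (p + s • e) :=
      ((hg1.contDiffAt (hΩ.mem_nhds hx)).differentiableAt (by simp)).hasFDerivAt
    have h2 := h1.comp_hasDerivAt s (hline s)
    have h3 := lineG2 h (p + s • e) (Or.inl he)
    unfold HasLineDerivAt at h3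
    have h4 : HasDerivAt (fun t : ℝ => G1 f K j (p + t • e)) (G2 f K j (p + s • e) e) s := by
      have h5 : (fun t : ℝ => G1 f K j (p + s • e + t • e)) =
          fun t : ℝ => (fun r : ℝ => G1 f K j (p + r • e)) (t + s) := by
        funext t
        have : p + s • e + t • e = p + (t + s) • e := by rw [add_smul]; abel
        simp only [this]
      rw [h5, ← sub_self s] at h3
      have h6 := HasDerivAt.comp_sub_const s s h3
      simpa only [sub_add_cancel] using h6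
    exact h2.sub h4
  have hc : ContinuousOn hh' (Icc s0 s1) := by
    have h1 : ContinuousOn (fun s : ℝ => fderiv ℝ (fderiv ℝ g) (p + s • e)) (Icc s0 s1) :=
      ContinuousOn.comp (g := fderiv ℝ (fderiv ℝ g)) (f := fun s : ℝ => p + s • e)
        hg2.continuousOn hlc.continuousOn hin
    exact (h1.clm_apply continuousOn_const).sub (continuous_lineG2 h p he).continuousOn
  have key := sup_bound hd hc ht
  change ENNReal.ofReal (s1 - s0) * en (hh t) ≤ _
  refine key.trans ?_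
  rw [add_mul, one_mul]
  refine add_le_add (lintegral_mono fun s => le_self_add) ?_
  rw [mul_assoc]
  refine mul_le_mul_right ?_ _
  rw [← lintegral_const_mul' _ _ (by unfold en; simp)]
  refine lintegral_mono fun s => ?_
  have h1 := enorm_apply_le (fderiv ℝ (fderiv ℝ g) (p + s • e) - G2 f K j (p + s • e)) e
  exact h1.trans (mul_le_mul_right le_add_self _)

theorem line_tendsto (h : FData f K) {Ω : Set (EE (j + 7 + 2))} (hΩ : IsOpen Ω)
    {g : ℕ → EE (j + 7 + 2) → EE (j + 7 + 2)} (hg : ∀ k, ContDiffOn ℝ ∞ (g k) Ω)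
    (p e : EE (j + 7 + 2)) (he : IsDir (pi9 j e)) {s0 s1 : ℝ} (hs : s0 < s1)
    (hin : ∀ t ∈ Icc s0 s1, p + t • e ∈ Ω) {k : ℕ → ℕ}
    (hlim : Tendsto (fun i => ∫⁻ s in Icc s0 s1, phi f K j (g (k i)) (p + s • e)) atTop (𝓝 0))
    {ε : ℝ} (hε : 0 < ε) :
    ∀ᶠ i in atTop, ∀ t ∈ Icc s0 s1,
      ‖fderiv ℝ (g (k i)) (p + t • e) - G1 f K j (p + t • e)‖ < ε := by
  set C : ℝ≥0∞ := 1 + ENNReal.ofReal (s1 - s0) * en e with hC
  have hCt : C ≠ (⊤ : ℝ≥0∞) := by
    rw [hC]; unfold en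
    exact ENNReal.add_ne_top.2 ⟨ENNReal.one_ne_top,
      ENNReal.mul_ne_top ENNReal.ofReal_ne_top enorm_ne_top⟩
  have hlim2 : Tendsto (fun i => C * ∫⁻ s in Icc s0 s1, phi f K j (g (k i)) (p + s • e)) atTop
      (𝓝 0) := by
    have := ENNReal.Tendsto.const_mul (a := C) hlim (Or.inr hCt)
    simpa using this
  have hpos : 0 < ENNReal.ofReal (s1 - s0) * ENNReal.ofReal ε :=
    ENNReal.mul_pos (by simpa using hs) (by simpa using hε)
  filter_upwards [hlim2.eventually (gt_mem_nhds hpos)] with i hi t ht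
  have h1 := (line_sup h hΩ (hg (k i)) p e he hin ht).trans_lt hi
  have h2 : en (fderiv ℝ (g (k i)) (p + t • e) - G1 f K j (p + t • e)) < ENNReal.ofReal ε := by
    by_contra hcon
    rw [not_lt] at hcon
    exact absurd h1 (not_lt.2 (mul_le_mul_right hcon _))
  unfold en at h2
  rw [← ofReal_norm, ENNReal.ofReal_lt_ofReal_iff hε] at h2
  exact h2

end Pool.Agent.H93.Nine
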