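import Mathlib
import Pool.Agent.H93.Nine.Lines

/-!
The error densities of a sequence of diffeomorphisms tend to zero in `L^1`.
-/

namespace Pool.Agent.H93.Nine

open MeasureTheory Set Filter Topology Pool.Agent.Wtw Metric Pool.Agent.H93.Exo
open scoped ENNReal ContDiff

variable {f : E9 → E9} {K : Set Z8} {j : ℕ}

theorem lqNorm_one {E V : Type*} [NormedAddCommGroup E] [NormedSpace ℝ E] [MeasureSpace E]
    [NormedAddCommGroup V] [NormedSpace ℝ V] {Ω : Set E} {u w : E → V}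
    (h : u =ᵐ[volume.restrict Ω] w) :
    lqNorm 1 Ω u = ∫⁻ x in Ω, en (w x) := by
  unfold lqNorm en
  rw [ENNReal.ofReal_one, eLpNorm_one_eq_lintegral_enorm]
  refine lintegral_congr_ae ?_
  filter_upwards [h] with x hx
  rw [hx]

theorem aemeasurable_en {E V : Type*} [NormedAddCommGroup E] [NormedSpace ℝ E] [MeasureSpace E]
    [NormedAddCommGroup V] [NormedSpace ℝ V] {Ω : Set E} {u w u' w' : E → V}
    (hu : InLq 1 Ω u) (hw : InLq 1 Ω w) (h : u =ᵐ[volume.restrict Ω] u')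
    (h' : w =ᵐ[volume.restrict Ω] w') :
    AEMeasurable (fun x => en (u' x - w' x)) (volume.restrict Ω) := by
  have h1 : AEStronglyMeasurable (fun x => u x - w x) (volume.restrict Ω) :=
    hu.aestronglyMeasurable.sub hw.aestronglyMeasurable
  have h2 : AEStronglyMeasurable (fun x => u' x - w' x) (volume.restrict Ω) := by
    refine h1.congr ?_
    filter_upwards [h, h'] with x hx hx'
    rw [hx, hx']
  exact h2.enorm

theorem ae_sub {E V : Type*} [MeasureSpace E] [NormedAddCommGroup V] {Ω : Set E}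
    {u w u' w' : E → V} (h : u =ᵐ[volume.restrict Ω] u')
    (h' : w =ᵐ[volume.restrict Ω] w') :
    (u - w : E → V) =ᵐ[volume.restrict Ω] fun x => u' x - w' x := by
  filter_upwards [h, h'] with x hx hx'
  rw [Pi.sub_apply, hx, hx']

/-- convergence of the error densities -/
theorem phi_tendsto (h : FData f K) {Ω : Set (EE (j + 7 + 2))} (hΩ : IsOpen Ω)
    (hb : Bornology.IsBounded Ω) (hlim : IsW2Limit 1 Ω (G0 f j)) :
    ∃ g : ℕ → EE (j + 7 + 2) → EE (j + 7 + 2), (∀ k, IsDiffeoOn Ω (g k)) ∧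
      (∀ k, AEMeasurable (phi f K j (g k)) (volume.restrict Ω)) ∧
      Tendsto (fun k => ∫⁻ x in Ω, phi f K j (g k) x) atTop (𝓝 0) := by
  obtain ⟨f1, f2, hfj, g, g1, g2, hg, hl⟩ := hlim
  have hG := isJet_G h j hb
  have e1 : f1 =ᵐ[volume.restrict Ω] G1 f K j :=
    isWeakDeriv_unique hΩ (locallyIntegrableOn_of_inLq le_rfl hfj.1.2.1)
      (locallyIntegrableOn_of_inLq le_rfl hG.1.2.1) hfj.2.1 hG.2.1
  have e2 : f2 =ᵐ[volume.restrict Ω] G2 f K j :=
    isWeakDeriv_unique hΩ (locallyIntegrableOn_of_inLq le_rfl hfj.1.2.2)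
      (locallyIntegrableOn_of_inLq le_rfl hG.1.2.2) (isWeakDeriv_congr hfj.2.2 e1) hG.2.2
  have hg2 : ∀ k, ContDiffOn ℝ 2 (g k) Ω := fun k => (hg k).1.1.of_le (by norm_cast)
  have d1 : ∀ k, g1 k =ᵐ[volume.restrict Ω] fderiv ℝ (g k) := fun k =>
    (hg k).2.ae_eq1 le_rfl hΩ (hg2 k)
  have d2 : ∀ k, g2 k =ᵐ[volume.restrict Ω] fderiv ℝ (fderiv ℝ (g k)) := fun k =>
    (hg k).2.ae_eq2 le_rfl hΩ (hg2 k)
  have m1 : ∀ k, AEMeasurable (fun x => en (fderiv ℝ (g k) x - G1 f K j x))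
      (volume.restrict Ω) := fun k =>
    aemeasurable_en (hg k).2.1.2.1 hfj.1.2.1 (d1 k) e1
  have m2 : ∀ k, AEMeasurable (fun x => en (fderiv ℝ (fderiv ℝ (g k)) x - G2 f K j x))
      (volume.restrict Ω) := fun k =>
    aemeasurable_en (hg k).2.1.2.2 hfj.1.2.2 (d2 k) e2
  refine ⟨g, fun k => (hg k).1, fun k => (m1 k).add (m2 k), ?_⟩
  refine tendsto_of_tendsto_of_tendsto_of_le_of_le tendsto_const_nhds hl (fun _ => zero_le)
    (fun k => ?_)
  have q1 : lqNorm 1 Ω (g1 k - f1) = ∫⁻ x in Ω, en (fderiv ℝ (g k) x - G1 f K j x) :=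
    lqNorm_one (ae_sub (d1 k) e1)
  have q2 : lqNorm 1 Ω (g2 k - f2) =
      ∫⁻ x in Ω, en (fderiv ℝ (fderiv ℝ (g k)) x - G2 f K j x) :=
    lqNorm_one (ae_sub (d2 k) e2)
  change ∫⁻ x in Ω, (en (fderiv ℝ (g k) x - G1 f K j x) +
    en (fderiv ℝ (fderiv ℝ (g k)) x - G2 f K j x)) ≤ _
  rw [lintegral_add_left' (m1 k), ← q1, ← q2]
  have q3 : ∀ a b c : ℝ≥0∞, b + c ≤ a + b + c := fun a b c => by
    rw [add_assoc]; exact le_add_self
  exact q3 _ _ _

end Pool.Agent.H93.Nine
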