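import Mathlib

/-!
Fubini selection of good lines.
-/

namespace Pool.Agent.H93.Nine

open MeasureTheory Set Filter Topology
open scoped ENNReal

variable {X Y : Type*} [MeasurableSpace X] [MeasurableSpace Y]

/-- A sequence of functions whose integrals tend to zero has a subsequence with summable
integrals. -/
theorem exists_summable_subseq {a : ℕ → ℝ≥0∞} (ha : Tendsto a atTop (𝓝 0)) :
    ∃ k : ℕ → ℕ, StrictMono k ∧ ∑' j, a (k j) ≠ ∞ := by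
  have h : ∀ j : ℕ, ∀ᶠ n in atTop, a n ≤ (1 / 2 : ℝ≥0∞) ^ j := by
    intro j
    have h0 : (0 : ℝ≥0∞) < (1 / 2) ^ j := by
      apply ENNReal.pow_pos; simp
    exact (ha.eventually (gt_mem_nhds h0)).mono fun n hn => hn.le
  obtain ⟨k, hk, hk2⟩ := extraction_forall_of_eventually h
  refine ⟨k, hk, ne_top_of_le_ne_top ?_ (ENNReal.tsum_le_tsum hk2)⟩
  rw [ENNReal.tsum_geometric]
  simp

theorem tendsto_zero_of_tsum_ne_top {a : ℕ → ℝ≥0∞} (h : ∑' j, a j ≠ ∞) :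
    Tendsto a atTop (𝓝 0) := ENNReal.tendsto_atTop_zero_of_tsum_ne_top h

/-- along a subsequence, the integrals over almost every line of both families tend to zero -/
theorem exists_subseq_lines {μ1 : Measure ℝ} {μ2 : Measure ℝ} {ν : Measure Y} [SFinite μ1]
    [SFinite μ2] [SFinite ν] {Φ : ℕ → ℝ × (ℝ × Y) → ℝ≥0∞}
    (hΦ : ∀ k, AEMeasurable (Φ k) (μ1.prod (μ2.prod ν)))
    (h : Tendsto (fun k => ∫⁻ p, Φ k p ∂(μ1.prod (μ2.prod ν))) atTop (𝓝 0)) :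
    ∃ k : ℕ → ℕ, StrictMono k ∧
      (∀ᵐ q ∂(μ2.prod ν), Tendsto (fun j => ∫⁻ u, Φ (k j) (u, q) ∂μ1) atTop (𝓝 0)) ∧
      (∀ᵐ q ∂(μ1.prod ν), Tendsto (fun j => ∫⁻ t, Φ (k j) (q.1, t, q.2) ∂μ2) atTop (𝓝 0)) := by
  obtain ⟨k, hk, hsum⟩ := exists_summable_subseq h
  refine ⟨k, hk, ?_, ?_⟩
  · -- lines in the first direction
    have e : ∀ j, ∫⁻ p, Φ (k j) p ∂(μ1.prod (μ2.prod ν)) =
        ∫⁻ q, ∫⁻ u, Φ (k j) (u, q) ∂μ1 ∂(μ2.prod ν) := fun j =>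
      lintegral_prod_symm _ (hΦ (k j))
    have hm : ∀ j, AEMeasurable (fun q => ∫⁻ u, Φ (k j) (u, q) ∂μ1) (μ2.prod ν) := fun j =>
      (hΦ (k j)).prod_swap.lintegral_prod_right'
    have h1 : ∫⁻ q, ∑' j, ∫⁻ u, Φ (k j) (u, q) ∂μ1 ∂(μ2.prod ν) ≠ ∞ := by
      rw [lintegral_tsum hm]
      simpa only [← e] using hsum
    have h2 := ae_lt_top' (AEMeasurable.tsum hm) h1
    filter_upwards [h2] with q hq
    exact tendsto_zero_of_tsum_ne_top hq.ne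
  · -- lines in the second direction
    have hswap : MeasurePreserving (fun p : (ℝ × Y) × ℝ => (p.1.1, (p.2, p.1.2)))
        ((μ1.prod ν).prod μ2) (μ1.prod (μ2.prod ν)) := by
      have a1 : MeasurePreserving (MeasurableEquiv.prodAssoc : (ℝ × Y) × ℝ ≃ᵐ ℝ × (Y × ℝ))
          ((μ1.prod ν).prod μ2) (μ1.prod (ν.prod μ2)) := measurePreserving_prodAssoc μ1 ν μ2
      have a2 : MeasurePreserving (Prod.map id Prod.swap : ℝ × (Y × ℝ) → ℝ × (ℝ × Y))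
          (μ1.prod (ν.prod μ2)) (μ1.prod (μ2.prod ν)) :=
        (MeasurePreserving.id μ1).prod Measure.measurePreserving_swap
      exact a2.comp a1
    have hm0 : ∀ j, AEMeasurable (fun p : (ℝ × Y) × ℝ => Φ (k j) (p.1.1, (p.2, p.1.2)))
        ((μ1.prod ν).prod μ2) := fun j => (hΦ (k j)).comp_quasiMeasurePreserving
          hswap.quasiMeasurePreserving
    have e : ∀ j, ∫⁻ p, Φ (k j) p ∂(μ1.prod (μ2.prod ν)) =
        ∫⁻ q, ∫⁻ t, Φ (k j) (q.1, t, q.2) ∂μ2 ∂(μ1.prod ν) := by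
      intro j
      rw [← hswap.map_eq, lintegral_map' (by rw [hswap.map_eq]; exact hΦ (k j))
        hswap.measurable.aemeasurable, lintegral_prod _ (hm0 j)]
    have hm : ∀ j, AEMeasurable (fun q : ℝ × Y => ∫⁻ t, Φ (k j) (q.1, t, q.2) ∂μ2)
        (μ1.prod ν) := fun j => (hm0 j).lintegral_prod_right'
    have h1 : ∫⁻ q, ∑' j, ∫⁻ t, Φ (k j) (q.1, t, q.2) ∂μ2 ∂(μ1.prod ν) ≠ ∞ := by
      rw [lintegral_tsum hm]
      simpa only [← e] using hsum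
    have h2 := ae_lt_top' (AEMeasurable.tsum hm) h1
    filter_upwards [h2] with q hq
    exact tendsto_zero_of_tsum_ne_top hq.ne

/-- selection of a rectangle with four good sides -/
theorem exists_rectangle {μ1 : Measure ℝ} {μ2 : Measure ℝ} {ν : Measure Y} [SFinite μ1]
    [SFinite μ2] [SFinite ν] {P : ℝ × Y → Prop} {Q : ℝ × Y → Prop}
    (hP : ∀ᵐ q ∂(μ2.prod ν), P q) (hQ : ∀ᵐ q ∂(μ1.prod ν), Q q) {A : Set (ℝ × Y)}
    (hA : MeasurableSet A) (hApos : (μ2.prod ν) A ≠ 0) {Ia Ib Jd : Set ℝ} (ha : μ1 Ia ≠ 0)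
    (hb : μ1 Ib ≠ 0) (hd : μ2 Jd ≠ 0) :
    ∃ y : Y, ∃ c d a b : ℝ, (c, y) ∈ A ∧ d ∈ Jd ∧ a ∈ Ia ∧ b ∈ Ib ∧ P (c, y) ∧ P (d, y) ∧
      Q (a, y) ∧ Q (b, y) := by
  have hP' : ∀ᵐ y ∂ν, ∀ᵐ t ∂μ2, P (t, y) := by
    have h1 := (Measure.measurePreserving_swap (μ := ν) (ν := μ2)).quasiMeasurePreserving.ae hP
    exact Measure.ae_ae_of_ae_prod h1
  have hQ' : ∀ᵐ y ∂ν, ∀ᵐ t ∂μ1, Q (t, y) := by
    have h1 := (Measure.measurePreserving_swap (μ := ν) (ν := μ1)).quasiMeasurePreserving.ae hQ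
    exact Measure.ae_ae_of_ae_prod h1
  have hA' : ∃ᵐ y ∂ν, μ2 ((fun t => (t, y)) ⁻¹' A) ≠ 0 := by
    rw [Filter.Frequently]
    intro hcon
    apply hApos
    rw [Measure.prod_apply_symm hA, lintegral_eq_zero_iff (measurable_measure_prodMk_right hA)]
    filter_upwards [hcon] with y hy
    simpa using hy
  obtain ⟨y, hy, hy1, hy2⟩ := (hA'.and_eventually (hP'.and hQ')).exists
  have hex : ∀ {μ : Measure ℝ} {S : Set ℝ} {R : ℝ → Prop}, μ S ≠ 0 → (∀ᵐ t ∂μ, R t) →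
      ∃ t ∈ S, R t := by
    intro μ S R hS hR
    by_contra hcon
    push Not at hcon
    exact hS (measure_mono_null (fun t ht => hcon t ht) hR)
  obtain ⟨c, hc, hPc⟩ := hex hy hy1
  obtain ⟨d, hd', hPd⟩ := hex hd hy1
  obtain ⟨a, ha', hQa⟩ := hex ha hy2
  obtain ⟨b, hb', hQb⟩ := hex hb hy2
  exact ⟨y, c, d, a, b, hc, hd', ha', hb', hPc, hPd, hQa, hQb⟩

end Pool.Agent.H93.Nine
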