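import Mathlib
import Pool.Agent.H93.Nine.Cliff

/-!
The projector of a frame.
-/

namespace Pool.Agent.H93.Nine

open Finset

variable {n : ℕ}

/-- the involution attached to a frame vector -/
noncomputable def inv1 (b : Fin n → EE n) (i : Fin n) : WW n →L[ℝ] WW n := lv (b i) * opR i

/-- half sum -/
noncomputable def hlf (b : Fin n → EE n) (i : Fin n) : WW n →L[ℝ] WW n :=
  (1 / 2 : ℝ) • (1 + inv1 b i)

/-- product of the half sums along a list -/
noncomputable def prL (b : Fin n → EE n) (l : List (Fin n)) : WW n →L[ℝ] WW n :=
  (l.map (hlf b)).prod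

/-- the projector -/
noncomputable def prF (b : Fin n → EE n) : WW n →L[ℝ] WW n := prL b (List.finRange n)

theorem inv1_sq {b : Fin n → EE n} (hb : Orthonormal ℝ b) (i : Fin n) :
    inv1 b i * inv1 b i = 1 := by
  unfold inv1
  rw [mul_assoc, ← mul_assoc (opR i), ← lv_opR, mul_assoc, opR_sq, mul_one, lv_sq (hb.1 i)]

theorem nmul (A B : WW n →L[ℝ] WW n) : -A * B = -(A * B) := rfl

theorem muln (A B : WW n →L[ℝ] WW n) : A * -B = -(A * B) := by
  ext1 f
  exact map_neg A (B f)

theorem nneg (A : WW n →L[ℝ] WW n) : -(-A) = A := by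
  ext1 f
  exact neg_neg (A f)

theorem inv1_comm {b : Fin n → EE n} (hb : Orthonormal ℝ b) (i j : Fin n) :
    inv1 b i * inv1 b j = inv1 b j * inv1 b i := by
  by_cases h : i = j
  · rw [h]
  unfold inv1
  have h1 : lv (b i) * opR i * (lv (b j) * opR j) = lv (b i) * lv (b j) * (opR i * opR j) := by
    rw [mul_assoc, ← mul_assoc (opR i), ← lv_opR]; simp only [mul_assoc]
  have h2 : lv (b j) * opR j * (lv (b i) * opR i) = lv (b j) * lv (b i) * (opR j * opR i) := by
    rw [mul_assoc, ← mul_assoc (opR j), ← lv_opR]; simp only [mul_assoc]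
  rw [h1, h2, lv_anti (hb.2 h), opR_anti h, nmul, muln, nneg]

theorem inv1_hlf {b : Fin n → EE n} (hb : Orthonormal ℝ b) (i j : Fin n) :
    inv1 b i * hlf b j = hlf b j * inv1 b i := by
  unfold hlf
  rw [mul_smul_comm, smul_mul_assoc, mul_add, add_mul, mul_one, one_mul, inv1_comm hb]

theorem inv1_hlf_self {b : Fin n → EE n} (hb : Orthonormal ℝ b) (i : Fin n) :
    inv1 b i * hlf b i = hlf b i := by
  unfold hlf
  rw [mul_smul_comm, mul_add, mul_one, inv1_sq hb, add_comm]

theorem inv1_prL {b : Fin n → EE n} (hb : Orthonormal ℝ b) (i : Fin n) :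
    ∀ l : List (Fin n), i ∈ l → inv1 b i * prL b l = prL b l := by
  intro l
  induction l with
  | nil => intro h; simp at h
  | cons j l ih =>
    intro h
    have e : prL b (j :: l) = hlf b j * prL b l := by simp [prL]
    rw [e]
    by_cases hj : i = j
    · rw [← hj, ← mul_assoc, inv1_hlf_self hb]
    · rw [← mul_assoc, inv1_hlf hb, mul_assoc, ih ((List.mem_cons.1 h).resolve_left hj)]

theorem prL_apply_of {b : Fin n → EE n} {v : WW n} (hv : ∀ i, inv1 b i v = v) :
    ∀ l : List (Fin n), prL b l v = v := by
  intro l
  induction l with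
  | nil => simp [prL]
  | cons j l ih =>
    have e : prL b (j :: l) = hlf b j * prL b l := by simp [prL]
    rw [e]
    change hlf b j (prL b l v) = v
    rw [ih]
    change (1 / 2 : ℝ) • (v + inv1 b j v) = v
    rw [hv, ← two_smul ℝ v, smul_smul]; norm_num

/-- the projector fixes its values -/
theorem prF_prF {b : Fin n → EE n} (hb : Orthonormal ℝ b) (v : WW n) :
    prF b (prF b v) = prF b v := by
  refine prL_apply_of (fun i => ?_) _
  have h := inv1_prL hb i (List.finRange n) (List.mem_finRange i)
  exact congrArg (fun T : WW n →L[ℝ] WW n => T v) h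

/-- even functions -/
def Even1 (v : WW n) : Prop := opG n v = v

theorem opG_inv1 (b : Fin n → EE n) (i : Fin n) : opG n * inv1 b i = inv1 b i * opG n := by
  have h1 : opG n * opR i = - (opR i * opG n) := opG_opS _ _
  unfold inv1
  calc opG n * (lv (b i) * opR i) = - (lv (b i) * opG n) * opR i := by rw [← mul_assoc, opG_lv]
    _ = - (lv (b i) * (opG n * opR i)) := by rw [← mul_assoc]; exact nmul _ _
    _ = lv (b i) * opR i * opG n := by
      rw [h1, mul_assoc]
      rw [muln, nneg]

theorem opG_prL (b : Fin n → EE n) : ∀ l : List (Fin n), opG n * prL b l = prL b l * opG n := by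
  intro l
  induction l with
  | nil => simp [prL]
  | cons j l ih =>
    have e : prL b (j :: l) = hlf b j * prL b l := by simp [prL]
    have e2 : opG n * hlf b j = hlf b j * opG n := by
      unfold hlf
      rw [mul_smul_comm, smul_mul_assoc, mul_add, add_mul, mul_one, one_mul, opG_inv1]
    rw [e, ← mul_assoc, e2, mul_assoc, ih, mul_assoc]

theorem even_prF (b : Fin n → EE n) {v : WW n} (hv : Even1 v) : Even1 (prF b v) := by
  have h := opG_prL b (List.finRange n)
  have h2 : opG n (prF b v) = prF b (opG n v) :=
    congrArg (fun T : WW n →L[ℝ] WW n => T v) h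
  rw [Even1, h2, hv]

/-- the vacuum -/
noncomputable def vac (n : ℕ) : WW n := Pi.single (fun _ => false) 1

theorem even_vac : Even1 (vac n) := by
  ext x
  rw [opG_apply, vac]
  by_cases hx : x = fun _ => false
  · subst hx; simp [sS_zero]
  · simp [hx]

theorem vac_zero : vac n (fun _ => false) = 1 := by simp [vac]

theorem norm_vac : ‖vac n‖ = 1 := by
  apply le_antisymm
  · rw [pi_norm_le_iff_of_nonneg zero_le_one]
    intro x
    by_cases hx : x = fun _ => false
    · subst hx; simp [vac]
    · simp [vac, hx]
  · have := norm_le_pi_norm (vac n) (fun _ => false)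
    rwa [vac_zero, norm_one] at this

/-- the standard frame -/
noncomputable def std (n : ℕ) (i : Fin n) : EE n := EuclideanSpace.single i 1

theorem inv1_std_apply (i : Fin n) {v : WW n} (hv : Even1 v) (x : Fin n → Bool) :
    inv1 (std n) i v x = sg (x i) * v x := by
  have h1 : inv1 (std n) i v = (opL i * opR i) v := by
    unfold inv1 std; rw [lv_single]
  rw [h1, opL, opR, opS_mul_apply, flp_flp]
  have h2 : v x = sS univ x * v x := by
    conv_lhs => rw [← hv]
    rfl
  rw [if_neg (by simp)]
  have h3 : sS univ x = sS (univ.filter (· < i)) x * sS (univ.filter (i < ·)) x * sg (x i) := by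
    have e : (univ : Finset (Fin n)) = insert i (univ.filter (· < i) ∪ univ.filter (i < ·)) := by
      ext j
      simp only [mem_univ, mem_insert, mem_union, mem_filter, true_and, true_iff]
      rcases lt_trichotomy j i with h | h | h
      · exact Or.inr (Or.inl h)
      · exact Or.inl h
      · exact Or.inr (Or.inr h)
    unfold sS
    have e3 : ∏ j : Fin n, sg (x j) =
        sg (x i) * ∏ j ∈ (univ.filter (· < i) ∪ univ.filter (i < ·)), sg (x j) := by
      conv_lhs => rw [e]
      exact prod_insert (by simp)
    rw [e3, prod_union]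
    · ring
    · rw [disjoint_left]
      intro j hj hj'
      simp only [mem_filter, mem_univ, true_and] at hj hj'
      exact absurd hj hj'.not_gt
  have h4 : sS (univ.filter (· < i)) x * sS (univ.filter (i < ·)) x = sS univ x * sg (x i) := by
    rw [h3, mul_assoc, sg_mul_self, mul_one]
  rw [h4, mul_right_comm, ← h2, mul_comm]

/-- the projector of the standard frame on even functions -/
theorem prF_std {v : WW n} (hv : Even1 v) : prF (std n) v = v (fun _ => false) • vac n := by
  have key : ∀ l : List (Fin n), Even1 (prL (std n) l v) ∧ ∀ x, prL (std n) l v x =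
      if ∀ i ∈ l, x i = false then v x else 0 := by
    intro l
    induction l with
    | nil => exact ⟨by simpa [prL] using hv, fun x => by simp [prL]⟩
    | cons j l ih =>
      have e : prL (std n) (j :: l) = hlf (std n) j * prL (std n) l := by simp [prL]
      refine ⟨?_, fun x => ?_⟩
      · have h := opG_prL (std n) (j :: l)
        have h2 : opG n (prL (std n) (j :: l) v) = prL (std n) (j :: l) (opG n v) :=
          congrArg (fun T : WW n →L[ℝ] WW n => T v) h
        rw [Even1, h2, hv]
      · rw [e]
        change (1 / 2 : ℝ) * (prL (std n) l v x + inv1 (std n) j (prL (std n) l v) x) = _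
        rw [inv1_std_apply j ih.1, ih.2]
        by_cases h1 : x j = false
        · have h3 : (∀ i ∈ j :: l, x i = false) ↔ ∀ i ∈ l, x i = false := by
            simp [h1]
          simp only [h3, h1, sg]
          split_ifs <;> simp_all <;> ring
        · have h2 : x j = true := by simpa using h1
          have h3 : ¬ ∀ i ∈ j :: l, x i = false := fun h => h1 (h j (by simp))
          rw [if_neg h3, h2]
          simp only [sg, if_true]
          ring
  ext x
  unfold prF
  rw [(key _).2 x, Pi.smul_apply, vac, smul_eq_mul]
  by_cases hx : x = fun _ => false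
  · subst hx; simp
  · rw [if_neg, Pi.single_eq_of_ne hx, mul_zero]
    intro h
    exact hx (funext fun i => h i (List.mem_finRange i))

end Pool.Agent.H93.Nine
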