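import Mathlib
import Pool.Agent.H93.Nine.Frame

/-!
The projectors along the rotation loop.
-/

namespace Pool.Agent.H93.Nine

open Finset Real

variable {m : ℕ}

/-- the product of the two first left multiplications -/
noncomputable def opJ (m : ℕ) : WW (m + 2) →L[ℝ] WW (m + 2) := opL 0 * opL 1

/-- the half angle rotation -/
noncomputable def opX (m : ℕ) (ψ : ℝ) : WW (m + 2) →L[ℝ] WW (m + 2) :=
  cos ψ • 1 - sin ψ • opJ m

/-- the rotated frame -/
noncomputable def rotF (m : ℕ) (θ : ℝ) (i : Fin (m + 2)) : EE (m + 2) :=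
  if i = 0 then cos θ • std (m + 2) 0 + sin θ • std (m + 2) 1
  else if i = 1 then - sin θ • std (m + 2) 0 + cos θ • std (m + 2) 1
  else std (m + 2) i

theorem zero_ne_one' : (0 : Fin (m + 2)) ≠ 1 := by
  simp

theorem op01 : (opL 0 : WW (m + 2) →L[ℝ] WW (m + 2)) * opL 1 = - (opL 1 * opL 0) :=
  opL_anti zero_ne_one'

theorem lv_std (i : Fin (m + 2)) : lv (std (m + 2) i) = opL i := lv_single i

theorem op10 : (opL 1 : WW (m + 2) →L[ℝ] WW (m + 2)) * opL 0 = - (opL 0 * opL 1) := by
  rw [op01, nneg]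

theorem opJ_sq : opJ m * opJ m = -1 := by
  unfold opJ
  calc opL 0 * opL 1 * (opL 0 * opL 1) = opL 0 * (opL 1 * opL 0) * opL 1 := by
        simp only [mul_assoc]
    _ = -(opL 0 * opL 0 * (opL 1 * opL 1)) := by
      rw [op10, muln, nmul]; simp only [mul_assoc]
    _ = -1 := by rw [opL_sq, opL_sq, mul_one]

theorem opX_mul (a b : ℝ) : opX m a * opX m b = opX m (a + b) := by
  unfold opX
  rw [mul_sub, sub_mul, sub_mul, smul_mul_smul_comm, smul_mul_smul_comm, smul_mul_smul_comm,
    smul_mul_smul_comm, opJ_sq, mul_one, mul_one, one_mul, cos_add, sin_add]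
  module

theorem opX_zero : opX m 0 = 1 := by simp [opX]

theorem opJ_opL_zero : opJ m * opL 0 = - opL 1 := by
  unfold opJ
  rw [mul_assoc, op10, muln, ← mul_assoc, opL_sq, one_mul]

theorem opJ_opL_one : opJ m * opL 1 = opL 0 := by
  unfold opJ
  rw [mul_assoc, opL_sq, mul_one]

theorem opL_zero_opJ : opL 0 * opJ m = opL 1 := by
  unfold opJ
  rw [← mul_assoc, opL_sq, one_mul]

theorem opL_one_opJ : opL 1 * opJ m = - opL 0 := by
  unfold opJ
  rw [← mul_assoc, op10, nmul, mul_assoc, opL_sq, mul_one]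

theorem opL_opJ {i : Fin (m + 2)} (h0 : i ≠ 0) (h1 : i ≠ 1) : opL i * opJ m = opJ m * opL i := by
  unfold opJ
  rw [← mul_assoc, opL_anti h0, nmul, mul_assoc, opL_anti h1, muln, nneg, mul_assoc]

theorem lv_rotF (ψ : ℝ) (i : Fin (m + 2)) :
    lv (rotF m (2 * ψ) i) * opX m ψ = opX m ψ * opL i := by
  have hc : cos (2 * ψ) * cos ψ + sin (2 * ψ) * sin ψ = cos ψ := by
    rw [← cos_sub]; congr 1; ring
  have hs : sin (2 * ψ) * cos ψ - cos (2 * ψ) * sin ψ = sin ψ := by
    rw [← sin_sub]; congr 1; ring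
  by_cases h0 : i = 0
  · subst h0
    have e : rotF m (2 * ψ) 0 = cos (2 * ψ) • std (m + 2) 0 + sin (2 * ψ) • std (m + 2) 1 := by
      simp [rotF]
    rw [e, lv_add, lv_smul, lv_smul, lv_std, lv_std]
    unfold opX
    rw [mul_sub, add_mul, add_mul, sub_mul, smul_mul_smul_comm, smul_mul_smul_comm,
      smul_mul_smul_comm, smul_mul_smul_comm, opL_zero_opJ, opL_one_opJ, smul_mul_assoc,
      smul_mul_assoc, opJ_opL_zero, mul_one, mul_one, one_mul]
    match_scalars <;>
      first | linear_combination hc | linear_combination hs | linear_combination - hs |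
        linear_combination - hc
  by_cases h1 : i = 1
  · subst h1
    have e : rotF m (2 * ψ) 1 =
        (- sin (2 * ψ)) • std (m + 2) 0 + cos (2 * ψ) • std (m + 2) 1 := by
      simp [rotF]
    rw [e, lv_add, lv_smul, lv_smul, lv_std, lv_std]
    unfold opX
    rw [mul_sub, add_mul, add_mul, sub_mul, smul_mul_smul_comm, smul_mul_smul_comm,
      smul_mul_smul_comm, smul_mul_smul_comm, opL_zero_opJ, opL_one_opJ, smul_mul_assoc,
      smul_mul_assoc, opJ_opL_one, mul_one, mul_one, one_mul]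
    match_scalars <;>
      first | linear_combination hc | linear_combination hs | linear_combination - hs |
        linear_combination - hc
  · have e : rotF m (2 * ψ) i = std (m + 2) i := by
      simp [rotF, h0, h1]
    rw [e, lv_std]
    unfold opX
    rw [mul_sub, sub_mul, mul_smul_comm, mul_smul_comm, smul_mul_assoc, smul_mul_assoc,
      opL_opJ h0 h1, mul_one, one_mul]

theorem opX_opR (ψ : ℝ) (i : Fin (m + 2)) : opX m ψ * opR i = opR i * opX m ψ := by
  unfold opX opJ
  rw [mul_sub, sub_mul, mul_smul_comm, mul_smul_comm, smul_mul_assoc, smul_mul_assoc,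
    mul_one, one_mul, mul_assoc, opL_opR, ← mul_assoc, opL_opR, mul_assoc]

theorem inv1_rotF (ψ : ℝ) (i : Fin (m + 2)) :
    inv1 (rotF m (2 * ψ)) i * opX m ψ = opX m ψ * inv1 (std (m + 2)) i := by
  unfold inv1
  rw [mul_assoc, ← opX_opR, ← mul_assoc, lv_rotF, lv_std, mul_assoc]

theorem prL_rotF (ψ : ℝ) : ∀ l : List (Fin (m + 2)),
    prL (rotF m (2 * ψ)) l * opX m ψ = opX m ψ * prL (std (m + 2)) l := by
  intro l
  induction l with
  | nil => simp [prL]
  | cons j l ih =>
    have e : ∀ b : Fin (m + 2) → EE (m + 2), prL b (j :: l) = hlf b j * prL b l := by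
      intro b; simp [prL]
    have e2 : hlf (rotF m (2 * ψ)) j * opX m ψ = opX m ψ * hlf (std (m + 2)) j := by
      unfold hlf
      rw [mul_smul_comm, smul_mul_assoc, mul_add, add_mul, mul_one, one_mul, inv1_rotF]
    rw [e, e, mul_assoc, ih, ← mul_assoc, e2, mul_assoc]

theorem opG_opX (ψ : ℝ) : opG (m + 2) * opX m ψ = opX m ψ * opG (m + 2) := by
  have h : opG (m + 2) * opJ m = opJ m * opG (m + 2) := by
    unfold opJ
    rw [← mul_assoc]
    conv_lhs => rw [opL, opG_opS, nmul, mul_assoc, opL, opG_opS, muln, nneg, ← mul_assoc]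
    rfl
  unfold opX
  rw [mul_sub, sub_mul, mul_smul_comm, mul_smul_comm, smul_mul_assoc, smul_mul_assoc, h,
    mul_one, one_mul]

theorem even_opX (ψ : ℝ) {v : WW (m + 2)} (hv : Even1 v) : Even1 (opX m ψ v) := by
  have h2 : opG (m + 2) (opX m ψ v) = opX m ψ (opG (m + 2) v) :=
    congrArg (fun T : WW (m + 2) →L[ℝ] WW (m + 2) => T v) (opG_opX ψ)
  rw [Even1, h2, hv]

/-- the projectors along the rotation loop -/
theorem prF_rotF (ψ : ℝ) {v : WW (m + 2)} (hv : Even1 v) :
    prF (rotF m (2 * ψ)) v = (opX m (-ψ) v) (fun _ => false) • opX m ψ (vac (m + 2)) := by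
  have h1 : v = opX m ψ (opX m (-ψ) v) := by
    have : opX m ψ * opX m (-ψ) = 1 := by rw [opX_mul, add_neg_cancel, opX_zero]
    have h := congrArg (fun T : WW (m + 2) →L[ℝ] WW (m + 2) => T v) this
    exact h.symm
  have h2 : prF (rotF m (2 * ψ)) (opX m ψ (opX m (-ψ) v)) =
      opX m ψ (prF (std (m + 2)) (opX m (-ψ) v)) :=
    congrArg (fun T : WW (m + 2) →L[ℝ] WW (m + 2) => T (opX m (-ψ) v)) (prL_rotF ψ _)
  conv_lhs => rw [h1, h2, prF_std (even_opX _ hv)]
  exact map_smul _ _ _

theorem opX_vac_zero (ψ : ℝ) : opX m ψ (vac (m + 2)) (fun _ => false) = cos ψ := by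
  have h : opJ m (vac (m + 2)) (fun _ => false) = 0 := by
    change opL 0 (opL 1 (vac (m + 2))) (fun _ => false) = 0
    rw [opL, opS_apply, opL, opS_apply, vac, Pi.single_eq_of_ne, mul_zero, mul_zero]
    intro h
    have h1 := congrFun h 1
    simp [flp] at h1
  change cos ψ * vac (m + 2) (fun _ => false) - sin ψ * opJ m (vac (m + 2)) (fun _ => false) = _
  rw [h, vac_zero]; ring

theorem opX_pi : opX m π (vac (m + 2)) = - vac (m + 2) := by
  unfold opX
  rw [cos_pi, sin_pi, zero_smul, sub_zero]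
  exact neg_one_smul ℝ (vac (m + 2))

end Pool.Agent.H93.Nine
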