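import Mathlib
import Pool.Agent.H93.Nine.RotF

/-!
The Gram-Schmidt frame of an invertible matrix and the projector of an invertible matrix.
-/

namespace Pool.Agent.H93.Nine

open Finset Real InnerProductSpace

variable {n : ℕ}

theorem gramSchmidt_formula {ι : Type*} [LinearOrder ι] [LocallyFiniteOrderBot ι]
    [WellFoundedLT ι] {E : Type*} [NormedAddCommGroup E] [InnerProductSpace ℝ E]
    (f : ι → E) (i : ι) :
    gramSchmidt ℝ f i = f i - ∑ j ∈ Iio i,
      (inner ℝ (gramSchmidt ℝ f j) (f i) / ‖gramSchmidt ℝ f j‖ ^ 2) • gramSchmidt ℝ f j := by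
  rw [gramSchmidt_def]
  congr 1
  refine sum_congr rfl fun j _ => ?_
  rw [Submodule.starProjection_singleton]
  simp

theorem continuousOn_gramSchmidt (i : Fin n) :
    ContinuousOn (fun f : Fin n → EE n => gramSchmidt ℝ f i)
      {f | LinearIndependent ℝ f} := by
  induction i using WellFoundedLT.induction with
  | ind i ih =>
    have h : (fun f : Fin n → EE n => gramSchmidt ℝ f i) = fun f => f i - ∑ j ∈ Iio i,
      (inner ℝ (gramSchmidt ℝ f j) (f i) / ‖gramSchmidt ℝ f j‖ ^ 2) • gramSchmidt ℝ f j := by
      funext f; exact gramSchmidt_formula f i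
    rw [h]
    have hi : ContinuousOn (fun f : Fin n → EE n => f i) {f | LinearIndependent ℝ f} :=
      (continuous_apply i).continuousOn
    refine hi.sub (continuousOn_finsetSum _ fun j hj => ?_)
    have hj' := ih j (mem_Iio.1 hj)
    refine ContinuousOn.smul (ContinuousOn.div (hj'.inner hi) (hj'.norm.pow 2) fun f hf => ?_) hj'
    exact pow_ne_zero _ (norm_ne_zero_iff.2 (gramSchmidt_ne_zero j hf))

theorem continuousOn_gramSchmidtNormed (i : Fin n) :
    ContinuousOn (fun f : Fin n → EE n => gramSchmidtNormed ℝ f i)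
      {f | LinearIndependent ℝ f} := by
  unfold gramSchmidtNormed
  have h := continuousOn_gramSchmidt i
  refine ContinuousOn.smul (ContinuousOn.inv₀ (h.norm) fun f hf => ?_) h
  exact norm_ne_zero_iff.2 (gramSchmidt_ne_zero i hf)

/-- the columns of a matrix -/
noncomputable def cols (B : EE n →L[ℝ] EE n) (i : Fin n) : EE n := B (std n i)

/-- the Gram-Schmidt frame -/
noncomputable def fr (B : EE n →L[ℝ] EE n) : Fin n → EE n := gramSchmidtNormed ℝ (cols B)

theorem continuous_cols : Continuous (cols : (EE n →L[ℝ] EE n) → Fin n → EE n) := by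
  refine continuous_pi fun i => ?_
  exact (ContinuousLinearMap.apply ℝ (EE n) (std n i)).continuous

theorem std_eq (n : ℕ) : std n = ⇑(EuclideanSpace.basisFun (Fin n) ℝ) := by
  funext i
  rw [EuclideanSpace.basisFun_apply]; rfl

theorem orthonormal_std (n : ℕ) : Orthonormal ℝ (std n) := by
  rw [std_eq]; exact (EuclideanSpace.basisFun (Fin n) ℝ).orthonormal

theorem linearIndependent_cols {B : EE n →L[ℝ] EE n} (hB : Function.Injective B) :
    LinearIndependent ℝ (cols B) := by
  have h : LinearIndependent ℝ (std n) := (orthonormal_std n).linearIndependent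
  exact h.map' (B : EE n →ₗ[ℝ] EE n) (LinearMap.ker_eq_bot.2 hB)

theorem orthonormal_fr {B : EE n →L[ℝ] EE n} (hB : Function.Injective B) :
    Orthonormal ℝ (fr B) := gramSchmidtNormed_orthonormal (linearIndependent_cols hB)

theorem continuousOn_fr : ContinuousOn (fr : (EE n →L[ℝ] EE n) → Fin n → EE n)
    {B | Function.Injective B} := by
  refine continuousOn_pi.2 fun i => ?_
  exact (continuousOn_gramSchmidtNormed i).comp continuous_cols.continuousOn
    fun B hB => linearIndependent_cols hB

theorem fr_of_orthonormal {B : EE n →L[ℝ] EE n} (hB : Orthonormal ℝ (cols B)) :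
    fr B = cols B := by
  funext i
  unfold fr gramSchmidtNormed
  rw [gramSchmidt_of_orthogonal ℝ fun i j hij => hB.2 hij]
  simp [hB.1 i]

theorem continuous_prL (l : List (Fin n)) :
    Continuous fun b : Fin n → EE n => prL b l := by
  induction l with
  | nil => exact continuous_const
  | cons j l ih =>
    have e : (fun b : Fin n → EE n => prL b (j :: l)) = fun b => hlf b j * prL b l := by
      funext b; simp [prL]
    rw [e]
    refine Continuous.mul ?_ ih
    unfold hlf inv1
    have h1 : Continuous fun b : Fin n → EE n => lv (b j) := continuous_lv.comp (continuous_apply j)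
    exact Continuous.const_smul (continuous_const.add (h1.mul continuous_const)) (1 / 2 : ℝ)

/-- the projector of an invertible matrix -/
noncomputable def PB (B : EE n →L[ℝ] EE n) : WW n →L[ℝ] WW n := prF (fr B)

theorem continuousOn_PB : ContinuousOn (PB : (EE n →L[ℝ] EE n) → WW n →L[ℝ] WW n)
    {B | Function.Injective B} :=
  (continuous_prL (List.finRange n)).comp_continuousOn continuousOn_fr

theorem PB_PB {B : EE n →L[ℝ] EE n} (hB : Function.Injective B) (v : WW n) :
    PB B (PB B v) = PB B v := prF_prF (orthonormal_fr hB) v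

theorem even_PB (B : EE n →L[ℝ] EE n) {v : WW n} (hv : Even1 v) : Even1 (PB B v) :=
  even_prF _ hv

theorem cols_id : cols (ContinuousLinearMap.id ℝ (EE n)) = std n := rfl

theorem PB_id {v : WW n} (hv : Even1 v) :
    PB (ContinuousLinearMap.id ℝ (EE n)) v = v (fun _ => false) • vac n := by
  unfold PB
  rw [fr_of_orthonormal (by rw [cols_id]; exact orthonormal_std n), cols_id, prF_std hv]

/-- `PB` is close to `PB id` near the identity -/
theorem exists_near_id (n : ℕ) : ∃ ε > 0, ∀ B : EE n →L[ℝ] EE n,
    ‖B - ContinuousLinearMap.id ℝ (EE n)‖ < ε →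
      Function.Injective B ∧ ‖PB B - PB (ContinuousLinearMap.id ℝ (EE n))‖ ≤ 1 / 8 := by
  have hinj : ∀ B : EE n →L[ℝ] EE n, ‖B - ContinuousLinearMap.id ℝ (EE n)‖ < 1 →
      Function.Injective B := by
    intro B hB
    refine (injective_iff_map_eq_zero B).2 fun x hx => ?_
    by_contra hne
    have h1 : ‖(B - ContinuousLinearMap.id ℝ (EE n)) x‖ ≤
        ‖B - ContinuousLinearMap.id ℝ (EE n)‖ * ‖x‖ := ContinuousLinearMap.le_opNorm _ _
    have h2 : (B - ContinuousLinearMap.id ℝ (EE n)) x = - x := by simp [hx]
    rw [h2, norm_neg] at h1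
    have h3 : 0 < ‖x‖ := norm_pos_iff.2 hne
    nlinarith
  have hc : ContinuousAt (PB : (EE n →L[ℝ] EE n) → WW n →L[ℝ] WW n)
      (ContinuousLinearMap.id ℝ (EE n)) := by
    refine continuousOn_PB.continuousAt ?_
    filter_upwards [Metric.ball_mem_nhds (ContinuousLinearMap.id ℝ (EE n)) one_pos] with B hB
    exact hinj B (by simpa [dist_eq_norm] using hB)
  obtain ⟨ε, hε, h⟩ := Metric.continuousAt_iff.1 hc (1 / 8) (by norm_num)
  refine ⟨min ε 1, by positivity, fun B hB => ⟨hinj B (hB.trans_le (min_le_right _ _)), ?_⟩⟩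
  have := h (x := B) (by rw [dist_eq_norm]; exact hB.trans_le (min_le_left _ _))
  rw [dist_eq_norm] at this
  exact this.le

end Pool.Agent.H93.Nine
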