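import Mathlib
import Pool.Agent.H93.Nine.GS

/-!
Transport of the vacuum along a sequence of invertible matrices.
-/

set_option linter.unusedSimpArgs false

namespace Pool.Agent.H93.Nine

open Finset Real Set

variable {n m : ℕ}

/-- transport of the vacuum along a sequence of matrices -/
noncomputable def tau (B : ℕ → EE n →L[ℝ] EE n) : ℕ → WW n
  | 0 => PB (B 0) (vac n)
  | (j + 1) => PB (B (j + 1)) (tau B j)

theorem PB_tau {B : ℕ → EE n →L[ℝ] EE n} (hB : ∀ j, Function.Injective (B j)) (j : ℕ) :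
    PB (B j) (tau B j) = tau B j := by
  cases j with
  | zero => exact PB_PB (hB 0) _
  | succ j => exact PB_PB (hB (j + 1)) _

theorem even_tau (B : ℕ → EE n →L[ℝ] EE n) (j : ℕ) : Even1 (tau B j) := by
  induction j with
  | zero => exact even_PB _ even_vac
  | succ j ih => exact even_PB _ ih

theorem tau_sub {B : ℕ → EE n →L[ℝ] EE n} (hB : ∀ j, Function.Injective (B j)) (j : ℕ) :
    ‖tau B (j + 1) - tau B j‖ ≤ ‖PB (B (j + 1)) - PB (B j)‖ * ‖tau B j‖ := by
  have e : tau B (j + 1) - tau B j = (PB (B (j + 1)) - PB (B j)) (tau B j) := by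
    rw [sub_apply, PB_tau hB]; rfl
  rw [e]
  exact ContinuousLinearMap.le_opNorm _ _

theorem PB_id_vac : PB (ContinuousLinearMap.id ℝ (EE n)) (vac n) = vac n := by
  rw [PB_id even_vac, vac_zero, one_smul]

/-- distance from the vacuum line -/
theorem tau_near {B : ℕ → EE n →L[ℝ] EE n} (hB : ∀ j, Function.Injective (B j)) (j : ℕ) :
    ‖tau B j - tau B j (fun _ => false) • vac n‖ ≤
      ‖PB (B j) - PB (ContinuousLinearMap.id ℝ (EE n))‖ * ‖tau B j‖ := by
  have e : tau B j - tau B j (fun _ => false) • vac n =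
      (PB (B j) - PB (ContinuousLinearMap.id ℝ (EE n))) (tau B j) := by
    rw [sub_apply, PB_tau hB, PB_id (even_tau B j)]
  rw [e]
  exact ContinuousLinearMap.le_opNorm _ _

theorem tau_zero_ne {B : ℕ → EE n →L[ℝ] EE n}
    (h0 : ‖PB (B 0) - PB (ContinuousLinearMap.id ℝ (EE n))‖ ≤ 1 / 8) : tau B 0 ≠ 0 := by
  intro h
  have h1 : ‖(PB (B 0) - PB (ContinuousLinearMap.id ℝ (EE n))) (vac n)‖ ≤
      ‖PB (B 0) - PB (ContinuousLinearMap.id ℝ (EE n))‖ * ‖vac n‖ :=
    ContinuousLinearMap.le_opNorm _ _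
  have h2 : (PB (B 0) - PB (ContinuousLinearMap.id ℝ (EE n))) (vac n) = - vac n := by
    rw [sub_apply, PB_id_vac]
    change tau B 0 - vac n = _
    rw [h, zero_sub]
  rw [h2, norm_neg, norm_vac, mul_one] at h1
  linarith

theorem tau_ne {B : ℕ → EE n →L[ℝ] EE n} (hB : ∀ j, Function.Injective (B j))
    (h0 : ‖PB (B 0) - PB (ContinuousLinearMap.id ℝ (EE n))‖ ≤ 1 / 8)
    (hc : ∀ j, ‖PB (B (j + 1)) - PB (B j)‖ ≤ 1 / 4) (j : ℕ) : tau B j ≠ 0 := by
  induction j with
  | zero => exact tau_zero_ne h0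
  | succ j ih =>
    intro h
    have h1 := tau_sub hB j
    rw [h, zero_sub, norm_neg] at h1
    have h2 : 0 < ‖tau B j‖ := norm_pos_iff.2 ih
    nlinarith [hc j]

/-- non-vanishing of the vacuum coefficient -/
theorem coef_ne {B : ℕ → EE n →L[ℝ] EE n} (hB : ∀ j, Function.Injective (B j))
    (h0 : ‖PB (B 0) - PB (ContinuousLinearMap.id ℝ (EE n))‖ ≤ 1 / 8)
    (hc : ∀ j, ‖PB (B (j + 1)) - PB (B j)‖ ≤ 1 / 4) {N : ℕ}
    (hN : ‖PB (B N) - PB (ContinuousLinearMap.id ℝ (EE n))‖ ≤ 1 / 8) :
    tau B N (fun _ => false) ≠ 0 := by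
  intro h
  have h1 := tau_near hB N
  rw [h, zero_smul, sub_zero] at h1
  have h2 : 0 < ‖tau B N‖ := norm_pos_iff.2 (tau_ne hB h0 hc N)
  nlinarith

/-- positivity near the identity -/
theorem coef_pos {B : ℕ → EE n →L[ℝ] EE n} (hB : ∀ j, Function.Injective (B j))
    (h : ∀ j, ‖PB (B j) - PB (ContinuousLinearMap.id ℝ (EE n))‖ ≤ 1 / 8) (j : ℕ) :
    0 < tau B j (fun _ => false) := by
  induction j with
  | zero =>
    have h1 : ‖(PB (B 0) - PB (ContinuousLinearMap.id ℝ (EE n))) (vac n)‖ ≤
        ‖PB (B 0) - PB (ContinuousLinearMap.id ℝ (EE n))‖ * ‖vac n‖ :=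
      ContinuousLinearMap.le_opNorm _ _
    rw [norm_vac, mul_one] at h1
    have h2 := norm_le_pi_norm ((PB (B 0) - PB (ContinuousLinearMap.id ℝ (EE n))) (vac n))
      (fun _ => false)
    have h3 : (PB (B 0) - PB (ContinuousLinearMap.id ℝ (EE n))) (vac n) (fun _ => false) =
        tau B 0 (fun _ => false) - 1 := by
      rw [sub_apply, PB_id_vac, Pi.sub_apply, vac_zero]; rfl
    rw [h3, Real.norm_eq_abs] at h2
    have := abs_le.1 (h2.trans (h1.trans (h 0)))
    linarith
  | succ j ih =>
    set a := tau B j (fun _ => false) with ha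
    have h1 := tau_near hB j
    have h2 : ‖tau B j‖ ≤ ‖tau B j - a • vac n‖ + ‖a • vac n‖ := by
      simpa using norm_add_le (tau B j - a • vac n) (a • vac n)
    have h3 : ‖a • vac n‖ = a := by
      rw [norm_smul, norm_vac, mul_one, Real.norm_of_nonneg ih.le]
    have h4 : ‖tau B j‖ ≤ 8 / 7 * a := by
      have h5 := mul_le_mul_of_nonneg_right (h j) (norm_nonneg (tau B j))
      rw [h3] at h2
      linarith
    have h6 := tau_sub hB j
    have h7 : ‖PB (B (j + 1)) - PB (B j)‖ ≤ 1 / 4 := by
      have h8 : PB (B (j + 1)) - PB (B j) =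
          (PB (B (j + 1)) - PB (ContinuousLinearMap.id ℝ (EE n))) -
          (PB (B j) - PB (ContinuousLinearMap.id ℝ (EE n))) := by abel
      rw [h8]
      refine (norm_sub_le _ _).trans ?_
      linarith [h j, h (j + 1)]
    have h9 := norm_le_pi_norm (tau B (j + 1) - tau B j) (fun _ => false)
    rw [Pi.sub_apply, Real.norm_eq_abs] at h9
    have h10 := mul_le_mul_of_nonneg_right h7 (norm_nonneg (tau B j))
    have := (abs_le.1 (h9.trans h6)).1
    linarith

/-- the rotation of the plane of the first two basis vectors -/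
def IsRot (θ : ℝ) (B : EE (m + 2) →L[ℝ] EE (m + 2)) : Prop := cols B = rotF m θ

theorem rotF_orthonormal (θ : ℝ) : Orthonormal ℝ (rotF m θ) := by
  have h := orthonormal_iff_ite.1 (orthonormal_std (m + 2))
  rw [orthonormal_iff_ite]
  intro i j
  have h00 := h 0 0
  have h01 := h 0 1
  have h10 := h 1 0
  have h11 := h 1 1
  have n01 : (0 : Fin (m + 2)) ≠ 1 := zero_ne_one'
  simp only [if_true, n01, n01.symm, if_false] at h00 h01 h10 h11
  have hcs := Real.cos_sq_add_sin_sq θ
  by_cases i0 : i = 0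
  · subst i0
    by_cases j0 : j = 0
    · subst j0
      simp only [rotF, if_true, inner_add_left, inner_add_right, inner_smul_left,
        inner_smul_right, h00, h01, h10, h11]
      simp
      linarith
    by_cases j1 : j = 1
    · subst j1
      simp only [rotF, if_true, n01.symm, if_false, inner_add_left, inner_add_right,
        inner_smul_left, inner_smul_right, h00, h01, h10, h11]
      simp
      ring
    · have h0j := h 0 j
      have h1j := h 1 j
      rw [if_neg (Ne.symm j0)] at h0j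
      rw [if_neg (Ne.symm j1)] at h1j
      simp only [rotF, if_true, j0, j1, if_false, inner_add_left, inner_add_right,
        inner_smul_left, inner_smul_right, h0j, h1j]
      simp [Ne.symm j0]
  by_cases i1 : i = 1
  · subst i1
    by_cases j0 : j = 0
    · subst j0
      simp only [rotF, if_true, n01.symm, if_false, inner_add_left, inner_add_right,
        inner_smul_left, inner_smul_right, h00, h01, h10, h11]
      simp
      ring
    by_cases j1 : j = 1
    · subst j1
      simp only [rotF, if_true, n01.symm, if_false, inner_add_left, inner_add_right,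
        inner_smul_left, inner_smul_right, h00, h01, h10, h11]
      simp
      linarith
    · have h0j := h 0 j
      have h1j := h 1 j
      rw [if_neg (Ne.symm j0)] at h0j
      rw [if_neg (Ne.symm j1)] at h1j
      simp only [rotF, if_true, n01.symm, j0, j1, if_false, inner_add_left, inner_add_right,
        inner_smul_left, inner_smul_right, h0j, h1j]
      simp [Ne.symm j1]
  · by_cases j0 : j = 0
    · subst j0
      have h0j := h i 0
      have h1j := h i 1
      rw [if_neg i0] at h0j
      rw [if_neg i1] at h1j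
      simp only [rotF, if_true, i0, i1, if_false, inner_add_left, inner_add_right,
        inner_smul_left, inner_smul_right, h0j, h1j]
      simp
    by_cases j1 : j = 1
    · subst j1
      have h0j := h i 0
      have h1j := h i 1
      rw [if_neg i0] at h0j
      rw [if_neg i1] at h1j
      simp only [rotF, n01.symm, if_true, i0, i1, if_false, inner_add_left, inner_add_right,
        inner_smul_left, inner_smul_right, h0j, h1j]
      simp
    · simp only [rotF, i0, i1, j0, j1, if_false]
      exact h i j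

theorem PB_rot {θ : ℝ} {B : EE (m + 2) →L[ℝ] EE (m + 2)} (hB : IsRot θ B) {v : WW (m + 2)}
    (hv : Even1 v) :
    PB B v = (opX m (-(θ / 2)) v) (fun _ => false) • opX m (θ / 2) (vac (m + 2)) := by
  unfold PB
  rw [fr_of_orthonormal (by rw [hB]; exact rotF_orthonormal θ), hB]
  have e : θ = 2 * (θ / 2) := by ring
  conv_lhs => rw [e]
  exact prF_rotF _ hv

/-- transport along the rotation loop -/
theorem tau_rot {B : ℕ → EE (m + 2) →L[ℝ] EE (m + 2)} {θ : ℕ → ℝ} (hB : ∀ j, IsRot (θ j) (B j))
    (h0 : θ 0 = 0) (hθ : ∀ j, |θ (j + 1) - θ j| < π) (j : ℕ) :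
    ∃ c : ℝ, 0 < c ∧ tau B j = c • opX m (θ j / 2) (vac (m + 2)) := by
  induction j with
  | zero =>
    refine ⟨1, one_pos, ?_⟩
    change PB (B 0) (vac (m + 2)) = _
    rw [PB_rot (hB 0) even_vac, h0]
    simp [opX_zero, vac_zero]
  | succ j ih =>
    obtain ⟨c, hc, hcj⟩ := ih
    refine ⟨c * cos ((θ j - θ (j + 1)) / 2), mul_pos hc (cos_pos_of_mem_Ioo ?_), ?_⟩
    · have := abs_lt.1 (hθ j)
      constructor <;> linarith
    · change PB (B (j + 1)) (tau B j) = _
      rw [PB_rot (hB (j + 1)) (even_tau B j), hcj, map_smul]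
      have h1 : opX m (-(θ (j + 1) / 2)) (opX m (θ j / 2) (vac (m + 2))) =
          opX m ((θ j - θ (j + 1)) / 2) (vac (m + 2)) := by
        have h := opX_mul (m := m) (-(θ (j + 1) / 2)) (θ j / 2)
        have h2 := congrArg (fun T : WW (m + 2) →L[ℝ] WW (m + 2) => T (vac (m + 2))) h
        have e : -(θ (j + 1) / 2) + θ j / 2 = (θ j - θ (j + 1)) / 2 := by ring
        rw [e] at h2
        exact h2
      rw [h1, Pi.smul_apply, opX_vac_zero, smul_eq_mul]

/-- the vacuum coefficient is negative at the end of a full rotation -/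
theorem coef_neg {B : ℕ → EE (m + 2) →L[ℝ] EE (m + 2)} {θ : ℕ → ℝ} (hB : ∀ j, IsRot (θ j) (B j))
    (h0 : θ 0 = 0) (hθ : ∀ j, |θ (j + 1) - θ j| < π) {N : ℕ} (hN : θ N = 2 * π) :
    tau B N (fun _ => false) < 0 := by
  obtain ⟨c, hc, h⟩ := tau_rot hB h0 hθ N
  rw [h, hN, mul_div_cancel_left₀ _ (two_ne_zero' ℝ), opX_pi, Pi.smul_apply, Pi.neg_apply,
    vac_zero, smul_eq_mul]
  linarith

end Pool.Agent.H93.Nine
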