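import Mathlib
import Pool.Agent.H93.Nine.Holon

/-!
The rotation loop cannot be filled by invertible matrices.
-/

namespace Pool.Agent.H93.Nine

open Real Set

variable {n m : ℕ}

/-- the nodes of the uniform partition -/
noncomputable def node (a b : ℝ) (N j : ℕ) : ℝ := a + (b - a) * ((min j N : ℕ) / N)

theorem node_zero (a b : ℝ) (N : ℕ) : node a b N 0 = a := by simp [node]

theorem node_self (a b : ℝ) {N : ℕ} (hN : 0 < N) : node a b N N = b := by
  have : (N : ℝ) ≠ 0 := by positivity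
  simp [node, this]

theorem node_mem {a b : ℝ} (hab : a ≤ b) {N : ℕ} (hN : 0 < N) (j : ℕ) :
    node a b N j ∈ Icc a b := by
  have hN' : (0 : ℝ) < N := by positivity
  have h1 : ((min j N : ℕ) : ℝ) ≤ N := by exact_mod_cast min_le_right j N
  have h2 : (0 : ℝ) ≤ (min j N : ℕ) := Nat.cast_nonneg _
  have h3 : ((min j N : ℕ) : ℝ) / N ≤ 1 := by rw [div_le_one hN']; exact h1
  have h4 : (0 : ℝ) ≤ ((min j N : ℕ) : ℝ) / N := by positivity
  unfold node
  constructor
  · nlinarith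
  · nlinarith

theorem node_step {a b : ℝ} (hab : a ≤ b) {N : ℕ} (hN : 0 < N) (j : ℕ) :
    |node a b N (j + 1) - node a b N j| ≤ (b - a) / N := by
  have hN' : (0 : ℝ) < N := by positivity
  have h1 : ((min (j + 1) N : ℕ) : ℝ) - (min j N : ℕ) ≤ 1 := by
    have : min (j + 1) N ≤ min j N + 1 := by omega
    have : ((min (j + 1) N : ℕ) : ℝ) ≤ (min j N : ℕ) + 1 := by exact_mod_cast this
    linarith
  have h0 : (0 : ℝ) ≤ ((min (j + 1) N : ℕ) : ℝ) - (min j N : ℕ) := by
    have : min j N ≤ min (j + 1) N := by omega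
    have : ((min j N : ℕ) : ℝ) ≤ (min (j + 1) N : ℕ) := by exact_mod_cast this
    linarith
  have e : node a b N (j + 1) - node a b N j =
      (b - a) / N * (((min (j + 1) N : ℕ) : ℝ) - (min j N : ℕ)) := by
    unfold node; field_simp; ring
  have h5 : 0 ≤ (b - a) / N := div_nonneg (by linarith) hN'.le
  rw [e, abs_of_nonneg (mul_nonneg h5 h0)]
  nlinarith

/-- the vacuum coefficient of a path -/
noncomputable def coef (γ : ℝ → EE n →L[ℝ] EE n) (a b : ℝ) (N : ℕ) : ℝ :=
  tau (fun j => γ (node a b N j)) N (fun _ => false)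

theorem strip {G : ℝ → ℝ → EE n →L[ℝ] EE n} {a b t0 t1 : ℝ} (hab : a ≤ b) (ht : t0 ≤ t1)
    (hG : ContinuousOn (fun p : ℝ × ℝ => G p.1 p.2) (Icc a b ×ˢ Icc t0 t1))
    (hinj : ∀ x ∈ Icc a b, ∀ t ∈ Icc t0 t1, Function.Injective (G x t))
    (ha : ∀ t ∈ Icc t0 t1, ‖PB (G a t) - PB (ContinuousLinearMap.id ℝ (EE n))‖ ≤ 1 / 8)
    (hb : ∀ t ∈ Icc t0 t1, ‖PB (G b t) - PB (ContinuousLinearMap.id ℝ (EE n))‖ ≤ 1 / 8) :
    ∃ N0 : ℕ, ∀ N, N0 ≤ N → 0 < N → 0 < coef (fun x => G x t0) a b N →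
      0 < coef (fun x => G x t1) a b N := by
  have hPB : ContinuousOn (fun p : ℝ × ℝ => PB (G p.1 p.2)) (Icc a b ×ˢ Icc t0 t1) :=
    ContinuousOn.comp (g := PB) (f := fun p : ℝ × ℝ => G p.1 p.2) continuousOn_PB hG
      fun p hp => hinj p.1 hp.1 p.2 hp.2
  have hu := (isCompact_Icc.prod isCompact_Icc).uniformContinuousOn_of_continuous hPB
  obtain ⟨δ, hδ, h⟩ := Metric.uniformContinuousOn_iff.1 hu (1 / 4) (by norm_num)
  obtain ⟨N0, hN0⟩ := exists_nat_gt ((b - a) / δ)
  refine ⟨N0, fun N hN hN' h0 => ?_⟩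
  have hNr : (0 : ℝ) < N := by positivity
  have hstep : (b - a) / N < δ := by
    rw [div_lt_iff₀ hNr]
    have h1 : (N0 : ℝ) ≤ N := by exact_mod_cast hN
    have h2 : (b - a) / δ < N := hN0.trans_le h1
    rw [div_lt_iff₀ hδ] at h2
    linarith
  have hinj' : ∀ t ∈ Icc t0 t1, ∀ j, Function.Injective (G (node a b N j) t) := fun t ht j =>
    hinj _ (node_mem hab hN' j) t ht
  have hclose : ∀ t ∈ Icc t0 t1, ∀ j,
      ‖PB (G (node a b N (j + 1)) t) - PB (G (node a b N j) t)‖ ≤ 1 / 4 := by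
    intro t ht j
    have h1 := h (node a b N (j + 1), t) ⟨node_mem hab hN' _, ht⟩ (node a b N j, t)
      ⟨node_mem hab hN' _, ht⟩ ?_
    · rw [dist_eq_norm] at h1; exact h1.le
    · rw [Prod.dist_eq, dist_self, max_eq_left dist_nonneg, Real.dist_eq]
      exact (node_step hab hN' j).trans_lt hstep
  -- continuity in `t`
  have hcont : ∀ k, ContinuousOn (fun t => tau (fun j => G (node a b N j) t) k) (Icc t0 t1) := by
    have hj : ∀ j, ContinuousOn (fun t => PB (G (node a b N j) t)) (Icc t0 t1) := by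
      intro j
      have e : ContinuousOn (fun t : ℝ => (node a b N j, t)) (Icc t0 t1) := by fun_prop
      exact ContinuousOn.comp (g := fun p : ℝ × ℝ => PB (G p.1 p.2))
        (f := fun t : ℝ => (node a b N j, t)) hPB e fun t ht => ⟨node_mem hab hN' j, ht⟩
    intro k
    induction k with
    | zero =>
      change ContinuousOn (fun t => PB (G (node a b N 0) t) (vac n)) (Icc t0 t1)
      exact (hj 0).clm_apply continuousOn_const
    | succ k ih =>
      change ContinuousOn (fun t => PB (G (node a b N (k + 1)) t)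
        (tau (fun j => G (node a b N j) t) k)) (Icc t0 t1)
      exact (hj (k + 1)).clm_apply ih
  have hcoef : ContinuousOn (fun t => coef (fun x => G x t) a b N) (Icc t0 t1) := by
    have e : Continuous fun v : WW n => v (fun _ => false) := continuous_apply _
    exact e.comp_continuousOn (hcont N)
  have hne : ∀ t ∈ Icc t0 t1, coef (fun x => G x t) a b N ≠ 0 := by
    intro t ht
    have q0 : ‖PB (G (node a b N 0) t) - PB (ContinuousLinearMap.id ℝ (EE n))‖ ≤ 1 / 8 := by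
      rw [node_zero]; exact ha t ht
    have qN : ‖PB (G (node a b N N) t) - PB (ContinuousLinearMap.id ℝ (EE n))‖ ≤ 1 / 8 := by
      rw [node_self a b hN']; exact hb t ht
    exact coef_ne (B := fun j => G (node a b N j) t) (hinj' t ht) q0 (hclose t ht) qN
  by_contra hneg
  rw [not_lt] at hneg
  have h1 := intermediate_value_Icc' ht hcoef
  obtain ⟨t, ht, ht0⟩ := h1 ⟨hneg, h0.le⟩
  exact hne t ht ht0

theorem strip_pos {γ : ℝ → EE n →L[ℝ] EE n} {a b : ℝ} (hab : a ≤ b)
    (hinj : ∀ x ∈ Icc a b, Function.Injective (γ x))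
    (h : ∀ x ∈ Icc a b, ‖PB (γ x) - PB (ContinuousLinearMap.id ℝ (EE n))‖ ≤ 1 / 8)
    {N : ℕ} (hN : 0 < N) : 0 < coef γ a b N :=
  coef_pos (fun j => hinj _ (node_mem hab hN j)) (fun j => h _ (node_mem hab hN j)) N

theorem strip_neg {γ : ℝ → EE (m + 2) →L[ℝ] EE (m + 2)} {a b : ℝ} (hab : a ≤ b) {θ : ℝ → ℝ}
    (hθ : ContinuousOn θ (Icc a b)) (h : ∀ x ∈ Icc a b, IsRot (θ x) (γ x)) (ha : θ a = 0)
    (hb : θ b = 2 * π) :
    ∃ N0 : ℕ, ∀ N, N0 ≤ N → 0 < N → coef γ a b N < 0 := by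
  have hu := isCompact_Icc.uniformContinuousOn_of_continuous hθ
  obtain ⟨δ, hδ, hd⟩ := Metric.uniformContinuousOn_iff.1 hu π pi_pos
  obtain ⟨N0, hN0⟩ := exists_nat_gt ((b - a) / δ)
  refine ⟨N0, fun N hN hN' => ?_⟩
  have hNr : (0 : ℝ) < N := by positivity
  have hstep : (b - a) / N < δ := by
    rw [div_lt_iff₀ hNr]
    have h1 : (N0 : ℝ) ≤ N := by exact_mod_cast hN
    have h2 : (b - a) / δ < N := hN0.trans_le h1
    rw [div_lt_iff₀ hδ] at h2
    linarith
  refine coef_neg (θ := fun j => θ (node a b N j)) (fun j => h _ (node_mem hab hN' j)) ?_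
    (fun j => ?_) ?_
  · change θ (node a b N 0) = 0
    rw [node_zero, ha]
  · have h1 := hd (node a b N (j + 1)) (node_mem hab hN' _) (node a b N j)
      (node_mem hab hN' _) ?_
    · rwa [Real.dist_eq] at h1
    · rw [Real.dist_eq]; exact (node_step hab hN' j).trans_lt hstep
  · change θ (node a b N N) = 2 * π
    rw [node_self a b hN', hb]

/-- Main theorem on loops: `F` is a homotopy ending at a full rotation; `D` is a family on a
rectangle which is close to the identity on three sides and close to `F(·, 0)` on the fourth. -/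
theorem no_fill {F : ℝ → ℝ → EE (m + 2) →L[ℝ] EE (m + 2)} {a b : ℝ} (hab : a ≤ b)
    (hF : ContinuousOn (fun p : ℝ × ℝ => F p.1 p.2) (Icc a b ×ˢ Icc 0 1))
    (hFinj : ∀ x ∈ Icc a b, ∀ t ∈ Icc (0 : ℝ) 1, Function.Injective (F x t))
    (hFa : ∀ t ∈ Icc (0 : ℝ) 1, F a t = ContinuousLinearMap.id ℝ (EE (m + 2)))
    (hFb : ∀ t ∈ Icc (0 : ℝ) 1, F b t = ContinuousLinearMap.id ℝ (EE (m + 2)))
    {θ : ℝ → ℝ} (hθ : ContinuousOn θ (Icc a b)) (hrot : ∀ x ∈ Icc a b, IsRot (θ x) (F x 1))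
    (hθa : θ a = 0) (hθb : θ b = 2 * π) :
    ∃ ε > 0, ∀ (c d : ℝ) (D : ℝ → ℝ → EE (m + 2) →L[ℝ] EE (m + 2)), c ≤ d →
      ContinuousOn (fun p : ℝ × ℝ => D p.1 p.2) (Icc a b ×ˢ Icc c d) →
      (∀ x ∈ Icc a b, ∀ t ∈ Icc c d, Function.Injective (D x t)) →
      (∀ x ∈ Icc a b, ‖D x c - ContinuousLinearMap.id ℝ (EE (m + 2))‖ < ε) →
      (∀ t ∈ Icc c d, ‖D a t - ContinuousLinearMap.id ℝ (EE (m + 2))‖ < ε) →
      (∀ t ∈ Icc c d, ‖D b t - ContinuousLinearMap.id ℝ (EE (m + 2))‖ < ε) →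
      (∀ x ∈ Icc a b, ‖D x d - F x 0‖ < ε) → False := by
  obtain ⟨ε1, hε1, hnear⟩ := exists_near_id (m + 2)
  -- lower bound of `F(x, 0)`
  have hF0 : ContinuousOn (fun x => F x 0) (Icc a b) := by
    have e : ContinuousOn (fun x : ℝ => (x, (0 : ℝ))) (Icc a b) := by fun_prop
    exact ContinuousOn.comp (g := fun p : ℝ × ℝ => F p.1 p.2) (f := fun x : ℝ => (x, (0 : ℝ)))
      hF e fun x hx => ⟨hx, by simp⟩
  have hlow : ∃ ε2 > 0, ∀ x ∈ Icc a b, ∀ B : EE (m + 2) →L[ℝ] EE (m + 2),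
      ‖B - F x 0‖ < ε2 → Function.Injective B := by
    have hopen : IsOpen {B : EE (m + 2) →L[ℝ] EE (m + 2) | Function.Injective B} := by
      have e : {B : EE (m + 2) →L[ℝ] EE (m + 2) | Function.Injective B} =
          {B | ContinuousLinearMap.det B ≠ 0} := by
        ext B
        simp only [mem_ofPred_eq]
        rw [ContinuousLinearMap.det, ← isUnit_iff_ne_zero, ← LinearMap.isUnit_iff_isUnit_det,
          LinearMap.isUnit_iff_ker_eq_bot, LinearMap.ker_eq_bot]
        rfl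
      rw [e]
      exact isOpen_ne.preimage ContinuousLinearMap.continuous_det
    have hK : IsCompact ((fun x => F x 0) '' Icc a b) := isCompact_Icc.image_of_continuousOn hF0
    obtain ⟨δ, hδ, hsub⟩ := hK.exists_thickening_subset_open hopen (by
      rintro _ ⟨x, hx, rfl⟩
      exact hFinj x hx 0 (by simp))
    refine ⟨δ, hδ, fun x hx B hB => hsub ?_⟩
    rw [Metric.mem_thickening_iff]
    exact ⟨F x 0, mem_image_of_mem _ hx, by rwa [dist_eq_norm]⟩
  obtain ⟨ε2, hε2, hlow⟩ := hlow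
  refine ⟨min ε1 ε2, by positivity, fun c d D hcd hD hDinj h1 h2 h3 h4 => ?_⟩
  have hle1 : min ε1 ε2 ≤ ε1 := min_le_left _ _
  have hle2 : min ε1 ε2 ≤ ε2 := min_le_right _ _
  obtain ⟨N1, hN1⟩ := strip hab hcd hD hDinj (fun t ht => (hnear _ ((h2 t ht).trans_le hle1)).2)
    (fun t ht => (hnear _ ((h3 t ht).trans_le hle1)).2)
  -- the middle strip
  have hD1 : ContinuousOn (fun x => D x d) (Icc a b) := by
    have e : ContinuousOn (fun x : ℝ => (x, d)) (Icc a b) := by fun_prop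
    exact ContinuousOn.comp (g := fun p : ℝ × ℝ => D p.1 p.2) (f := fun x : ℝ => (x, d))
      hD e fun x hx => ⟨hx, hcd, le_rfl⟩
  obtain ⟨N2, hN2⟩ := strip (G := fun x t => (1 - t) • D x d + t • F x 0) (t0 := 0) (t1 := 1)
    hab zero_le_one (by
      have e1 : ContinuousOn (fun p : ℝ × ℝ => D p.1 d) (Icc a b ×ˢ Icc (0 : ℝ) 1) :=
        ContinuousOn.comp (g := fun x => D x d) (f := fun p : ℝ × ℝ => p.1)
          hD1 continuousOn_fst fun p hp => hp.1
      have e2 : ContinuousOn (fun p : ℝ × ℝ => F p.1 0) (Icc a b ×ˢ Icc (0 : ℝ) 1) :=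
        ContinuousOn.comp (g := fun x => F x 0) (f := fun p : ℝ × ℝ => p.1)
          hF0 continuousOn_fst fun p hp => hp.1
      have e3 : ContinuousOn (fun p : ℝ × ℝ => 1 - p.2) (Icc a b ×ˢ Icc (0 : ℝ) 1) := by
        fun_prop
      have e4 : ContinuousOn (fun p : ℝ × ℝ => p.2) (Icc a b ×ˢ Icc (0 : ℝ) 1) := by
        fun_prop
      exact (e3.smul e1).add (e4.smul e2)) (by
      intro x hx t ht
      refine hlow x hx _ ?_
      have e : (1 - t) • D x d + t • F x 0 - F x 0 = (1 - t) • (D x d - F x 0) := by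
        module
      change ‖(1 - t) • D x d + t • F x 0 - F x 0‖ < ε2
      rw [e, norm_smul, Real.norm_of_nonneg (by linarith [ht.2])]
      have h5 := (h4 x hx).trans_le hle2
      nlinarith [ht.1, norm_nonneg (D x d - F x 0)]) (by
      intro t ht
      refine (hnear _ ?_).2
      have e : (1 - t) • D a d + t • F a 0 - ContinuousLinearMap.id ℝ (EE (m + 2)) =
          (1 - t) • (D a d - ContinuousLinearMap.id ℝ (EE (m + 2))) := by
        rw [hFa 0 (by simp)]; module
      change ‖(1 - t) • D a d + t • F a 0 - ContinuousLinearMap.id ℝ (EE (m + 2))‖ < ε1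
      rw [e, norm_smul, Real.norm_of_nonneg (by linarith [ht.2])]
      have h5 := (h2 d ⟨hcd, le_rfl⟩).trans_le hle1
      nlinarith [ht.1, norm_nonneg (D a d - ContinuousLinearMap.id ℝ (EE (m + 2)))]) (by
      intro t ht
      refine (hnear _ ?_).2
      have e : (1 - t) • D b d + t • F b 0 - ContinuousLinearMap.id ℝ (EE (m + 2)) =
          (1 - t) • (D b d - ContinuousLinearMap.id ℝ (EE (m + 2))) := by
        rw [hFb 0 (by simp)]; module
      change ‖(1 - t) • D b d + t • F b 0 - ContinuousLinearMap.id ℝ (EE (m + 2))‖ < ε1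
      rw [e, norm_smul, Real.norm_of_nonneg (by linarith [ht.2])]
      have h5 := (h3 d ⟨hcd, le_rfl⟩).trans_le hle1
      nlinarith [ht.1, norm_nonneg (D b d - ContinuousLinearMap.id ℝ (EE (m + 2)))])
  obtain ⟨N3, hN3⟩ := strip (G := F) hab zero_le_one hF hFinj
    (fun t ht => by rw [hFa t ht, sub_self, norm_zero]; norm_num)
    (fun t ht => by rw [hFb t ht, sub_self, norm_zero]; norm_num)
  obtain ⟨N4, hN4⟩ := strip_neg hab hθ hrot hθa hθb
  set N := N1 + N2 + N3 + N4 + 1 with hN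
  have hNpos : 0 < N := by omega
  have p0 : 0 < coef (fun x => D x c) a b N :=
    strip_pos hab (fun x hx => hDinj x hx c ⟨le_rfl, hcd⟩)
      (fun x hx => (hnear _ ((h1 x hx).trans_le hle1)).2) hNpos
  have p1 := hN1 N (by omega) hNpos p0
  have e1 : (fun x => (1 - (0 : ℝ)) • D x d + (0 : ℝ) • F x 0) = fun x => D x d := by
    funext x
    refine ContinuousLinearMap.ext fun v => ?_
    simp
  have e2 : (fun x => (1 - (1 : ℝ)) • D x d + (1 : ℝ) • F x 0) = fun x => F x 0 := by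
    funext x
    refine ContinuousLinearMap.ext fun v => ?_
    simp
  have p2 := hN2 N (by omega) hNpos (by simpa only [e1] using p1)
  have p3 := hN3 N (by omega) hNpos (by simpa only [e2] using p2)
  exact absurd p3 (hN4 N (by omega) hNpos).not_gt

end Pool.Agent.H93.Nine
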