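import Mathlib
import Pool.Agent.H93.Nine.JetG
import Pool.Agent.H93.Nine.Strip

/-!
Adapted coordinates for the rotation loop.
-/

namespace Pool.Agent.H93.Nine

open Set Pool.Agent.Wtw Module

theorem exists_basis_T {m : ℕ} (N2 : V2 →L[ℝ] EE (m + 2)) (M2 : EE (m + 2) →L[ℝ] V2)
    (h : ∀ c, M2 (N2 c) = c) : ∃ T : EE (m + 2) ≃L[ℝ] EE (m + 2),
      ∀ (θ : ℝ) (B : EE (m + 2) →L[ℝ] EE (m + 2)),
        (∀ v, B v = v + N2 (rot θ (M2 v) - M2 v)) →
        IsRot θ ((T.symm : EE (m + 2) →L[ℝ] EE (m + 2)).comp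
          (B.comp (T : EE (m + 2) →L[ℝ] EE (m + 2)))) := by
  set Ml : EE (m + 2) →ₗ[ℝ] V2 := M2.toLinearMap with hMl
  have hsurj : Function.Surjective Ml := fun c => ⟨N2 c, h c⟩
  have hrk : finrank ℝ (LinearMap.ker Ml) = m := by
    have h1 := Ml.finrank_range_add_finrank_ker
    rw [LinearMap.range_eq_top.2 hsurj, finrank_top] at h1
    have h2 : finrank ℝ V2 = 2 := by simp
    have h3 : finrank ℝ (EE (m + 2)) = m + 2 := by simp
    omega
  have hrk' : finrank ℝ (Fin m → ℝ) = finrank ℝ (LinearMap.ker Ml) := by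
    rw [hrk]; simp
  set κ : (Fin m → ℝ) ≃ₗ[ℝ] LinearMap.ker Ml := LinearEquiv.ofFinrankEq _ _ hrk' with hκ
  set T0 : EE (m + 2) →ₗ[ℝ] EE (m + 2) :=
    { toFun := fun x => N2 ![x 0, x 1] + (κ (fun i => x i.succ.succ) : EE (m + 2))
      map_add' := by
        intro x y
        have e1 : ![(x + y) 0, (x + y) 1] = ![x 0, x 1] + ![y 0, y 1] := by
          ext i; fin_cases i <;> simp
        have e2 : (fun i : Fin m => (x + y) i.succ.succ) =
            (fun i : Fin m => x i.succ.succ) + fun i : Fin m => y i.succ.succ := by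
          ext i; simp
        rw [e1, e2, map_add, map_add, Submodule.coe_add]
        abel
      map_smul' := by
        intro c x
        have e1 : ![(c • x) 0, (c • x) 1] = c • ![x 0, x 1] := by
          ext i; fin_cases i <;> simp
        have e2 : (fun i : Fin m => (c • x) i.succ.succ) =
            c • (fun i : Fin m => x i.succ.succ) := by
          ext i; simp
        rw [e1, e2, map_smul, map_smul, Submodule.coe_smul, smul_add]
        rfl } with hT0
  have hT0a : ∀ x, T0 x = N2 ![x 0, x 1] + (κ (fun i => x i.succ.succ) : EE (m + 2)) :=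
    fun x => rfl
  have hMκ : ∀ b : Fin m → ℝ, M2 (κ b : EE (m + 2)) = 0 := fun b => (κ b).2
  have hinj : Function.Injective T0 := by
    refine (injective_iff_map_eq_zero T0).2 fun x hx => ?_
    have h1 : M2 (T0 x) = ![x 0, x 1] := by
      rw [hT0a, map_add, h, hMκ, add_zero]
    rw [hx, map_zero] at h1
    have h2 : (κ (fun i => x i.succ.succ) : EE (m + 2)) = 0 := by
      have h3 := hT0a x
      rw [hx, ← h1, map_zero, zero_add] at h3
      exact h3.symm
    have h4 : (fun i : Fin m => x i.succ.succ) = 0 := by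
      apply κ.injective
      rw [map_zero]
      exact Subtype.ext h2
    ext i
    refine Fin.cases ?_ (fun i => ?_) i
    · have := congrFun h1 0
      simpa using this.symm
    · refine Fin.cases ?_ (fun i => ?_) i
      · have := congrFun h1 1
        simpa using this.symm
      · exact congrFun h4 i
  set T : EE (m + 2) ≃L[ℝ] EE (m + 2) :=
    (LinearEquiv.ofInjectiveEndo T0 hinj).toContinuousLinearEquiv with hT
  have hTa : ∀ x, T x = N2 ![x 0, x 1] + (κ (fun i => x i.succ.succ) : EE (m + 2)) := fun x => rfl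
  refine ⟨T, fun θ B hB => ?_⟩
  have hκ0 : ∀ x : EE (m + 2), (∀ i : Fin m, x i.succ.succ = 0) →
      (κ (fun i => x i.succ.succ) : EE (m + 2)) = 0 := by
    intro x hx
    have : (fun i : Fin m => x i.succ.succ) = 0 := funext hx
    rw [this, map_zero]; rfl
  have key : ∀ (a b : ℝ), T (a • std (m + 2) 0 + b • std (m + 2) 1) = N2 ![a, b] := by
    intro a b
    rw [hTa, hκ0, add_zero]
    · congr 1
      ext i; fin_cases i <;> simp [std]
    · intro i
      have h1 : (i.succ.succ : Fin (m + 2)) ≠ 0 := Fin.succ_ne_zero _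
      have h2 : (i.succ.succ : Fin (m + 2)) ≠ 1 := by
        intro h
        have : (i.succ.succ : Fin (m + 2)) = Fin.succ 0 := h
        exact Fin.succ_ne_zero _ (Fin.succ_injective _ this)
      simp [std, h1, h2]
  unfold IsRot
  funext i
  change T.symm (B (T (std (m + 2) i))) = rotF m θ i
  rw [ContinuousLinearEquiv.symm_apply_eq]
  by_cases h0 : i = 0
  · subst h0
    have e1 : T (std (m + 2) 0) = N2 ![1, 0] := by
      have := key 1 0
      simpa using this
    have e2 : rotF m θ 0 = Real.cos θ • std (m + 2) 0 + Real.sin θ • std (m + 2) 1 := by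
      simp [rotF]
    rw [e1, e2, key, hB, h, map_sub, add_sub_cancel]
    congr 1
    simp [rot]
  by_cases h1 : i = 1
  · subst h1
    have e1 : T (std (m + 2) 1) = N2 ![0, 1] := by
      have := key 0 1
      simpa using this
    have e2 : rotF m θ 1 = (- Real.sin θ) • std (m + 2) 0 + Real.cos θ • std (m + 2) 1 := by
      simp [rotF]
    rw [e1, e2, key, hB, h, map_sub, add_sub_cancel]
    congr 1
    simp [rot]
  · have e2 : rotF m θ i = std (m + 2) i := by simp [rotF, h0, h1]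
    rw [e2]
    have h3 : M2 (T (std (m + 2) i)) = 0 := by
      rw [hTa, map_add, h, hMκ, add_zero]
      ext k
      fin_cases k
      · simp [std, Ne.symm h0]
      · simp [std, Ne.symm h1]
    rw [hB, h3]
    have h4 : rot θ 0 - 0 = 0 := by
      ext k; fin_cases k <;> simp [rot]
    rw [h4, map_zero, add_zero]

variable {f : E9 → E9} {K : Set Z8} {j : ℕ}

theorem exists_T (h : FData f K) (j : ℕ) : ∃ (ys : Z8) (θ : ℝ → ℝ)
    (T : EE (j + 7 + 2) ≃L[ℝ] EE (j + 7 + 2)), 5 < ys (0, 0) ∧ Continuous θ ∧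
      (∀ u ≤ 0, θ u = 0) ∧ (∀ u, 1 ≤ u → θ u = 2 * Real.pi) ∧
      ∀ (u : ℝ) (x : EE (j + 7 + 2)), pi9 j x = (u, ys) →
        IsRot (m := j + 7) (θ u) ((T.symm : EE (j + 7 + 2) →L[ℝ] EE (j + 7 + 2)).comp
          ((G1 f K j x).comp (T : EE (j + 7 + 2) →L[ℝ] EE (j + 7 + 2)))) := by
  obtain ⟨ys, hys, A, N, M, θ, hθ, hθ0, hθ1, hMN, hloop⟩ := h.loop
  set N2 : V2 →L[ℝ] EE (j + 7 + 2) :=
    (io9 j).comp ((ContinuousLinearMap.inr ℝ ℝ Z8).comp ((A : Z8 →L[ℝ] Z8).comp N)) with hN2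
  set M2 : EE (j + 7 + 2) →L[ℝ] V2 :=
    M.comp ((A.symm : Z8 →L[ℝ] Z8).comp ((ContinuousLinearMap.snd ℝ ℝ Z8).comp (pi9 j))) with hM2
  have hN2a : ∀ c, N2 c = io9 j (0, A (N c)) := fun c => rfl
  have hM2a : ∀ v, M2 v = M (A.symm (pi9 j v).2) := fun v => rfl
  obtain ⟨T, hT⟩ := exists_basis_T (m := j + 7) N2 M2 (by
    intro c
    rw [hN2a, hM2a, pi9_io9]
    simp [hMN])
  refine ⟨ys, θ, T, hys, hθ, hθ0, hθ1, fun u x hx => hT (θ u) _ fun v => ?_⟩
  have hnot : pi9 j x ∉ Sg K := by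
    rw [hx]
    intro hS
    have := abs_le.1 (h.sub ys hS.2 (0, 0))
    linarith
  change v + io9 j (F1 f K (pi9 j x) (pi9 j v) - pi9 j v) = _
  rw [F1_of_notMem hnot, hx]
  obtain ⟨v1, w⟩ : ∃ p : ℝ × Z8, p = pi9 j v := ⟨_, rfl⟩
  have e1 : fderiv ℝ f (u, ys) (pi9 j v) =
      ((pi9 j v).1, A (A.symm (pi9 j v).2 + N (rot (θ u) (M (A.symm (pi9 j v).2)) -
        M (A.symm (pi9 j v).2)))) := hloop u (pi9 j v).1 (pi9 j v).2
  rw [e1, hN2a, hM2a]
  congr 2
  refine Prod.ext ?_ ?_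
  · simp
  · simp

end Pool.Agent.H93.Nine
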