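import Mathlib
import Pool.Agent.H93.Nine.Conv1
import Pool.Agent.H93.Nine.TBasis
import Pool.Agent.H93.Nine.Slice

/-!
The map is not a `W^{2,1}` limit of diffeomorphisms.
-/

namespace Pool.Agent.H93.Nine

open MeasureTheory Set Filter Topology Pool.Agent.Wtw Metric Pool.Agent.H93.Exo
open scoped ENNReal ContDiff

variable {f : E9 → E9} {K : Set Z8} {j : ℕ}

/-- the cube `(-8, 8)^n` -/
def cube (n : ℕ) : Set (EE n) := {x | ∀ i, |x i| < 8}

theorem isOpen_cube (n : ℕ) : IsOpen (cube n) := by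
  have e : cube n = ⋂ i, {x : EE n | |x i| < 8} := by ext x; simp [cube]
  rw [e]
  refine isOpen_iInter_of_finite fun i => ?_
  have hc : Continuous fun x : EE n => |x i| := by fun_prop
  exact isOpen_lt hc continuous_const

theorem isBounded_cube (n : ℕ) : Bornology.IsBounded (cube n) := by
  have h : cube n ⊆ closedBall 0 (Real.sqrt (∑ _i : Fin n, (8 : ℝ) ^ 2)) := by
    intro x hx
    rw [mem_closedBall_zero_iff, EuclideanSpace.norm_eq]
    refine Real.sqrt_le_sqrt (Finset.sum_le_sum fun i _ => ?_)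
    rw [Real.norm_eq_abs]
    exact pow_le_pow_left₀ (abs_nonneg _) (hx i).le 2
  exact isBounded_closedBall.subset h

/-- the parametrization by lines -/
noncomputable def LL (j : ℕ) (p : ℝ × (ℝ × (Z7 × (Fin j → ℝ)))) : EE (j + 7 + 2) :=
  (LX j).symm (MY j p)

theorem pi9_LL (u t : ℝ) (y : Z7) (w : Fin j → ℝ) :
    pi9 j (LL j (u, t, y, w)) = (u, glue t y) := by
  rw [pi9_apply, LL, ContinuousLinearEquiv.apply_symm_apply]; rfl

/-- the first direction -/
noncomputable def e0 (j : ℕ) : EE (j + 7 + 2) := (LX j).symm ((1, 0), 0)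

/-- the second direction -/
noncomputable def e1 (j : ℕ) : EE (j + 7 + 2) := (LX j).symm ((0, Pi.single (0, 0) 1), 0)

theorem isDir_e0 : IsDir (pi9 j (e0 j)) := by
  left
  rw [pi9_apply, e0, ContinuousLinearEquiv.apply_symm_apply]

theorem isDir_e1 : IsDir (pi9 j (e1 j)) := by
  right
  refine ⟨(0, 0), ?_⟩
  rw [pi9_apply, e1, ContinuousLinearEquiv.apply_symm_apply]

theorem LL_line0 (u t : ℝ) (y : Z7) (w : Fin j → ℝ) :
    LL j (u, t, y, w) = LL j (0, t, y, w) + u • e0 j := by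
  unfold LL e0
  rw [← map_smul, ← map_add]
  congr 1
  refine Prod.ext (Prod.ext ?_ ?_) ?_
  · simp [MY]
  · simp [MY]
  · simp [MY]

theorem glue_line (t : ℝ) (y : Z7) :
    glue t y = glue 0 y + t • (Pi.single (0, 0) 1 : Z8) := by
  funext k
  by_cases hk : k = (0, 0)
  · subst hk; simp [glue]
  · simp [glue, hk]

theorem LL_line1 (u t : ℝ) (y : Z7) (w : Fin j → ℝ) :
    LL j (u, t, y, w) = LL j (u, 0, y, w) + t • e1 j := by
  unfold LL e1
  rw [← map_smul, ← map_add]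
  congr 1
  refine Prod.ext (Prod.ext ?_ ?_) ?_
  · simp [MY]
  · simp only [MY, Prod.snd_add, Prod.fst_add, Prod.smul_fst, Prod.smul_snd]
    exact glue_line t y
  · simp [MY]

theorem measurePreserving_LL (j : ℕ) : MeasurePreserving (LL j) volume volume := by
  have h1 : MeasurePreserving (LX j).symm volume volume := by
    have h := (measurePreserving_LX j)
    have h2 : MeasurePreserving (LX j).toHomeomorph.toMeasurableEquiv volume volume := h
    exact h2.symm
  exact h1.comp (measurePreserving_MY j)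

theorem continuous_LL (j : ℕ) : Continuous (LL j) := (LX j).symm.continuous.comp (continuous_MY j)

theorem abs_glue_lt {t : ℝ} {y : Z7} (ht : |t| < 8) (hy : ‖y‖ ≤ 3) (k : Idx) :
    |glue t y k| < 8 := by
  by_cases hk : k = (0, 0)
  · subst hk; rwa [glue_zero]
  · simp only [glue, hk, dite_false]
    have := (norm_le_pi_norm y ⟨k, hk⟩).trans hy
    rw [Real.norm_eq_abs] at this
    linarith

theorem LL_mem_cube {u t : ℝ} {y : Z7} {w : Fin j → ℝ} (hu : |u| < 8) (ht : |t| < 8)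
    (hy : ‖y‖ ≤ 3) (hw : ‖w‖ ≤ 1) : LL j (u, t, y, w) ∈ cube (j + 7 + 2) := by
  intro i
  obtain ⟨s, rfl⟩ := (sig j).surjective i
  have h := LX_apply j (LL j (u, t, y, w))
  rw [LL, ContinuousLinearEquiv.apply_symm_apply] at h
  have h1 : u = (LL j (u, t, y, w)) (sig j (.inl (.inl ()))) := congrArg (fun p => p.1.1) h
  have h2 : ∀ k, glue t y k = (LL j (u, t, y, w)) (sig j (.inl (.inr k))) := fun k =>
    congrFun (congrArg (fun p => p.1.2) h) k
  have h3 : ∀ k, w k = (LL j (u, t, y, w)) (sig j (.inr k)) := fun k =>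
    congrFun (congrArg (fun p => p.2) h) k
  rcases s with (v | k) | k
  · rw [← h1]; exact hu
  · rw [← h2]; exact abs_glue_lt ht hy k
  · rw [← h3]
    have := (norm_le_pi_norm w k).trans hw
    rw [Real.norm_eq_abs] at this
    linarith

/-- the base set of the lines through `K` -/
def AA (K : Set Z8) (j : ℕ) : Set (ℝ × (Z7 × (Fin j → ℝ))) := {q | glue q.1 q.2.1 ∈ K}

theorem measurableSet_AA (hK : IsCompact K) (j : ℕ) : MeasurableSet (AA K j) := by
  have hc : Continuous fun q : ℝ × (Z7 × (Fin j → ℝ)) => glue q.1 q.2.1 :=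
    continuous_glue.comp (by fun_prop : Continuous fun q : ℝ × (Z7 × (Fin j → ℝ)) =>
      (q.1, q.2.1))
  exact (hK.isClosed.preimage hc).measurableSet

/-- the measures on the parameter spaces -/
noncomputable def m1 : Measure ℝ := (volume : Measure ℝ).restrict (Icc (-1) 2)

noncomputable def m2 : Measure ℝ := (volume : Measure ℝ).restrict (Icc (-3) 6)

noncomputable def m3 (j : ℕ) : Measure (Z7 × (Fin j → ℝ)) :=
  (volume : Measure (Z7 × (Fin j → ℝ))).restrict (closedBall 0 3 ×ˢ closedBall 0 1)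

instance : SFinite m1 := by unfold m1; infer_instance
instance : SFinite m2 := by unfold m2; infer_instance
instance : SFinite (m3 j) := by unfold m3; infer_instance

theorem m23 (j : ℕ) : m2.prod (m3 j) =
    (volume : Measure (ℝ × (Z7 × (Fin j → ℝ)))).restrict
      (Icc (-3) 6 ×ˢ (closedBall 0 3 ×ˢ closedBall 0 1)) := by
  unfold m2 m3
  rw [Measure.prod_restrict]; rfl

theorem m13 (j : ℕ) : m1.prod (m3 j) =
    (volume : Measure (ℝ × (Z7 × (Fin j → ℝ)))).restrict
      (Icc (-1) 2 ×ˢ (closedBall 0 3 ×ˢ closedBall 0 1)) := by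
  unfold m1 m3
  rw [Measure.prod_restrict]; rfl

/-- the box of the lines -/
def box (j : ℕ) : Set (ℝ × (ℝ × (Z7 × (Fin j → ℝ)))) :=
  Icc (-1) 2 ×ˢ (Icc (-3) 6 ×ˢ (closedBall 0 3 ×ˢ closedBall 0 1))

theorem m123 (j : ℕ) : m1.prod (m2.prod (m3 j)) =
    (volume : Measure (ℝ × (ℝ × (Z7 × (Fin j → ℝ))))).restrict (box j) := by
  rw [m23]
  unfold m1
  rw [Measure.prod_restrict]; rfl

theorem box_subset (j : ℕ) : box j ⊆ LL j ⁻¹' cube (j + 7 + 2) := by
  rintro ⟨u, t, y, w⟩ ⟨hu, ht, hy, hw⟩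
  rw [mem_closedBall_zero_iff] at hy hw
  refine LL_mem_cube ?_ ?_ hy hw
  · rw [abs_lt]; constructor <;> linarith [hu.1, hu.2]
  · rw [abs_lt]; constructor <;> linarith [ht.1, ht.2]

theorem volume_AA (h : FData f K) (j : ℕ) : (m2.prod (m3 j)) (AA K j) ≠ 0 := by
  rw [m23, Measure.restrict_apply (measurableSet_AA h.compact j)]
  set S : Set ((ℝ × Z7) × (Fin j → ℝ)) :=
    ((fun p : ℝ × Z7 => glue p.1 p.2) ⁻¹' K) ×ˢ closedBall 0 1 with hS
  have hsub : (MeasurableEquiv.prodAssoc : (ℝ × Z7) × (Fin j → ℝ) ≃ᵐ _).symm ⁻¹' S ⊆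
      AA K j ∩ (Icc (-3) 6 ×ˢ (closedBall 0 3 ×ˢ closedBall 0 1)) := by
    rintro ⟨c, y, w⟩ ⟨h1, h2⟩
    have h1' : glue c y ∈ K := h1
    have hc := abs_le.1 (h.sub _ h1' (0, 0))
    rw [glue_zero] at hc
    refine ⟨h1', ⟨by linarith [hc.1], by linarith [hc.2]⟩, ?_, h2⟩
    rw [mem_closedBall_zero_iff, pi_norm_le_iff_of_nonneg (by norm_num)]
    rintro ⟨k, hk⟩
    have := h.sub _ h1' k
    simpa [glue, hk] using this
  have hmS : MeasurableSet S :=
    (measurePreserving_glue.measurable h.compact.isClosed.measurableSet).prod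
      isClosed_closedBall.measurableSet
  have hmp : MeasurePreserving (MeasurableEquiv.prodAssoc : (ℝ × Z7) × (Fin j → ℝ) ≃ᵐ _).symm
      (volume : Measure (ℝ × (Z7 × (Fin j → ℝ))))
      (volume : Measure ((ℝ × Z7) × (Fin j → ℝ))) := (measurePreserving_prodAssoc _ _ _).symm
  have hvol : volume ((MeasurableEquiv.prodAssoc : (ℝ × Z7) × (Fin j → ℝ) ≃ᵐ _).symm ⁻¹' S) =
      volume S := hmp.measure_preimage hmS.nullMeasurableSet
  have hvS : volume S ≠ 0 := by
    rw [hS, Measure.volume_eq_prod, Measure.prod_prod,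
      measurePreserving_glue.measure_preimage h.compact.isClosed.measurableSet.nullMeasurableSet]
    refine mul_ne_zero h.vol_pos.ne' ?_
    exact (measure_closedBall_pos volume (0 : Fin j → ℝ) one_pos).ne'
  intro h0
  exact hvS (by rw [← hvol]; exact measure_mono_null hsub h0)

theorem G1_eq_id (x : EE (j + 7 + 2))
    (hx : F1 f K (pi9 j x) = ContinuousLinearMap.id ℝ E9) :
    G1 f K j x = ContinuousLinearMap.id ℝ (EE (j + 7 + 2)) := by
  unfold G1
  rw [hx, sub_self, map_zero, add_zero]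

theorem G1_continuousAt (h : FData f K) {x : EE (j + 7 + 2)} (hx : pi9 j x ∉ Sg K) :
    ContinuousAt (G1 f K j) x := by
  unfold G1
  have h1 : ContinuousAt (fun x => F1 f K (pi9 j x)) x :=
    ContinuousAt.comp (g := F1 f K) (F1_continuousAt h hx) (pi9 j).continuous.continuousAt
  have h2 := (QQ j).continuous.continuousAt.comp
    (h1.sub (continuousAt_const (y := ContinuousLinearMap.id ℝ E9)))
  exact continuousAt_const.add h2

theorem G1_injective (h : FData f K) {x : EE (j + 7 + 2)} (hx : pi9 j x ∉ Sg K) :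
    Function.Injective (G1 f K j x) := by
  refine (injective_iff_map_eq_zero (G1 f K j x)).2 fun v hv => ?_
  obtain ⟨e, he⟩ := h.inv (pi9 j x).1 (pi9 j x).2 hx
  have hF : F1 f K (pi9 j x) = e := by
    rw [F1_of_notMem hx]; exact he.fderiv
  have h1 : v + io9 j (F1 f K (pi9 j x) (pi9 j v) - pi9 j v) = 0 := hv
  have h2 : F1 f K (pi9 j x) (pi9 j v) = 0 := by
    have h3 := congrArg (pi9 j) h1
    rw [map_add, pi9_io9, map_zero, add_sub_cancel] at h3
    exact h3
  have h4 : pi9 j v = 0 := by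
    rw [hF] at h2
    exact e.injective (by simpa using h2)
  rw [h2, h4, sub_zero, map_zero, add_zero] at h1
  exact h1

theorem restrict_Ioo_ne {a b c d : ℝ} (h1 : a < b) (h2 : c ≤ a) (h3 : b ≤ d) :
    ((volume : Measure ℝ).restrict (Icc c d)) (Ioo a b) ≠ 0 := by
  have e : Ioo a b ∩ Icc c d = Ioo a b :=
    inter_eq_left.2 fun x hx => ⟨h2.trans hx.1.le, hx.2.le.trans h3⟩
  rw [Measure.restrict_apply measurableSet_Ioo, e, Real.volume_Ioo]
  simpa using h1

/-- Main theorem: the map is not a limit. -/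
theorem not_isW2Limit (h : FData f K) (j : ℕ) : ¬ IsW2Limit 1 (cube (j + 7 + 2)) (G0 f j) := by
  intro hlim
  obtain ⟨g, hg, hmeas, hl⟩ := phi_tendsto h (isOpen_cube _) (isBounded_cube _) hlim
  have hΩ := isOpen_cube (j + 7 + 2)
  -- the densities in the parameters
  set Φ : ℕ → ℝ × (ℝ × (Z7 × (Fin j → ℝ))) → ℝ≥0∞ := fun k p => phi f K j (g k) (LL j p) with hΦ
  have hpre : MeasurePreserving (LL j) (volume.restrict (LL j ⁻¹' cube (j + 7 + 2)))
      (volume.restrict (cube (j + 7 + 2))) :=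
    (measurePreserving_LL j).restrict_preimage hΩ.measurableSet
  have hm0 : ∀ k, AEMeasurable (Φ k) (volume.restrict (LL j ⁻¹' cube (j + 7 + 2))) := fun k =>
    (hmeas k).comp_quasiMeasurePreserving hpre.quasiMeasurePreserving
  have hm1 : ∀ k, AEMeasurable (Φ k) (m1.prod (m2.prod (m3 j))) := by
    intro k
    rw [m123]
    exact (hm0 k).mono_measure (Measure.restrict_mono (box_subset j) le_rfl)
  have hl1 : Tendsto (fun k => ∫⁻ p, Φ k p ∂(m1.prod (m2.prod (m3 j)))) atTop (𝓝 0) := by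
    refine tendsto_of_tendsto_of_tendsto_of_le_of_le tendsto_const_nhds hl (fun _ => zero_le)
      (fun k => ?_)
    have e : ∫⁻ x in cube (j + 7 + 2), phi f K j (g k) x =
        ∫⁻ p in LL j ⁻¹' cube (j + 7 + 2), Φ k p := by
      rw [← hpre.map_eq, lintegral_map' (by rw [hpre.map_eq]; exact hmeas k)
        hpre.measurable.aemeasurable]
    change ∫⁻ p, Φ k p ∂(m1.prod (m2.prod (m3 j))) ≤ ∫⁻ x in cube (j + 7 + 2), _
    rw [e, m123]
    exact lintegral_mono_set (box_subset j)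
  obtain ⟨k, hk, hP, hQ⟩ := exists_subseq_lines hm1 hl1
  have hP2 : ∀ᵐ q ∂(m2.prod (m3 j)), q ∈ (Icc (-3 : ℝ) 6 ×ˢ (closedBall (0 : Z7) 3 ×ˢ
      closedBall (0 : Fin j → ℝ) 1) : Set (ℝ × (Z7 × (Fin j → ℝ)))) := by
    rw [m23]
    exact ae_restrict_mem (measurableSet_Icc.prod (isClosed_closedBall.measurableSet.prod
      isClosed_closedBall.measurableSet))
  obtain ⟨⟨y, w⟩, c, d, a, b, hA, hd, ha, hb, ⟨hPc, hbox⟩, ⟨hPd, -⟩, hQa, hQb⟩ :=
    exists_rectangle (hP.and hP2) hQ (measurableSet_AA h.compact j) (volume_AA h j)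
      (Ia := Ioo (-1) 0) (Ib := Ioo 1 2) (Jd := Ioo 5 6)
      (restrict_Ioo_ne (by norm_num) (by norm_num) (by norm_num))
      (restrict_Ioo_ne (by norm_num) (by norm_num) (by norm_num))
      (restrict_Ioo_ne (by norm_num) (by norm_num) (by norm_num))
  have hyb : ‖y‖ ≤ 3 := mem_closedBall_zero_iff.1 hbox.2.1
  have hwb : ‖w‖ ≤ 1 := mem_closedBall_zero_iff.1 hbox.2.2
  have hcK : glue c y ∈ K := hA
  have hc3 : |c| ≤ 3 := by simpa [glue_zero] using h.sub _ hcK (0, 0)
  have hc3' := abs_le.1 hc3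
  obtain ⟨ys, θ, T, hys, hθc, hθ0, hθ1, hrot⟩ := exists_T h j
  have hab : a ≤ b := by linarith [ha.2, hb.1]
  have hcd : c ≤ d := by linarith [hd.1]
  -- the homotopy
  set zt : ℝ → Z8 := fun t => (1 - t) • glue d y + t • ys with hzt
  set P : ℝ → ℝ → EE (j + 7 + 2) := fun u t => (LX j).symm ((u, zt t), w) with hPdef
  have hpiP : ∀ u t, pi9 j (P u t) = (u, zt t) := fun u t => by
    rw [pi9_apply, hPdef]; simp
  have hzt0 : ∀ t ∈ Icc (0 : ℝ) 1, 5 < zt t (0, 0) := by
    intro t ht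
    have e : zt t (0, 0) = (1 - t) * d + t * ys (0, 0) := by
      simp [hzt, glue_zero]
    rw [e]
    have h1 := hd.1
    rcases eq_or_lt_of_le ht.1 with h0 | h0
    · rw [← h0]; linarith
    · nlinarith [ht.2]
  have hnotP : ∀ u, ∀ t ∈ Icc (0 : ℝ) 1, pi9 j (P u t) ∉ Sg K := by
    intro u t ht hS
    rw [hpiP] at hS
    have h1 := abs_le.1 (h.sub _ hS.2 (0, 0))
    have h2 := hzt0 t ht
    simp only at h1
    linarith
  set cj : (EE (j + 7 + 2) →L[ℝ] EE (j + 7 + 2)) → (EE (j + 7 + 2) →L[ℝ] EE (j + 7 + 2)) :=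
    fun B => (T.symm : EE (j + 7 + 2) →L[ℝ] EE (j + 7 + 2)).comp
      (B.comp (T : EE (j + 7 + 2) →L[ℝ] EE (j + 7 + 2))) with hcj
  have hcjc : Continuous cj := by
    rw [hcj]
    exact continuous_const.clm_comp (continuous_id.clm_comp continuous_const)
  have hcji : ∀ B : EE (j + 7 + 2) →L[ℝ] EE (j + 7 + 2), Function.Injective B →
      Function.Injective (cj B) := fun B hB => by
    change Function.Injective (fun v => T.symm (B (T v)))
    exact T.symm.injective.comp (hB.comp T.injective)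
  have hcjid : cj (ContinuousLinearMap.id ℝ (EE (j + 7 + 2))) =
      ContinuousLinearMap.id ℝ (EE (j + 7 + 2)) := by
    ext1 v
    change T.symm (T v) = v
    exact T.symm_apply_apply v
  have hcjn : ∀ B B' : EE (j + 7 + 2) →L[ℝ] EE (j + 7 + 2), ‖cj B - cj B'‖ ≤
      (‖(T.symm : EE (j + 7 + 2) →L[ℝ] EE (j + 7 + 2))‖ *
        ‖(T : EE (j + 7 + 2) →L[ℝ] EE (j + 7 + 2))‖) * ‖B - B'‖ := by
    intro B B'
    have e : cj B - cj B' = (T.symm : EE (j + 7 + 2) →L[ℝ] EE (j + 7 + 2)).comp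
      ((B - B').comp (T : EE (j + 7 + 2) →L[ℝ] EE (j + 7 + 2))) := by
      ext1 v
      change T.symm (B (T v)) - T.symm (B' (T v)) = T.symm (B (T v) - B' (T v))
      rw [map_sub]
    rw [e]
    refine (ContinuousLinearMap.opNorm_comp_le _ _).trans ?_
    rw [mul_assoc]
    refine mul_le_mul_of_nonneg_left ?_ (norm_nonneg _)
    refine (ContinuousLinearMap.opNorm_comp_le _ _).trans ?_
    rw [mul_comm]
  have hPc0 : Continuous fun p : ℝ × ℝ => P p.1 p.2 := by
    refine (LX j).symm.continuous.comp ?_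
    refine Continuous.prodMk (Continuous.prodMk continuous_fst ?_) continuous_const
    rw [hzt]
    fun_prop
  obtain ⟨ε, hε, hfill⟩ := no_fill (m := j + 7) (F := fun u t => cj (G1 f K j (P u t)))
    (a := a) (b := b) hab
    (by
      intro p hp
      have h1 : ContinuousAt (fun p : ℝ × ℝ => G1 f K j (P p.1 p.2)) p :=
        ContinuousAt.comp (g := G1 f K j) (G1_continuousAt h (hnotP p.1 p.2 hp.2))
          hPc0.continuousAt
      exact (ContinuousAt.comp (g := cj) hcjc.continuousAt h1).continuousWithinAt)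
    (fun u _ t ht => hcji _ (G1_injective h (hnotP u t ht)))
    (fun t _ => by
      change cj (G1 f K j (P a t)) = _
      rw [G1_eq_id _ (F1_of_neg h (by rw [hpiP]; exact ha.2)), hcjid])
    (fun t _ => by
      change cj (G1 f K j (P b t)) = _
      rw [G1_eq_id _ (F1_of_gt h (by rw [hpiP]; exact hb.1)), hcjid])
    hθc.continuousOn
    (fun u _ => hrot u (P u 1) (by rw [hpiP, hzt]; simp))
    (hθ0 a ha.2.le) (hθ1 b hb.1.le)
  -- smallness
  set M : ℝ := ‖(T.symm : EE (j + 7 + 2) →L[ℝ] EE (j + 7 + 2))‖ *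
        ‖(T : EE (j + 7 + 2) →L[ℝ] EE (j + 7 + 2))‖ + 1 with hM
  have hMpos : 0 < M := by positivity
  have hεM : 0 < ε / M := div_pos hε hMpos
  have hsmall : ∀ B B' : EE (j + 7 + 2) →L[ℝ] EE (j + 7 + 2), ‖B - B'‖ < ε / M →
      ‖cj B - cj B'‖ < ε := by
    intro B B' hBB
    rw [lt_div_iff₀ hMpos] at hBB
    refine (hcjn B B').trans_lt ?_
    have h1 : 0 ≤ ‖B - B'‖ := norm_nonneg _
    nlinarith
  have hgc : ∀ k, ContDiffOn ℝ ∞ (g k) (cube (j + 7 + 2)) := fun k => (hg k).1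
  have u0 : ∀ t ∈ Icc (-1 : ℝ) 2, |t| < 8 := fun t ht => by
    rw [abs_lt]; constructor <;> linarith [ht.1, ht.2]
  have u1 : ∀ t ∈ Icc (-3 : ℝ) 6, |t| < 8 := fun t ht => by
    rw [abs_lt]; constructor <;> linarith [ht.1, ht.2]
  have hd' : |d| < 8 := by rw [abs_lt]; constructor <;> linarith [hd.1, hd.2]
  have hc' : |c| < 8 := by rw [abs_lt]; constructor <;> linarith
  have ha' : |a| < 8 := by rw [abs_lt]; constructor <;> linarith [ha.1, ha.2]
  have hb' : |b| < 8 := by rw [abs_lt]; constructor <;> linarith [hb.1, hb.2]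
  have L1 : ∀ s : ℝ, |s| < 8 → Tendsto (fun i => ∫⁻ u, Φ (k i) (u, (s, (y, w))) ∂m1) atTop
      (𝓝 0) → ∀ᶠ i in atTop, ∀ t ∈ Icc (-1 : ℝ) 2,
      ‖fderiv ℝ (g (k i)) (LL j (t, s, y, w)) - G1 f K j (LL j (t, s, y, w))‖ < ε / M := by
    intro s hs hten
    have h1 := line_tendsto h hΩ hgc (LL j (0, s, y, w)) (e0 j) isDir_e0
      (s0 := -1) (s1 := 2) (by norm_num)
      (fun t ht => by rw [← LL_line0]; exact LL_mem_cube (u0 t ht) hs hyb hwb)
      (k := k) (by
        simp_rw [← LL_line0]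
        exact hten) hεM
    simp_rw [← LL_line0] at h1
    exact h1
  have L2 : ∀ s : ℝ, |s| < 8 → Tendsto (fun i => ∫⁻ t, Φ (k i) (s, t, (y, w)) ∂m2) atTop
      (𝓝 0) → ∀ᶠ i in atTop, ∀ t ∈ Icc (-3 : ℝ) 6,
      ‖fderiv ℝ (g (k i)) (LL j (s, t, y, w)) - G1 f K j (LL j (s, t, y, w))‖ < ε / M := by
    intro s hs hten
    have h1 := line_tendsto h hΩ hgc (LL j (s, 0, y, w)) (e1 j) isDir_e1
      (s0 := -3) (s1 := 6) (by norm_num)
      (fun t ht => by rw [← LL_line1]; exact LL_mem_cube hs (u1 t ht) hyb hwb)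
      (k := k) (by
        simp_rw [← LL_line1]
        exact hten) hεM
    simp_rw [← LL_line1] at h1
    exact h1
  obtain ⟨i, ⟨⟨hi1, hi2⟩, hi3⟩, hi4⟩ := (((L1 c hc' hPc).and (L1 d hd' hPd)).and
    (L2 a ha' hQa)).and (L2 b hb' hQb) |>.exists
  have hin : ∀ x ∈ Icc a b, ∀ t ∈ Icc c d, LL j (x, t, y, w) ∈ cube (j + 7 + 2) := by
    intro x hx t ht
    refine LL_mem_cube ?_ ?_ hyb hwb
    · rw [abs_lt]; constructor <;> linarith [hx.1, hx.2, ha.1, hb.2]
    · rw [abs_lt]; constructor <;> linarith [ht.1, ht.2, hd.2]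
  have hsub1 : ∀ x ∈ Icc a b, x ∈ Icc (-1 : ℝ) 2 := fun x hx =>
    ⟨by linarith [hx.1, ha.1], by linarith [hx.2, hb.2]⟩
  have hsub2 : ∀ t ∈ Icc c d, t ∈ Icc (-3 : ℝ) 6 := fun t ht =>
    ⟨by linarith [ht.1], by linarith [ht.2, hd.2]⟩
  refine hfill c d (fun x t => cj (fderiv ℝ (g (k i)) (LL j (x, t, y, w)))) hcd ?_ ?_ ?_ ?_ ?_ ?_
  · intro p hp
    have hx := hin p.1 hp.1 p.2 hp.2
    have h1 : ContinuousAt (fderiv ℝ (g (k i))) (LL j (p.1, p.2, y, w)) :=
      (((hgc (k i)).fderiv_of_isOpen hΩ (m := ∞) (by simp)).continuousOn).continuousAt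
        (hΩ.mem_nhds hx)
    have h2 : Continuous fun p : ℝ × ℝ => LL j (p.1, p.2, y, w) :=
      (continuous_LL j).comp (by fun_prop)
    have h3 : ContinuousAt (fun p : ℝ × ℝ => fderiv ℝ (g (k i)) (LL j (p.1, p.2, y, w))) p :=
      ContinuousAt.comp (g := fderiv ℝ (g (k i))) h1 h2.continuousAt
    exact (ContinuousAt.comp (g := cj) hcjc.continuousAt h3).continuousWithinAt
  · intro x hx t ht
    refine hcji _ ?_
    obtain ⟨e, he⟩ := (hg (k i)).exists_equiv hΩ (hin x hx t ht)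
    rw [he.fderiv]
    exact e.injective
  · intro x hx
    have h1 := hsmall _ _ (hi1 x (hsub1 x hx))
    have h2 : G1 f K j (LL j (x, c, y, w)) = ContinuousLinearMap.id ℝ (EE (j + 7 + 2)) :=
      G1_eq_id _ (F1_of_K h (by rw [pi9_LL]; exact hcK))
    rw [h2, hcjid] at h1
    exact h1
  · intro t ht
    have h1 := hsmall _ _ (hi3 t (hsub2 t ht))
    have h2 : G1 f K j (LL j (a, t, y, w)) = ContinuousLinearMap.id ℝ (EE (j + 7 + 2)) :=
      G1_eq_id _ (F1_of_neg h (by rw [pi9_LL]; exact ha.2))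
    rw [h2, hcjid] at h1
    exact h1
  · intro t ht
    have h1 := hsmall _ _ (hi4 t (hsub2 t ht))
    have h2 : G1 f K j (LL j (b, t, y, w)) = ContinuousLinearMap.id ℝ (EE (j + 7 + 2)) :=
      G1_eq_id _ (F1_of_gt h (by rw [pi9_LL]; exact hb.1))
    rw [h2, hcjid] at h1
    exact h1
  · intro x hx
    have h1 := hsmall _ _ (hi2 x (hsub1 x hx))
    have h2 : LL j (x, d, y, w) = P x 0 := by
      rw [LL, hPdef, hzt]
      simp [MY]
    rw [h2] at h1
    change ‖cj (fderiv ℝ (g (k i)) (LL j (x, d, y, w))) - cj (G1 f K j (P x 0))‖ < ε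
    rw [h2]
    exact h1

end Pool.Agent.H93.Nine
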