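import Mathlib
import Pool.Agent.H93.Nine.Final
import Pool.Agent.Wtw.FDQ

/-!
The range of exponents.
-/

set_option linter.unusedSectionVars false

namespace Pool.Agent.H93.Nine

open MeasureTheory Set Filter Topology Pool.Agent.Wtw Metric Pool.Agent.H93.Exo
open scoped ENNReal ContDiff

section exponents

variable {E : Type*} [NormedAddCommGroup E] [NormedSpace ℝ E] [MeasureSpace E]
  {V : Type*} [NormedAddCommGroup V] [NormedSpace ℝ V]

theorem one_le_ofReal {q : ℝ} (hq : 1 ≤ q) : (1 : ℝ≥0∞) ≤ ENNReal.ofReal q := by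
  rw [← ENNReal.ofReal_one]; exact ENNReal.ofReal_le_ofReal hq

theorem inLq_mono_exp {q : ℝ} (hq : 1 ≤ q) {Ω : Set E} (hv : volume Ω < ⊤) {u : E → V}
    (h : InLq q Ω u) : InLq 1 Ω u := by
  unfold InLq at *
  haveI : IsFiniteMeasure ((volume : Measure E).restrict Ω) := ⟨by simpa using hv⟩
  rw [ENNReal.ofReal_one]
  exact h.mono_exponent (one_le_ofReal hq)

theorem lqNorm_mono_exp {q : ℝ} (hq : 1 ≤ q) {Ω : Set E} {u : E → V}
    (hu : AEStronglyMeasurable u ((volume : Measure E).restrict Ω)) :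
    lqNorm 1 Ω u ≤ volume Ω ^ (1 - 1 / q) * lqNorm q Ω u := by
  unfold lqNorm
  have h := eLpNorm_le_eLpNorm_mul_rpow_measure_univ (one_le_ofReal hq) hu
  rw [ENNReal.ofReal_one, mul_comm]
  have e : 1 / ENNReal.toReal 1 - 1 / (ENNReal.ofReal q).toReal = 1 - 1 / q := by
    rw [ENNReal.toReal_ofReal (by linarith)]; simp
  rw [e, Measure.restrict_apply_univ] at h
  exact h

theorem isW2Limit_mono_exp {q : ℝ} (hq : 1 ≤ q) {Ω : Set E} (hv : volume Ω < ⊤) {f : E → E}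
    (h : IsW2Limit q Ω f) : IsW2Limit 1 Ω f := by
  obtain ⟨f1, f2, hf, g, g1, g2, hg, hl⟩ := h
  have hj : ∀ {w : E → E} {w1 : E → E →L[ℝ] E} {w2 : E → E →L[ℝ] E →L[ℝ] E},
      IsJet q Ω w w1 w2 → IsJet 1 Ω w w1 w2 := fun hw =>
    ⟨⟨inLq_mono_exp hq hv hw.1.1, inLq_mono_exp hq hv hw.1.2.1,
      inLq_mono_exp hq hv hw.1.2.2⟩, hw.2⟩
  refine ⟨f1, f2, hj hf, g, g1, g2, fun k => ⟨(hg k).1, hj (hg k).2⟩, ?_⟩
  set C : ℝ≥0∞ := volume Ω ^ (1 - 1 / q) with hC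
  have hCt : C ≠ ⊤ := by
    refine (ENNReal.rpow_lt_top_of_nonneg ?_ hv.ne).ne
    have : 1 / q ≤ 1 := by rw [div_le_one (by linarith)]; exact hq
    linarith
  have hl2 : Tendsto (fun k => C * (lqNorm q Ω (g k - f) + lqNorm q Ω (g1 k - f1) +
      lqNorm q Ω (g2 k - f2))) atTop (𝓝 0) := by
    have := ENNReal.Tendsto.const_mul (a := C) hl (Or.inr hCt)
    simpa using this
  refine tendsto_of_tendsto_of_tendsto_of_le_of_le tendsto_const_nhds hl2 (fun _ => zero_le)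
    (fun k => ?_)
  have a0 : lqNorm 1 Ω (g k - f) ≤ C * lqNorm q Ω (g k - f) := lqNorm_mono_exp hq
    ((hg k).2.1.1.aestronglyMeasurable.sub hf.1.1.aestronglyMeasurable)
  have a1 : lqNorm 1 Ω (g1 k - f1) ≤ C * lqNorm q Ω (g1 k - f1) := lqNorm_mono_exp hq
    ((hg k).2.1.2.1.aestronglyMeasurable.sub hf.1.2.1.aestronglyMeasurable)
  have a2 : lqNorm 1 Ω (g2 k - f2) ≤ C * lqNorm q Ω (g2 k - f2) := lqNorm_mono_exp hq
    ((hg k).2.1.2.2.aestronglyMeasurable.sub hf.1.2.2.aestronglyMeasurable)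
  have q3 : ∀ a b c a' b' c' : ℝ≥0∞, a ≤ C * a' → b ≤ C * b' → c ≤ C * c' →
      a + b + c ≤ C * (a' + b' + c') := by
    intro a b c a' b' c' h1 h2 h3
    rw [mul_add, mul_add]
    exact add_le_add (add_le_add h1 h2) h3
  exact q3 _ _ _ _ _ _ a0 a1 a2

end exponents

variable {f : E9 → E9} {K : Set Z8} {j : ℕ}

/-- `L^q` functions of the nine coordinates -/
theorem inLq_comp_pi9 {V : Type*} [NormedAddCommGroup V] [NormedSpace ℝ V] {u : E9 → V} {q : ℝ}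
    (hq : 1 ≤ q) (hu : ASM u)
    (hint : ∀ R : ℝ, ∫⁻ x in closedBall (0 : E9) R, ‖u x‖ₑ ^ q < ⊤) {Ω : Set (EE (j + 7 + 2))}
    (hb : Bornology.IsBounded Ω) : InLq q Ω (fun x : EE (j + 7 + 2) => u (pi9 j x)) := by
  have hq0 : 0 < q := by linarith
  set w : E9 → ℝ := fun x => ‖u x‖ ^ q with hw
  have hwn : ∀ x, ‖w x‖ₑ = ‖u x‖ₑ ^ q := by
    intro x
    rw [hw]
    simp only
    rw [← ofReal_norm (‖u x‖ ^ q), Real.norm_of_nonneg (by positivity),
      ← ENNReal.ofReal_rpow_of_nonneg (norm_nonneg _) hq0.le, ofReal_norm]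
  have hwm : ASM w := by
    unfold ASM at hu ⊢
    exact (hu.norm.aemeasurable.pow_const q).aestronglyMeasurable
  have hwf : FinB w := by
    intro R
    simp_rw [hwn]
    exact hint R
  have hLI := li_comp_pi9 hwm hwf j
  unfold LI at hLI
  have h1 : IntegrableOn (fun x : EE (j + 7 + 2) => w (pi9 j x)) Ω volume :=
    (hLI.integrableOn_isCompact hb.isCompact_closure).mono_set subset_closure
  have hqm : Measure.QuasiMeasurePreserving (pi9 j) volume volume := by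
    have h1 : Measure.QuasiMeasurePreserving (Prod.fst : XX j → E9) volume volume :=
      Measure.quasiMeasurePreserving_fst
    exact h1.comp (measurePreserving_LX j).quasiMeasurePreserving
  refine ⟨(AEStronglyMeasurable.comp_quasiMeasurePreserving hu hqm).restrict, ?_⟩
  rw [eLpNorm_lt_top_iff_lintegral_rpow_enorm_lt_top (by simpa using hq0)
    ENNReal.ofReal_ne_top, ENNReal.toReal_ofReal hq0.le]
  have h2 := h1.2
  rw [HasFiniteIntegral] at h2
  simp_rw [hwn] at h2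
  exact h2

theorem lintegral_F1_rpow (h : FData f K) {q : ℝ} {R : ℝ}
    (hi : ∫⁻ x in closedBall (0 : E9) R, ‖fderiv ℝ f x‖ₑ ^ q < ⊤) :
    ∫⁻ x in closedBall (0 : E9) R, ‖F1 f K x‖ₑ ^ q < ⊤ := by
  refine lt_of_le_of_lt (le_of_eq (lintegral_congr_ae ?_)) hi
  refine ae_restrict_of_ae ?_
  have : ∀ᵐ x : E9, x ∉ Sg K := by
    rw [ae_iff]; simpa using volume_Sg K
  filter_upwards [this] with x hx
  rw [F1_of_notMem hx]

theorem lintegral_F2_rpow (h : FData f K) {q : ℝ} {R : ℝ}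
    (hi : ∫⁻ x in closedBall (0 : E9) R, ‖fderiv ℝ (fderiv ℝ f) x‖ₑ ^ q < ⊤) :
    ∫⁻ x in closedBall (0 : E9) R, ‖F2 f K x‖ₑ ^ q < ⊤ := by
  refine lt_of_le_of_lt (le_of_eq (lintegral_congr_ae ?_)) hi
  refine ae_restrict_of_ae ?_
  have : ∀ᵐ x : E9, x ∉ Sg K := by
    rw [ae_iff]; simpa using volume_Sg K
  filter_upwards [this] with x hx
  rw [F2_of_notMem hx]

theorem InLq.clm {n : ℕ} {V W : Type*} [NormedAddCommGroup V] [NormedSpace ℝ V]
    [NormedAddCommGroup W] [NormedSpace ℝ W] {q : ℝ} {Ω : Set (EE n)} {u : EE n → V}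
    (hu : InLq q Ω u) (L : V →L[ℝ] W) : InLq q Ω fun x => L (u x) :=
  L.comp_memLp' hu

theorem InLq.const {n : ℕ} {V : Type*} [NormedAddCommGroup V] [NormedSpace ℝ V]
    {q : ℝ} {Ω : Set (EE n)} (hb : Bornology.IsBounded Ω) (c : V) :
    InLq q Ω fun _ : EE n => c := by
  haveI : IsFiniteMeasure ((volume : Measure (EE n)).restrict Ω) :=
    ⟨by simpa using hb.measure_lt_top⟩
  exact memLp_const c

theorem inLq_conj {n : ℕ} {X Y V W : Type*} [NormedAddCommGroup X] [NormedSpace ℝ X]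
    [NormedAddCommGroup Y] [NormedSpace ℝ Y] [NormedAddCommGroup V] [NormedSpace ℝ V]
    [NormedAddCommGroup W] [NormedSpace ℝ W] {q : ℝ} {Ω : Set (EE n)} {u : EE n → X →L[ℝ] V}
    (hu : InLq q Ω u) (Q : V →L[ℝ] W) (p : Y →L[ℝ] X) :
    InLq q Ω fun x => Q.comp ((u x).comp p) :=
  InLq.clm hu ((ContinuousLinearMap.compL ℝ Y V W Q).comp
    ((ContinuousLinearMap.compL ℝ Y X V).flip p))

theorem InLq.sub {n : ℕ} {V : Type*} [NormedAddCommGroup V] [NormedSpace ℝ V] {q : ℝ}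
    {Ω : Set (EE n)} {u w : EE n → V} (hu : InLq q Ω u) (hw : InLq q Ω w) :
    InLq q Ω fun x => u x - w x := MemLp.sub hu hw

theorem InLq.add {n : ℕ} {V : Type*} [NormedAddCommGroup V] [NormedSpace ℝ V] {q : ℝ}
    {Ω : Set (EE n)} {u w : EE n → V} (hu : InLq q Ω u) (hw : InLq q Ω w) :
    InLq q Ω fun x => u x + w x := MemLp.add hu hw

theorem isJet_Gq (h : FDataQ f K) (j : ℕ) {q : ℝ} (hq : 1 ≤ q) (hq2 : q < 480 / 477)
    {Ω : Set (EE (j + 7 + 2))} (hΩ : IsOpen Ω) (hb : Bornology.IsBounded Ω) :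
    IsJet q Ω (G0 f j) (G1 f K j) (G2 f K j) := by
  have h0 := h.toFData
  have a1 : InLq q Ω (fun x : EE (j + 7 + 2) => F1 f K (pi9 j x)) :=
    inLq_comp_pi9 hq (asm_F1 h0) (fun R => lintegral_F1_rpow h0 (h.intq1 q hq hq2 R)) hb
  have a2 : InLq q Ω (fun x : EE (j + 7 + 2) => F2 f K (pi9 j x)) :=
    inLq_comp_pi9 hq (asm_F2 h0) (fun R => lintegral_F2_rpow h0 (h.intq2 q hq hq2 R)) hb
  refine ⟨⟨inLq_of_continuous q hΩ hb (isHomeomorph_G0 h0 j).continuous, ?_, ?_⟩,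
    isWeakDeriv_G0 h0 j Ω, isWeakDeriv_G1 h0 j Ω⟩
  · exact InLq.add (InLq.const hb (ContinuousLinearMap.id ℝ (EE (j + 7 + 2))))
      (InLq.clm (InLq.sub a1 (InLq.const hb (ContinuousLinearMap.id ℝ E9))) (QQ j))
  · exact inLq_conj a2 (QQ j) (pi9 j)

theorem main_q (h : FDataQ f K) (j : ℕ) {q : ℝ} (hq : 1 ≤ q) (hq2 : q < 480 / 477) :
    IsW2Homeo q (cube (j + 7 + 2)) (G0 f j) ∧ ¬ IsW2Limit q (cube (j + 7 + 2)) (G0 f j) := by
  refine ⟨⟨isHomeoOn_of_isHomeomorph (isHomeomorph_G0 h.toFData j) (isOpen_cube _),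
    G1 f K j, G2 f K j, isJet_Gq h j hq hq2 (isOpen_cube _) (isBounded_cube _)⟩, fun hl => ?_⟩
  exact not_isW2Limit h.toFData j
    (isW2Limit_mono_exp hq (isBounded_cube _).measure_lt_top hl)

end Pool.Agent.H93.Nine
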